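import Mathlib.Analysis.Complex.AbsMax
import Mathlib.Analysis.Complex.RemovableSingularity
import Mathlib.Analysis.SpecialFunctions.Log.Basic
import Mathlib.Tactic

/-!
Dividing out real zeros of a bounded holomorphic function on the unit disc by Blaschke factors.
-/

namespace Pool.Agent.Q164.BlStep

open Filter Topology Metric

/-- Division by one Blaschke factor with a real zero. -/
theorem one_step {F : ℂ → ℂ} {M : ℝ} (hF : DifferentiableOn ℂ F (ball 0 1))
    (hM : ∀ w ∈ ball (0 : ℂ) 1, ‖F w‖ ≤ M) {a : ℝ} (ha0 : 0 ≤ a) (ha1 : a < 1)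
    (hz : F a = 0) :
    ∃ H : ℂ → ℂ, DifferentiableOn ℂ H (ball 0 1) ∧ (∀ w ∈ ball (0 : ℂ) 1, ‖H w‖ ≤ M) ∧
      ∀ w ∈ ball (0 : ℂ) 1, F w * (1 - a * w) = H w * (w - a) := by
  have haD : (a : ℂ) ∈ ball (0 : ℂ) 1 := by
    rw [mem_ball_zero_iff, Complex.norm_real, Real.norm_eq_abs, abs_of_nonneg ha0]
    exact ha1
  set G : ℂ → ℂ := dslope F a with hG
  have hGd : DifferentiableOn ℂ G (ball 0 1) :=
    (Complex.differentiableOn_dslope (isOpen_ball.mem_nhds haD)).2 hF
  have hFG : ∀ w, F w = G w * (w - a) := by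
    intro w
    have := sub_smul_dslope F (a : ℂ) w
    rw [hz, sub_zero, smul_eq_mul] at this
    rw [← this, mul_comm]
  refine ⟨fun w => G w * (1 - a * w), ?_, ?_, ?_⟩
  · apply hGd.mul
    fun_prop
  · have hM0 : 0 ≤ M := (norm_nonneg _).trans (hM a haD)
    intro w hw
    rw [mem_ball_zero_iff] at hw
    -- bound on circles of radius r
    have hbound : ∀ r : ℝ, max a ‖w‖ < r → r < 1 →
        ‖G w * (1 - a * w)‖ ≤ M * (1 + (1 - a ^ 2) * (1 - r ^ 2) / (r - a) ^ 2) := by
      intro r hr hr1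
      have hra : a < r := (le_max_left _ _).trans_lt hr
      have hrw : ‖w‖ < r := (le_max_right _ _).trans_lt hr
      have hr0 : 0 < r := ha0.trans_lt hra
      set Q : ℝ := 1 + (1 - a ^ 2) * (1 - r ^ 2) / (r - a) ^ 2 with hQ
      have hQ1 : 1 ≤ Q := by
        rw [hQ]
        have h1 : 0 ≤ 1 - a ^ 2 := by nlinarith
        have h2 : 0 ≤ 1 - r ^ 2 := by nlinarith
        have : 0 ≤ (1 - a ^ 2) * (1 - r ^ 2) / (r - a) ^ 2 := by positivity
        linarith
      have hd : DiffContOnCl ℂ (fun w => G w * (1 - a * w)) (ball 0 r) := by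
        apply DifferentiableOn.diffContOnCl
        rw [closure_ball _ hr0.ne']
        apply DifferentiableOn.mul
        · exact hGd.mono (closedBall_subset_ball hr1)
        · fun_prop
      refine Complex.norm_le_of_forall_mem_frontier_norm_le isBounded_ball hd ?_
        (subset_closure (mem_ball_zero_iff.2 hrw))
      intro z hz
      rw [frontier_ball _ hr0.ne', mem_sphere_zero_iff_norm] at hz
      have hzD : z ∈ ball (0 : ℂ) 1 := by rw [mem_ball_zero_iff, hz]; exact hr1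
      have hza : r - a ≤ ‖z - a‖ := by
        have := norm_sub_norm_le z (a : ℂ)
        rw [hz, Complex.norm_real, Real.norm_eq_abs, abs_of_nonneg ha0] at this
        exact this
      have hzane : 0 < ‖z - a‖ := by linarith
      have e1 : ‖G z‖ * ‖z - a‖ = ‖F z‖ := by rw [hFG z, norm_mul]
      have e2 : ‖(1 : ℂ) - a * z‖ ^ 2 = ‖z - a‖ ^ 2 + (1 - a ^ 2) * (1 - r ^ 2) := by
        rw [← hz, ← Complex.normSq_eq_norm_sq, ← Complex.normSq_eq_norm_sq,
          ← Complex.normSq_eq_norm_sq, Complex.normSq_apply, Complex.normSq_apply,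
          Complex.normSq_apply]
        simp
        ring
      have e3 : ‖(1 : ℂ) - a * z‖ ^ 2 ≤ (Q * ‖z - a‖) ^ 2 := by
        have h1 : (1 - a ^ 2) * (1 - r ^ 2) ≤ (Q - 1) * ‖z - a‖ ^ 2 := by
          have h2 : (1 - a ^ 2) * (1 - r ^ 2) = (Q - 1) * (r - a) ^ 2 := by
            rw [hQ]
            have : r - a ≠ 0 := by linarith
            field_simp
            ring
          rw [h2]
          apply mul_le_mul_of_nonneg_left _ (by linarith)
          exact pow_le_pow_left₀ (by linarith) hza 2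
        rw [e2, mul_pow]
        have h3 : Q ≤ Q ^ 2 := by nlinarith
        nlinarith [sq_nonneg ‖z - a‖]
      have e4 : ‖(1 : ℂ) - a * z‖ ≤ Q * ‖z - a‖ :=
        (sq_le_sq₀ (norm_nonneg _) (by positivity)).1 e3
      rw [norm_mul]
      calc ‖G z‖ * ‖(1 : ℂ) - a * z‖ ≤ ‖G z‖ * (Q * ‖z - a‖) :=
            mul_le_mul_of_nonneg_left e4 (norm_nonneg _)
        _ = (‖G z‖ * ‖z - a‖) * Q := by ring
        _ = ‖F z‖ * Q := by rw [e1]
        _ ≤ M * Q := mul_le_mul_of_nonneg_right (hM z hzD) (by linarith)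
    -- let r → 1
    have hlim : Tendsto (fun r : ℝ => M * (1 + (1 - a ^ 2) * (1 - r ^ 2) / (r - a) ^ 2))
        (𝓝[<] 1) (𝓝 M) := by
      have hne : (1 - a) ^ 2 ≠ 0 := by
        apply pow_ne_zero
        linarith
      have h1 : ContinuousAt (fun r : ℝ => M * (1 + (1 - a ^ 2) * (1 - r ^ 2) / (r - a) ^ 2)) 1 := by
        fun_prop (disch := exact hne)
      have h2 := h1.tendsto.mono_left (nhdsWithin_le_nhds (s := Set.Iio (1 : ℝ)))
      simpa using h2
    refine ge_of_tendsto hlim ?_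
    have h1 : max a ‖w‖ < 1 := max_lt ha1 hw
    filter_upwards [self_mem_nhdsWithin,
      (lt_mem_nhds h1).filter_mono (nhdsWithin_le_nhds (s := Set.Iio (1 : ℝ)))] with r hr hr2
    exact hbound r hr2 hr
  · intro w _
    show F w * (1 - a * w) = G w * (1 - a * w) * (w - a)
    rw [hFG w]
    ring

/-- The product of the moduli of finitely many real zeros is bounded below. -/
theorem prod_bound {F : ℂ → ℂ} {M : ℝ} (hF : DifferentiableOn ℂ F (ball 0 1))
    (hM : ∀ w ∈ ball (0 : ℂ) 1, ‖F w‖ ≤ M) (J : Finset ℝ)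
    (hJ : ∀ a ∈ J, 0 ≤ a ∧ a < 1 ∧ F a = 0) : ‖F 0‖ ≤ M * ∏ a ∈ J, a := by
  classical
  induction J using Finset.induction_on generalizing F with
  | empty => simpa using hM 0 (by simp)
  | insert a J ha ih =>
    obtain ⟨ha0, ha1, haz⟩ := hJ a (Finset.mem_insert_self a J)
    obtain ⟨H, hH1, hH2, hH3⟩ := one_step hF hM ha0 ha1 haz
    have h1 := ih hH1 hH2 (by
      intro b hb
      obtain ⟨hb0, hb1, hbz⟩ := hJ b (Finset.mem_insert_of_mem hb)
      refine ⟨hb0, hb1, ?_⟩
      have hbD : (b : ℂ) ∈ ball (0 : ℂ) 1 := by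
        rw [mem_ball_zero_iff, Complex.norm_real, Real.norm_eq_abs, abs_of_nonneg hb0]
        exact hb1
      have h2 := hH3 b hbD
      rw [hbz, zero_mul] at h2
      have h3 : (b : ℂ) - a ≠ 0 := by
        intro h
        have : b = a := by exact_mod_cast sub_eq_zero.1 h
        rw [this] at hb
        exact ha hb
      exact (mul_eq_zero.1 h2.symm).resolve_right h3)
    have h2 := hH3 0 (by simp)
    rw [mul_zero, sub_zero, mul_one, zero_sub] at h2
    rw [h2, norm_mul, norm_neg, Complex.norm_real, Real.norm_eq_abs, abs_of_nonneg ha0,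
      Finset.prod_insert ha]
    calc ‖H 0‖ * a ≤ (M * ∏ a ∈ J, a) * a := mul_le_mul_of_nonneg_right h1 ha0
      _ = M * (a * ∏ a ∈ J, a) := by ring

/-- The Blaschke condition for finitely many real zeros. -/
theorem sum_bound {F : ℂ → ℂ} {M : ℝ} (hF : DifferentiableOn ℂ F (ball 0 1))
    (hM : ∀ w ∈ ball (0 : ℂ) 1, ‖F w‖ ≤ M) (h0 : F 0 ≠ 0) (J : Finset ℝ)
    (hJ : ∀ a ∈ J, 0 ≤ a ∧ a < 1 ∧ F a = 0) :
    ∑ a ∈ J, (1 - a) ≤ Real.log (M / ‖F 0‖) := by
  have h1 := prod_bound hF hM J hJ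
  have hn : 0 < ‖F 0‖ := norm_pos_iff.2 h0
  have hpos : ∀ a ∈ J, 0 < a := by
    intro a ha
    obtain ⟨ha0, -, haz⟩ := hJ a ha
    rcases eq_or_lt_of_le ha0 with h | h
    · exfalso
      apply h0
      rw [← h] at haz
      simpa using haz
    · exact h
  have hprod : 0 < ∏ a ∈ J, a := Finset.prod_pos hpos
  have hMpos : 0 < M := by
    by_contra hcon
    push Not at hcon
    have : M * ∏ a ∈ J, a ≤ 0 := mul_nonpos_of_nonpos_of_nonneg hcon hprod.le
    linarith
  have h2 : ‖F 0‖ / M ≤ ∏ a ∈ J, a := by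
    rw [div_le_iff₀ hMpos, mul_comm]
    exact h1
  have h3 : Real.log (‖F 0‖ / M) ≤ ∑ a ∈ J, Real.log a := by
    rw [← Real.log_prod (fun a ha => (hpos a ha).ne')]
    exact Real.log_le_log (by positivity) h2
  have h4 : ∑ a ∈ J, Real.log a ≤ ∑ a ∈ J, (a - 1) :=
    Finset.sum_le_sum fun a ha => Real.log_le_sub_one_of_pos (hpos a ha)
  have h5 : Real.log (M / ‖F 0‖) = -Real.log (‖F 0‖ / M) := by
    rw [← Real.log_inv, inv_div]
  rw [h5]
  have h6 : ∑ a ∈ J, (1 - a) = -∑ a ∈ J, (a - 1) := by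
    rw [← Finset.sum_neg_distrib]
    apply Finset.sum_congr rfl
    intro a _
    ring
  rw [h6]
  linarith

end Pool.Agent.Q164.BlStep
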