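import Pool.Agent.Q164.Hyp
import Mathlib.Algebra.Polynomial.Taylor
import Mathlib.Algebra.Polynomial.HasseDeriv
import Mathlib.LinearAlgebra.Dimension.Basic

/-!
Differential operators `∑ Q_k D^k` on `ℝ[X]` and the operator `cos D`.
-/

namespace Pool.Agent.Q164

open Polynomial Finset

theorem diffSum_eq (Q : ℕ → ℝ[X]) (p : ℝ[X]) {N : ℕ} (hN : p.natDegree < N) :
    ∑ k ∈ range (p.natDegree + 1), Q k * derivative^[k] p =
      ∑ k ∈ range N, Q k * derivative^[k] p := by
  apply sum_subset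
  · intro k hk
    rw [mem_range] at hk ⊢
    omega
  · intro k _ hk
    rw [mem_range, not_lt] at hk
    rw [iterate_derivative_eq_zero (by omega), mul_zero]

/-- The linear operator `∑ Q_k D^k` on real polynomials. -/
noncomputable def diffOp (Q : ℕ → ℝ[X]) : ℝ[X] →ₗ[ℝ] ℝ[X] where
  toFun p := ∑ k ∈ range (p.natDegree + 1), Q k * derivative^[k] p
  map_add' p q := by
    have h1 : p.natDegree < max p.natDegree q.natDegree + 1 := by omega
    have h2 : q.natDegree < max p.natDegree q.natDegree + 1 := by omega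
    have h3 : (p + q).natDegree < max p.natDegree q.natDegree + 1 := by
      have := natDegree_add_le p q
      omega
    rw [diffSum_eq Q p h1, diffSum_eq Q q h2, diffSum_eq Q (p + q) h3, ← sum_add_distrib]
    apply sum_congr rfl
    intro k _
    rw [iterate_map_add, mul_add]
  map_smul' c p := by
    have h1 : (c • p).natDegree < p.natDegree + 1 := by
      have := natDegree_smul_le c p
      omega
    rw [diffSum_eq Q (c • p) h1, RingHom.id_apply, smul_sum]
    apply sum_congr rfl
    intro k _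
    rw [iterate_derivative_smul, mul_smul_comm]

theorem diffOp_apply (Q : ℕ → ℝ[X]) (p : ℝ[X]) :
    diffOp Q p = ∑ k ∈ range (p.natDegree + 1), Q k * derivative^[k] p := rfl

theorem diffOp_apply_of_lt (Q : ℕ → ℝ[X]) (p : ℝ[X]) {N : ℕ} (hN : p.natDegree < N) :
    diffOp Q p = ∑ k ∈ range N, Q k * derivative^[k] p := diffSum_eq Q p hN

/-- Coefficients of `cos t`. -/
noncomputable def cosCoeff (k : ℕ) : ℝ := if Even k then (-1) ^ (k / 2) / (k.factorial : ℝ) else 0

theorem cosCoeff_two_mul (j : ℕ) : cosCoeff (2 * j) = (-1) ^ j / ((2 * j).factorial : ℝ) := by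
  simp [cosCoeff]

theorem cosCoeff_odd (j : ℕ) : cosCoeff (2 * j + 1) = 0 := by
  simp [cosCoeff]

theorem cosCoeff_spec (k : ℕ) :
    ((cosCoeff k * k.factorial : ℝ) : ℂ) = (Complex.I ^ k + (-Complex.I) ^ k) / 2 := by
  have hk : (k.factorial : ℝ) ≠ 0 := by exact_mod_cast k.factorial_ne_zero
  rcases Nat.even_or_odd' k with ⟨j, rfl | rfl⟩
  · rw [cosCoeff_two_mul, div_mul_cancel₀ _ hk, pow_mul, pow_mul, neg_sq, Complex.I_sq]
    push_cast
    ring
  · rw [cosCoeff_odd, zero_mul]
    rw [pow_succ, pow_succ, pow_mul, pow_mul, neg_sq, Complex.I_sq]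
    push_cast
    ring

/-- Taylor expansion for complex polynomials. -/
theorem eval_add_taylor (P : ℂ[X]) (z h : ℂ) :
    P.eval (z + h) = ∑ k ∈ range (P.natDegree + 1),
      h ^ k / (k.factorial : ℂ) * (derivative^[k] P).eval z := by
  have h1 : P.eval (z + h) = (taylor z P).eval h := by
    rw [taylor_eval, add_comm]
  rw [h1, eval_eq_sum_range, natDegree_taylor]
  apply sum_congr rfl
  intro k _
  rw [taylor_coeff, ← factorial_smul_hasseDeriv, LinearMap.smul_apply, eval_smul]
  have hk : (k.factorial : ℂ) ≠ 0 := by exact_mod_cast k.factorial_ne_zero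
  rw [nsmul_eq_mul]
  field_simp

/-- The operator `cos D`. -/
noncomputable def cosD : ℝ[X] →ₗ[ℝ] ℝ[X] := diffOp fun k => C (cosCoeff k)

theorem aeval_cosD (p : ℝ[X]) (z : ℂ) :
    aeval z (cosD p) = (aeval (z + Complex.I) p + aeval (z - Complex.I) p) / 2 := by
  rw [cosD, diffOp_apply, map_sum]
  have hnd : (p.map (algebraMap ℝ ℂ)).natDegree = p.natDegree := natDegree_map _
  rw [aeval_eq_eval_map p (z + Complex.I), sub_eq_add_neg z Complex.I,
    aeval_eq_eval_map p (z + -Complex.I),
    eval_add_taylor, eval_add_taylor, hnd, ← sum_add_distrib, sum_div]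
  apply sum_congr rfl
  intro k _
  have hk : (k.factorial : ℂ) ≠ 0 := by exact_mod_cast k.factorial_ne_zero
  have hs := cosCoeff_spec k
  push_cast at hs
  rw [map_mul, aeval_C, iterate_derivative_map, ← aeval_eq_eval_map]
  have : (algebraMap ℝ ℂ (cosCoeff k)) = (Complex.I ^ k + (-Complex.I) ^ k) / 2 / k.factorial := by
    rw [eq_div_iff hk, ← hs]
    rfl
  rw [this]
  ring

theorem norm_prod_shift (s : Multiset ℂ) (hs : ∀ y ∈ s, y.im = 0) (z : ℂ) (hz : 0 < z.im) :
    0 < ‖(s.map fun y => (z + Complex.I - y)).prod‖ ∧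
    ‖(s.map fun y => (z - Complex.I - y)).prod‖ ≤ ‖(s.map fun y => (z + Complex.I - y)).prod‖ ∧
    (s ≠ 0 → ‖(s.map fun y => (z - Complex.I - y)).prod‖ <
      ‖(s.map fun y => (z + Complex.I - y)).prod‖) := by
  induction s using Multiset.induction_on with
  | empty => simp
  | cons a s ih =>
    obtain ⟨ih1, ih2, -⟩ := ih (fun y hy => hs y (Multiset.mem_cons_of_mem hy))
    have ha : a.im = 0 := hs a (Multiset.mem_cons_self a s)
    simp only [Multiset.map_cons, Multiset.prod_cons, norm_mul]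
    have key : ‖z - Complex.I - a‖ < ‖z + Complex.I - a‖ := by
      rw [← sq_lt_sq₀ (norm_nonneg _) (norm_nonneg _), ← Complex.normSq_eq_norm_sq,
        ← Complex.normSq_eq_norm_sq, Complex.normSq_apply, Complex.normSq_apply]
      simp [ha]
      nlinarith
    have hpos : 0 < ‖z + Complex.I - a‖ := lt_of_le_of_lt (norm_nonneg _) key
    have hlt : ‖z - Complex.I - a‖ * ‖(s.map fun y => (z - Complex.I - y)).prod‖ <
        ‖z + Complex.I - a‖ * ‖(s.map fun y => (z + Complex.I - y)).prod‖ := by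
      calc ‖z - Complex.I - a‖ * ‖(s.map fun y => (z - Complex.I - y)).prod‖
          ≤ ‖z - Complex.I - a‖ * ‖(s.map fun y => (z + Complex.I - y)).prod‖ :=
            mul_le_mul_of_nonneg_left ih2 (norm_nonneg _)
        _ < _ := mul_lt_mul_of_pos_right key ih1
    exact ⟨mul_pos hpos ih1, hlt.le, fun _ => hlt⟩

theorem cosD_ne_zero_upper {p : ℝ[X]} (h0 : p ≠ 0) (hp : Hyperbolic p) {z : ℂ} (hz : 0 < z.im) :
    aeval z (cosD p) ≠ 0 := by
  rw [aeval_cosD]
  have hs := IsAlgClosed.splits (p.map (algebraMap ℝ ℂ))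
  have hev : ∀ w : ℂ, aeval w p = (p.map (algebraMap ℝ ℂ)).leadingCoeff *
      ((p.map (algebraMap ℝ ℂ)).roots.map fun y => w - y).prod := by
    intro w
    rw [aeval_eq_eval_map]
    exact hs.eval_eq_prod_roots w
  rw [hev, hev, ← mul_add]
  obtain ⟨h1, h2, h3⟩ := norm_prod_shift _ (roots_real h0 hp) z hz
  have hlc : (p.map (algebraMap ℝ ℂ)).leadingCoeff ≠ 0 :=
    leadingCoeff_ne_zero.2 (Polynomial.map_ne_zero h0)
  apply div_ne_zero _ two_ne_zero
  apply mul_ne_zero hlc
  by_cases hr : (p.map (algebraMap ℝ ℂ)).roots = 0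
  · rw [hr]
    simp
  · intro h
    have := h3 hr
    rw [add_eq_zero_iff_eq_neg] at h
    rw [h, norm_neg] at this
    exact lt_irrefl _ this

theorem aeval_conj' (p : ℝ[X]) (z : ℂ) :
    aeval (starRingEnd ℂ z) p = starRingEnd ℂ (aeval z p) :=
  Polynomial.aeval_conj p z

/-- `cos D` preserves hyperbolicity. -/
theorem Hyperbolic.cosD {p : ℝ[X]} (hp : Hyperbolic p) : Hyperbolic (cosD p) := by
  by_cases h0 : p = 0
  · left; simp [h0]
  right
  intro z hz
  by_contra him
  rcases lt_or_gt_of_ne him with h | h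
  · have h' : 0 < (starRingEnd ℂ z).im := by simpa using h
    apply cosD_ne_zero_upper h0 hp h'
    rw [aeval_conj', hz, map_zero]
  · exact cosD_ne_zero_upper h0 hp h hz

end Pool.Agent.Q164
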