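import Mathlib
import Pool.Agent.Q164.Flower1

/-!
# The trigonometric table and the Taylor bound (MP_38b438)
-/

open Real

namespace Pool.Agent.Q164.Flower

noncomputable section

/-- the function: `F x = -(8 cos 2πx + 10 cos 6πx + 7 cos 10πx)` -/
def F (x : ℝ) : ℝ :=
  -(8 * cos (2 * π * x) + 10 * cos (2 * π * (3 * x)) + 7 * cos (2 * π * (5 * x)))

/-- `F' / (2π)` -/
def G1 (x : ℝ) : ℝ :=
  8 * sin (2 * π * x) + 30 * sin (2 * π * (3 * x)) + 35 * sin (2 * π * (5 * x))

lemma cos_taylor_aux (s : ℝ) (hs : 0 ≤ s) (t : ℝ) :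
    0 ≤ cos (t + s) - cos t + sin t * s + s ^ 2 / 2 := by
  have h1 : ∀ u : ℝ, HasDerivAt (fun u => cos (t + u) - cos t + sin t * u + u ^ 2 / 2)
      (-sin (t + u) + sin t + u) u := by
    intro u
    have := ((((hasDerivAt_id u).const_add t).cos.sub_const (cos t)).add
      ((hasDerivAt_id u).const_mul (sin t))).add (((hasDerivAt_id u).pow 2).div_const 2)
    refine (this.congr_deriv ?_)
    simp
  have h2 : ∀ u : ℝ, 0 ≤ u → 0 ≤ -sin (t + u) + sin t + u := by
    intro u hu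
    have := Real.abs_sin_sub_sin_le (t + u) t
    have h3 := le_abs_self (sin (t + u) - sin t)
    have h4 : |t + u - t| = u := by rw [add_sub_cancel_left, abs_of_nonneg hu]
    linarith
  have hmono : MonotoneOn (fun u => cos (t + u) - cos t + sin t * u + u ^ 2 / 2) (Set.Ici 0) := by
    refine monotoneOn_of_deriv_nonneg (convex_Ici 0) ?_ ?_ ?_
    · exact fun u _ => (h1 u).continuousAt.continuousWithinAt
    · exact fun u _ => (h1 u).differentiableAt.differentiableWithinAt
    · intro u hu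
      rw [interior_Ici] at hu
      rw [(h1 u).deriv]
      exact h2 u (le_of_lt hu)
  have := hmono (Set.mem_Ici.2 le_rfl) (Set.mem_Ici.2 hs) hs
  simpa using this

lemma cos_taylor (t d : ℝ) : -cos (t + d) ≤ -cos t + sin t * d + d ^ 2 / 2 := by
  rcases le_total 0 d with hd | hd
  · have := cos_taylor_aux d hd t
    linarith
  · have := cos_taylor_aux (-d) (by linarith) (-t)
    have h1 : cos (-t + -d) = cos (t + d) := by
      rw [← cos_neg]; congr 1; ring
    rw [h1, cos_neg, sin_neg] at this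
    nlinarith

lemma F_taylor (y v : ℝ) :
    F (y + v) ≤ F y + G1 y * (2 * π * v) + 273 / 2 * (2 * π * v) ^ 2 := by
  have h1 := cos_taylor (2 * π * y) (2 * π * v)
  have h3 := cos_taylor (2 * π * (3 * y)) (2 * π * (3 * v))
  have h5 := cos_taylor (2 * π * (5 * y)) (2 * π * (5 * v))
  have e1 : 2 * π * y + 2 * π * v = 2 * π * (y + v) := by ring
  have e3 : 2 * π * (3 * y) + 2 * π * (3 * v) = 2 * π * (3 * (y + v)) := by ring
  have e5 : 2 * π * (5 * y) + 2 * π * (5 * v) = 2 * π * (5 * (y + v)) := by ring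
  rw [e1] at h1; rw [e3] at h3; rw [e5] at h5
  unfold F G1
  nlinarith

lemma step_bounds :
    |cos (2 * π / 688) - 9999582986 / 10000000000| ≤ 6 / 10000000000 ∧
    |sin (2 * π / 688) - 91324098 / 10000000000| ≤ 5 / 10000000000 := by
  have hp1 := Real.pi_gt_d20
  have hp2 := Real.pi_lt_d20
  set x := 2 * π / 688 with hx
  have hx1 : 0.00913253678369 < x := by rw [hx]; linarith
  have hx2 : x < 0.00913253678370 := by rw [hx]; linarith
  have hx0 : 0 < x := by linarith
  have hax : |x| ≤ 1 := by rw [abs_of_pos hx0]; linarith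
  have hc := Real.cos_bound hax
  have hs := Real.sin_bound hax
  rw [abs_of_pos hx0] at hc hs
  have hx4 : x ^ 4 ≤ 7 / 1000000000 := by
    calc x ^ 4 ≤ (0.00913253678370) ^ 4 := by gcongr
    _ ≤ _ := by norm_num
  have hx5 : x ^ 5 ≤ 1 / 10000000000 := by
    calc x ^ 5 ≤ (0.00913253678370) ^ 5 := by gcongr
    _ ≤ _ := by norm_num
  have hxx1 : (0.00913253678369) ^ 2 ≤ x ^ 2 := by gcongr
  have hxx2 : x ^ 2 ≤ (0.00913253678370) ^ 2 := by gcongr
  have hxxx1 : (0.00913253678369) ^ 3 ≤ x ^ 3 := by gcongr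
  have hxxx2 : x ^ 3 ≤ (0.00913253678370) ^ 3 := by gcongr
  norm_num at hxx1 hxx2 hxxx1 hxxx2
  rw [abs_le] at hc hs
  constructor
  · rw [abs_le]; constructor <;> linarith [hc.1, hc.2]
  · rw [abs_le]; constructor <;> linarith [hs.1, hs.2]

/-- the approximate table as a complex number -/
def Z (j : ℕ) : ℂ := ((tc j : ℝ) / 1000000000 : ℝ) + ((ts j : ℝ) / 1000000000 : ℝ) * Complex.I

/-- the exact table -/
def E (j : ℕ) : ℂ := Complex.exp ((2 * π * (j / 688) : ℝ) * Complex.I)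

/-- the approximate rotation -/
def Wr : ℂ := ((9999582986 / 10000000000 : ℝ) : ℂ) + ((91324098 / 10000000000 : ℝ) : ℂ) * Complex.I

lemma norm_le_of_re_im {z : ℂ} {a b : ℝ} (h1 : |z.re| ≤ a) (h2 : |z.im| ≤ b) :
    ‖z‖ ≤ a + b :=
  (Complex.norm_le_abs_re_add_abs_im z).trans (add_le_add h1 h2)

lemma Wr_norm : ‖Wr‖ ≤ 1 := by
  have h : Complex.normSq Wr ≤ 1 := by
    rw [Complex.normSq_apply]
    simp [Wr]
    norm_num
  rw [Complex.normSq_eq_norm_sq] at h
  nlinarith [norm_nonneg Wr]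

lemma E_succ (j : ℕ) : E (j + 1) = E j * Complex.exp ((2 * π / 688 : ℝ) * Complex.I) := by
  unfold E
  rw [← Complex.exp_add]
  congr 1
  push_cast
  ring

lemma W_err : ‖Complex.exp ((2 * π / 688 : ℝ) * Complex.I) - Wr‖ ≤ 2 / 1000000000 := by
  obtain ⟨h1, h2⟩ := step_bounds
  have := norm_le_of_re_im (z := Complex.exp ((2 * π / 688 : ℝ) * Complex.I) - Wr)
    (a := 6 / 10000000000) (b := 5 / 10000000000) ?_ ?_
  · refine this.trans ?_; norm_num
  · rw [Complex.sub_re, Complex.exp_ofReal_mul_I_re]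
    simpa [Wr] using h1
  · rw [Complex.sub_im, Complex.exp_ofReal_mul_I_im]
    simpa [Wr] using h2

lemma rec_err (j : ℕ) (hj : j < 688) : ‖Z j * Wr - Z (j + 1)‖ ≤ 4 / 1000000000 := by
  have h := recAll j hj
  unfold recOK at h
  rw [Bool.and_eq_true] at h
  obtain ⟨h1, h2⟩ := h
  have h1' := Nat.le_of_ble_eq_true h1
  have h2' := Nat.le_of_ble_eq_true h2
  have g1 : |((tc j * 9999582986 - ts j * 91324098 - tc (j + 1) * 10000000000 : ℤ) : ℝ)|
      ≤ 20000000000 := by
    rw [← Int.cast_abs, Int.abs_eq_natAbs]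
    exact_mod_cast h1'
  have g2 : |((ts j * 9999582986 + tc j * 91324098 - ts (j + 1) * 10000000000 : ℤ) : ℝ)|
      ≤ 20000000000 := by
    rw [← Int.cast_abs, Int.abs_eq_natAbs]
    exact_mod_cast h2'
  push_cast at g1 g2
  have := norm_le_of_re_im (z := Z j * Wr - Z (j + 1)) (a := 2 / 1000000000)
    (b := 2 / 1000000000) ?_ ?_
  · refine this.trans ?_; norm_num
  · rw [abs_le] at g1 ⊢
    simp [Z, Wr]
    constructor <;> linarith [g1.1, g1.2]
  · rw [abs_le] at g2 ⊢
    simp [Z, Wr]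
    constructor <;> linarith [g2.1, g2.2]

lemma E_norm (j : ℕ) : ‖E j‖ = 1 := Complex.norm_exp_ofReal_mul_I _

lemma table_err (j : ℕ) (hj : j ≤ 688) : ‖E j - Z j‖ ≤ j * (6 / 1000000000) := by
  induction j with
  | zero =>
    obtain ⟨h1, h2⟩ := tab_zero
    have : E 0 = 1 := by simp [E]
    rw [this]
    simp [Z, h1, h2]
  | succ j ih =>
    have ih' := ih (by omega)
    have e : E (j + 1) - Z (j + 1) =
        E j * (Complex.exp ((2 * π / 688 : ℝ) * Complex.I) - Wr) + (E j - Z j) * Wr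
          + (Z j * Wr - Z (j + 1)) := by
      rw [E_succ]; ring
    rw [e]
    refine (norm_add_le _ _).trans ?_
    have h1 : ‖E j * (Complex.exp ((2 * π / 688 : ℝ) * Complex.I) - Wr) + (E j - Z j) * Wr‖
        ≤ 2 / 1000000000 + j * (6 / 1000000000) := by
      refine (norm_add_le _ _).trans (add_le_add ?_ ?_)
      · rw [norm_mul, E_norm, one_mul]; exact W_err
      · rw [norm_mul]
        calc _ ≤ (j * (6 / 1000000000) : ℝ) * 1 :=
              mul_le_mul ih' Wr_norm (norm_nonneg _) (by positivity)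
        _ = _ := mul_one _
    have h2 := rec_err j (by omega)
    have h3 : ((j + 1 : ℕ) : ℝ) = j + 1 := by push_cast; ring
    rw [h3]
    linarith

lemma cos_table (j : ℕ) (hj : j ≤ 688) :
    |cos (2 * π * (j / 688)) - tc j / 1000000000| ≤ 5 / 1000000 := by
  have h := table_err j hj
  have h1 := (Complex.abs_re_le_norm (E j - Z j)).trans h
  have h2 : (E j - Z j).re = cos (2 * π * (j / 688)) - tc j / 1000000000 := by
    rw [Complex.sub_re, E, Complex.exp_ofReal_mul_I_re]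
    simp [Z]
  rw [h2] at h1
  have h3 : (j : ℝ) ≤ 688 := by exact_mod_cast hj
  refine h1.trans ?_
  nlinarith

lemma sin_table (j : ℕ) (hj : j ≤ 688) :
    |sin (2 * π * (j / 688)) - ts j / 1000000000| ≤ 5 / 1000000 := by
  have h := table_err j hj
  have h1 := (Complex.abs_im_le_norm (E j - Z j)).trans h
  have h2 : (E j - Z j).im = sin (2 * π * (j / 688)) - ts j / 1000000000 := by
    rw [Complex.sub_im, E, Complex.exp_ofReal_mul_I_im]
    simp [Z]
  rw [h2] at h1
  have h3 : (j : ℝ) ≤ 688 := by exact_mod_cast hj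
  refine h1.trans ?_
  nlinarith

/-! ### periodicity on the grid -/

lemma cos_grid (k j : ℕ) : cos (2 * π * (k * (j / 688))) = cos (2 * π * ((k * j % 688 : ℕ) / 688)) := by
  have h : ((k * j : ℕ) : ℝ) = (k * j % 688 : ℕ) + 688 * ((k * j / 688 : ℕ) : ℝ) := by
    have := Nat.mod_add_div (k * j) 688
    exact_mod_cast this.symm
  have e : 2 * π * (k * (j / 688)) =
      2 * π * ((k * j % 688 : ℕ) / 688) + ((k * j / 688 : ℕ) : ℝ) * (2 * π) := by
    push_cast at h ⊢
    field_simp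
    linarith
  rw [e, cos_add_nat_mul_two_pi]

lemma sin_grid (k j : ℕ) : sin (2 * π * (k * (j / 688))) = sin (2 * π * ((k * j % 688 : ℕ) / 688)) := by
  have h : ((k * j : ℕ) : ℝ) = (k * j % 688 : ℕ) + 688 * ((k * j / 688 : ℕ) : ℝ) := by
    have := Nat.mod_add_div (k * j) 688
    exact_mod_cast this.symm
  have e : 2 * π * (k * (j / 688)) =
      2 * π * ((k * j % 688 : ℕ) / 688) + ((k * j / 688 : ℕ) : ℝ) * (2 * π) := by
    push_cast at h ⊢
    field_simp
    linarith
  rw [e, sin_add_nat_mul_two_pi]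

lemma F_table (j : ℕ) (hj : j ≤ 688) : |F (j / 688) - fh j / 1000000000| ≤ 2 / 10000 := by
  have h1 := cos_table j hj
  have h3 := cos_table (3 * j % 688) (Nat.mod_lt _ (by norm_num)).le
  have h5 := cos_table (5 * j % 688) (Nat.mod_lt _ (by norm_num)).le
  have g3 := cos_grid 3 j
  have g5 := cos_grid 5 j
  unfold F fh
  push_cast at g3 g5 ⊢
  rw [g3, g5]
  rw [abs_le] at h1 h3 h5 ⊢
  constructor <;> linarith [h1.1, h1.2, h3.1, h3.2, h5.1, h5.2]

lemma G_table (j : ℕ) (hj : j ≤ 688) : |G1 (j / 688) - dh j / 1000000000| ≤ 4 / 10000 := by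
  have h1 := sin_table j hj
  have h3 := sin_table (3 * j % 688) (Nat.mod_lt _ (by norm_num)).le
  have h5 := sin_table (5 * j % 688) (Nat.mod_lt _ (by norm_num)).le
  have g3 := sin_grid 3 j
  have g5 := sin_grid 5 j
  unfold G1 dh
  push_cast at g3 g5 ⊢
  rw [g3, g5]
  rw [abs_le] at h1 h3 h5 ⊢
  constructor <;> linarith [h1.1, h1.2, h3.1, h3.2, h5.1, h5.2]

lemma F_period (x : ℝ) : F (x + 1) = F x := by
  unfold F
  have e1 : 2 * π * (x + 1) = 2 * π * x + 2 * π := by ring
  have e3 : 2 * π * (3 * (x + 1)) = 2 * π * (3 * x) + (3 : ℕ) * (2 * π) := by push_cast; ring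
  have e5 : 2 * π * (5 * (x + 1)) = 2 * π * (5 * x) + (5 : ℕ) * (2 * π) := by push_cast; ring
  rw [e1, e3, e5, cos_add_two_pi, cos_add_nat_mul_two_pi, cos_add_nat_mul_two_pi]

lemma G1_period (x : ℝ) : G1 (x + 1) = G1 x := by
  unfold G1
  have e1 : 2 * π * (x + 1) = 2 * π * x + 2 * π := by ring
  have e3 : 2 * π * (3 * (x + 1)) = 2 * π * (3 * x) + (3 : ℕ) * (2 * π) := by push_cast; ring
  have e5 : 2 * π * (5 * (x + 1)) = 2 * π * (5 * x) + (5 : ℕ) * (2 * π) := by push_cast; ring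
  rw [e1, e3, e5, sin_add_two_pi, sin_add_nat_mul_two_pi, sin_add_nat_mul_two_pi]

lemma G1_bound (x : ℝ) : |G1 x| ≤ 73 := by
  unfold G1
  have h1 := abs_le.1 (abs_sin_le_one (2 * π * x))
  have h3 := abs_le.1 (abs_sin_le_one (2 * π * (3 * x)))
  have h5 := abs_le.1 (abs_sin_le_one (2 * π * (5 * x)))
  rw [abs_le]
  constructor <;> linarith [h1.1, h1.2, h3.1, h3.2, h5.1, h5.2]

end

end Pool.Agent.Q164.Flower
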