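import Mathlib
import Pool.Agent.Q164.Flower2

/-!
# The sub-action and the main inequality (MP_38b438)
-/

open Real Finset

namespace Pool.Agent.Q164.Flower

noncomputable section

lemma F_add_nat (x : ℝ) (k : ℕ) : F (x + k) = F x := by
  induction k with
  | zero => simp
  | succ k ih => rw [Nat.cast_succ, ← add_assoc, F_period, ih]

lemma G1_add_nat (x : ℝ) (k : ℕ) : G1 (x + k) = G1 x := by
  induction k with
  | zero => simp
  | succ k ih => rw [Nat.cast_succ, ← add_assoc, G1_period, ih]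

lemma F_mod (n : ℕ) : F ((n : ℕ) / 43) = F ((n % 43 : ℕ) / 43) := by
  have h : ((n : ℕ) : ℝ) / 43 = (n % 43 : ℕ) / 43 + ((n / 43 : ℕ) : ℝ) := by
    have := Nat.mod_add_div n 43
    have h2 : ((n % 43 : ℕ) : ℝ) + 43 * ((n / 43 : ℕ) : ℝ) = n := by exact_mod_cast this
    linarith
  rw [h, F_add_nat]

lemma G1_mod (n : ℕ) : G1 ((n : ℕ) / 43) = G1 ((n % 43 : ℕ) / 43) := by
  have h : ((n : ℕ) : ℝ) / 43 = (n % 43 : ℕ) / 43 + ((n / 43 : ℕ) : ℝ) := by
    have := Nat.mod_add_div n 43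
    have h2 : ((n % 43 : ℕ) : ℝ) + 43 * ((n / 43 : ℕ) : ℝ) = n := by exact_mod_cast this
    linarith
  rw [h, G1_add_nat]

/-- values of `F` along the orbit of `a/43` -/
def u (a l : ℕ) : ℝ := F ((2 ^ l * a : ℕ) / 43)
/-- values of `G1` along the orbit of `a/43` -/
def gg (a l : ℕ) : ℝ := G1 ((2 ^ l * a : ℕ) / 43)

lemma u_congr {a b : ℕ} (h : a % 43 = b % 43) (l : ℕ) : u a l = u b l := by
  unfold u
  rw [F_mod (2 ^ l * a), F_mod (2 ^ l * b), Nat.mul_mod, h, ← Nat.mul_mod]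

lemma gg_congr {a b : ℕ} (h : a % 43 = b % 43) (l : ℕ) : gg a l = gg b l := by
  unfold gg
  rw [G1_mod (2 ^ l * a), G1_mod (2 ^ l * b), Nat.mul_mod, h, ← Nat.mul_mod]

lemma u_14 (a : ℕ) : u a 14 = u a 0 := by
  unfold u
  rw [F_mod (2 ^ 14 * a), F_mod (2 ^ 0 * a)]
  congr 3
  omega

lemma gg_14 (a : ℕ) : gg a 14 = gg a 0 := by
  unfold gg
  rw [G1_mod (2 ^ 14 * a), G1_mod (2 ^ 0 * a)]
  congr 3
  omega

lemma u_two (a l : ℕ) : u (2 * a) l = u a (l + 1) := by
  unfold u
  congr 3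
  ring

lemma gg_two (a l : ℕ) : gg (2 * a) l = gg a (l + 1) := by
  unfold gg
  congr 3
  ring

/-- orbit average -/
def bt (a : ℕ) : ℝ := (1 / 14) * ∑ l ∈ range 14, u a l
/-- the maximum value -/
def beta : ℝ := bt 3
/-- value of the sub-action at `a/43` -/
def ph (a : ℕ) : ℝ := -(1 / 14) * ∑ l ∈ range 14, (13 - (l : ℝ)) * u a l
/-- slope of the sub-action at `a/43` -/
def sl (a : ℕ) : ℝ := 2 * π * (1 / 16383) * ∑ l ∈ range 14, (2 : ℝ) ^ (13 - l) * gg a (13 - l)

lemma bt_congr {a b : ℕ} (h : a % 43 = b % 43) : bt a = bt b := by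
  unfold bt; simp only [u_congr h]
lemma ph_congr {a b : ℕ} (h : a % 43 = b % 43) : ph a = ph b := by
  unfold ph; simp only [u_congr h]
lemma sl_congr {a b : ℕ} (h : a % 43 = b % 43) : sl a = sl b := by
  unfold sl; simp only [gg_congr h]

lemma bt_two (a : ℕ) : bt (2 * a) = bt a := by
  unfold bt
  simp only [u_two]
  rw [Finset.sum_range_succ, Finset.sum_range_succ' (fun l => u a l), u_14]

lemma ph_two (a : ℕ) : F (a / 43) + ph a - ph (2 * a) = bt a := by
  have h0 : F ((a : ℝ) / 43) = u a 0 := by unfold u; congr 2; push_cast; ring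
  rw [h0]
  unfold ph bt
  simp only [u_two]
  have := u_14 a
  simp only [Finset.sum_range_succ, Finset.sum_range_zero]
  rw [show (13 : ℕ) + 1 = 14 from rfl, this]
  push_cast
  ring

lemma sl_two (a : ℕ) : 2 * π * G1 (a / 43) + sl a - 2 * sl (2 * a) = 0 := by
  have h0 : G1 ((a : ℝ) / 43) = gg a 0 := by unfold gg; congr 2; push_cast; ring
  rw [h0]
  unfold sl
  simp only [gg_two]
  have := gg_14 a
  simp only [Finset.sum_range_succ, Finset.sum_range_zero]
  norm_num
  rw [this]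
  ring

lemma orb_exists : ∀ a < 43, orb (16 * a) = true → ∃ i < 14, a = 2 ^ i * 3 % 43 := by
  decide +kernel

lemma bt_pow (i : ℕ) : bt (2 ^ i * 3) = beta := by
  induction i with
  | zero => simp [beta]
  | succ i ih =>
    rw [show 2 ^ (i + 1) * 3 = 2 * (2 ^ i * 3) by ring, bt_two, ih]

lemma bt_orb (a : ℕ) (ha : a < 43) (h : orb (16 * a) = true) : bt a = beta := by
  obtain ⟨i, -, hi⟩ := orb_exists a ha h
  rw [← bt_pow i]
  apply bt_congr
  rw [hi, Nat.mod_mod]

/-! ### numerical approximations on the orbit -/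

lemma u_table (a l : ℕ) : |u a l - fh (16 * (2 ^ l * a % 43)) / 1000000000| ≤ 2 / 10000 := by
  unfold u
  rw [F_mod]
  have h := F_table (16 * (2 ^ l * a % 43)) (by
    have := Nat.mod_lt (2 ^ l * a) (show 0 < 43 by norm_num)
    omega)
  have e : ((2 ^ l * a % 43 : ℕ) : ℝ) / 43 = ((16 * (2 ^ l * a % 43) : ℕ) : ℝ) / 688 := by
    push_cast; ring
  rw [e]
  exact h

lemma gg_table (a l : ℕ) : |gg a l - dh (16 * (2 ^ l * a % 43)) / 1000000000| ≤ 4 / 10000 := by
  unfold gg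
  rw [G1_mod]
  have h := G_table (16 * (2 ^ l * a % 43)) (by
    have := Nat.mod_lt (2 ^ l * a) (show 0 < 43 by norm_num)
    omega)
  have e : ((2 ^ l * a % 43 : ℕ) : ℝ) / 43 = ((16 * (2 ^ l * a % 43) : ℕ) : ℝ) / 688 := by
    push_cast; ring
  rw [e]
  exact h

lemma list_sum_eq (f : ℕ → ℤ) : ((List.range 14).map f).sum = ∑ l ∈ range 14, f l := by
  simp [Finset.sum_range_succ, List.range_succ]
  ring

lemma beta_approx : (5116832630 : ℝ) / 1000000000 ≤ beta + 3 / 10000 := by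
  have h := b_ok
  unfold bOK at h
  have h' := Nat.le_of_ble_eq_true h
  rw [list_sum_eq] at h'
  have g : |((14 * 5116832630 - ∑ l ∈ range 14, fh (16 * (2 ^ l * 3 % 43)) : ℤ) : ℝ)| ≤ 20 := by
    rw [← Int.cast_abs, Int.abs_eq_natAbs]
    exact_mod_cast h'
  push_cast at g
  have hs : |∑ l ∈ range 14, (u 3 l - fh (16 * (2 ^ l * 3 % 43)) / 1000000000)| ≤ 14 * (2 / 10000) := by
    refine (Finset.abs_sum_le_sum_abs _ _).trans ?_
    refine (Finset.sum_le_sum (fun l _ => u_table 3 l)).trans ?_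
    simp
  rw [Finset.sum_sub_distrib, ← Finset.sum_div] at hs
  unfold beta bt
  rw [abs_le] at g hs
  linarith [g.1, g.2, hs.1, hs.2]

lemma ph_approx (a : ℕ) (ha : a < 43) (h : orb (16 * a) = true) :
    |ph a - ch (16 * a) / 1000000| ≤ 2 / 1000 := by
  have h0 := orb_ok a ha h
  unfold orbOK at h0
  rw [Bool.and_eq_true] at h0
  have h' := Nat.le_of_ble_eq_true h0.1
  rw [list_sum_eq] at h'
  have g : |((∑ l ∈ range 14, (13 - (l : ℤ)) * fh (16 * (2 ^ l * a % 43)) + 14000 * ch (16 * a) : ℤ)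
      : ℝ)| ≤ 14000 := by
    rw [← Int.cast_abs, Int.abs_eq_natAbs]
    exact_mod_cast h'
  push_cast at g
  have hs : |∑ l ∈ range 14, (13 - (l : ℝ)) *
      (u a l - fh (16 * (2 ^ l * a % 43)) / 1000000000)| ≤ 91 * (2 / 10000) := by
    refine (Finset.abs_sum_le_sum_abs _ _).trans ?_
    have : ∀ l ∈ range 14, |(13 - (l : ℝ)) * (u a l - fh (16 * (2 ^ l * a % 43)) / 1000000000)|
        ≤ (13 - (l : ℝ)) * (2 / 10000) := by
      intro l hl
      have hl' : (l : ℝ) ≤ 13 := by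
        have := Finset.mem_range.1 hl
        exact_mod_cast (show l ≤ 13 by omega)
      rw [abs_mul, abs_of_nonneg (by linarith : (0 : ℝ) ≤ 13 - l)]
      exact mul_le_mul_of_nonneg_left (u_table a l) (by linarith)
    refine (Finset.sum_le_sum this).trans ?_
    simp only [Finset.sum_range_succ, Finset.sum_range_zero]
    norm_num
  have e : ∑ l ∈ range 14, (13 - (l : ℝ)) * (u a l - fh (16 * (2 ^ l * a % 43)) / 1000000000)
      = ∑ l ∈ range 14, (13 - (l : ℝ)) * u a l -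
        (∑ l ∈ range 14, (13 - (l : ℝ)) * (fh (16 * (2 ^ l * a % 43)) : ℝ)) / 1000000000 := by
    rw [Finset.sum_div, ← Finset.sum_sub_distrib]
    refine Finset.sum_congr rfl fun l _ => ?_
    ring
  rw [e] at hs
  unfold ph
  rw [abs_le] at g hs ⊢
  constructor <;> linarith [g.1, g.2, hs.1, hs.2]

lemma kappa_bounds : (2283134 : ℝ) / 1000000000 ≤ π / 1376 ∧ π / 1376 ≤ 2283135 / 1000000000 := by
  have h1 := Real.pi_gt_d20
  have h2 := Real.pi_lt_d20
  constructor <;> linarith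

lemma sl_approx (a : ℕ) (ha : a < 43) (h : orb (16 * a) = true) :
    |sl a / 2752 - sh (16 * a) / 1000000| ≤ 1 / 100000 := by
  have h0 := orb_ok a ha h
  unfold orbOK at h0
  rw [Bool.and_eq_true] at h0
  have h' := Nat.le_of_ble_eq_true h0.2
  rw [list_sum_eq] at h'
  have g : |((2283134 * ∑ l ∈ range 14, (2 : ℤ) ^ (13 - l) * dh (16 * (2 ^ (13 - l) * a % 43))
      - 16383000000000000 * sh (16 * a) : ℤ) : ℝ)| ≤ 16383000000000000 := by
    rw [← Int.cast_abs, Int.abs_eq_natAbs]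
    exact_mod_cast h'
  push_cast at g
  set D : ℝ := ∑ l ∈ range 14, (2 : ℝ) ^ (13 - l) * (dh (16 * (2 ^ (13 - l) * a % 43)) : ℝ) with hD
  set T : ℝ := ∑ l ∈ range 14, (2 : ℝ) ^ (13 - l) * gg a (13 - l) with hT
  have hpow : ∑ l ∈ range 14, (2 : ℝ) ^ (13 - l) = 16383 := by
    simp only [Finset.sum_range_succ, Finset.sum_range_zero]
    norm_num
  have hs : |T - D / 1000000000| ≤ 16383 * (4 / 10000) := by
    have e : T - D / 1000000000 = ∑ l ∈ range 14, (2 : ℝ) ^ (13 - l) *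
        (gg a (13 - l) - dh (16 * (2 ^ (13 - l) * a % 43)) / 1000000000) := by
      rw [hT, hD, Finset.sum_div, ← Finset.sum_sub_distrib]
      refine Finset.sum_congr rfl fun l _ => ?_
      ring
    rw [e]
    refine (Finset.abs_sum_le_sum_abs _ _).trans ?_
    rw [← hpow, Finset.sum_mul]
    refine Finset.sum_le_sum fun l _ => ?_
    rw [abs_mul, abs_of_nonneg (by positivity : (0 : ℝ) ≤ 2 ^ (13 - l))]
    exact mul_le_mul_of_nonneg_left (gg_table a (13 - l)) (by positivity)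
  have hT' : |T| ≤ 16383 * 73 := by
    refine (Finset.abs_sum_le_sum_abs _ _).trans ?_
    rw [← hpow, Finset.sum_mul]
    refine Finset.sum_le_sum fun l _ => ?_
    rw [abs_mul, abs_of_nonneg (by positivity : (0 : ℝ) ≤ 2 ^ (13 - l))]
    exact mul_le_mul_of_nonneg_left (G1_bound _) (by positivity)
  obtain ⟨hk1, hk2⟩ := kappa_bounds
  have e1 : sl a / 2752 = π / 1376 * T / 16383 := by
    unfold sl; rw [← hT]; ring
  have hk : |(π / 1376 - 2283134 / 1000000000) * T| ≤ 1 / 1000000000 * (16383 * 73) := by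
    rw [abs_mul]
    refine mul_le_mul ?_ hT' (abs_nonneg _) (by norm_num)
    rw [abs_le]; constructor <;> linarith
  rw [e1]
  rw [abs_le] at g hs hk ⊢
  constructor <;> nlinarith [g.1, g.2, hs.1, hs.2, hk.1, hk.2]

/-! ### the sub-action -/

/-- value at the centre of the cell `j` -/
def Cr (j : ℕ) : ℝ := if orb j then ph (j / 16) else (ch j : ℝ) / 1000000
/-- slope (per quarter cell) on the cell `j` -/
def Sr (j : ℕ) : ℝ := if orb j then sl (j / 16) / 2752 else (sh j : ℝ) / 1000000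
/-- quadratic coefficient (per quarter cell) -/
def Mr (j : ℕ) : ℝ := if orb j then 1800 / 2752 ^ 2 else 0

/-- the sub-action on the cell `j` in the coordinate `w = 2752 v` -/
def Gc (j : ℕ) (w : ℝ) : ℝ := Cr j + Sr j * w + Mr j * w ^ 2

lemma orb_mul {j : ℕ} (h : orb j = true) : j = 16 * (j / 16) := by
  unfold orb at h
  rw [Bool.and_eq_true] at h
  have := h.1
  have h2 : j % 16 = 0 := by simpa using this
  omega

lemma orb_lt {j : ℕ} (h : orb j = true) : j / 16 < 43 := by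
  unfold orb at h
  rw [Bool.and_eq_true] at h
  have h2 := h.2
  simp only [decide_eq_true_eq, List.mem_cons, List.not_mem_nil, or_false] at h2
  omega

lemma Cr_approx (j : ℕ) : |Cr j - ch j / 1000000| ≤ 2 / 1000 := by
  unfold Cr
  split_ifs with h
  · have h1 := orb_mul h
    have := ph_approx (j / 16) (orb_lt h) (by rw [← h1]; exact h)
    rw [← h1] at this
    exact this
  · rw [sub_self, abs_zero]; norm_num

lemma Sr_approx (j : ℕ) : |Sr j - sh j / 1000000| ≤ 1 / 100000 := by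
  unfold Sr
  split_ifs with h
  · have h1 := orb_mul h
    have := sl_approx (j / 16) (orb_lt h) (by rw [← h1]; exact h)
    rw [← h1] at this
    exact this
  · simp

lemma Mr_nonneg (j : ℕ) : 0 ≤ Mr j := by unfold Mr; split_ifs <;> positivity

lemma kd_approx (j : ℕ) (hj : j ≤ 688) :
    |π / 1376 * G1 (j / 688) - 2283134 * dh j / 1000000000000000000| ≤ 2 / 1000000 := by
  have h := G_table j hj
  have hb := G1_bound ((j : ℝ) / 688)
  obtain ⟨hk1, hk2⟩ := kappa_bounds
  have hk : |(π / 1376 - 2283134 / 1000000000) * G1 (j / 688)| ≤ 1 / 1000000000 * 73 := by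
    rw [abs_mul]
    refine mul_le_mul ?_ hb (abs_nonneg _) (by norm_num)
    rw [abs_le]; constructor <;> linarith
  rw [abs_le] at h hk ⊢
  constructor <;> nlinarith [h.1, h.2, hk.1, hk.2]

lemma key_pt (j J : ℕ) (hj : j ≤ 688) (e w : ℤ) (hc : chk j J e w = true)
    (hw : |(w : ℝ)| ≤ 2) (hw' : |2 * (w : ℝ) - 4 * e| ≤ 2) :
    F (j / 688) + G1 (j / 688) * (π / 1376 * w) + 273 / 2 * (π / 1376 * w) ^ 2
      + (Cr j + Sr j * w + Mr j * (w : ℝ) ^ 2) - (Cr J + Sr J * (2 * w - 4 * e)) ≤ beta := by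
  unfold chk at hc
  have hc' := of_decide_eq_true hc
  have hcr : (1000000000 * (fh j : ℝ) + 2283134 * dh j * w + 711534290952713 * (w * w)
      + 1000000000000 * (ch j + sh j * w) + (if orb j then 237670700378584 * ((w : ℝ) * w) else 0)
      - 1000000000000 * (ch J + sh J * (2 * w - 4 * e)) + 10000000000000000
      ≤ 1000000000 * 5116832630) := by
    split_ifs at hc' ⊢ <;> exact_mod_cast hc'
  have h1 := F_table j hj
  have h2 := kd_approx j hj
  obtain ⟨hk1, hk2⟩ := kappa_bounds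
  have h2' : |(π / 1376 * G1 (j / 688) - 2283134 * dh j / 1000000000000000000) * w| ≤ 4 / 1000000 := by
    rw [abs_mul]
    calc _ ≤ (2 / 1000000 : ℝ) * 2 := mul_le_mul h2 hw (abs_nonneg _) (by norm_num)
    _ = _ := by norm_num
  have h3 : 273 / 2 * (π / 1376 * (w : ℝ)) ^ 2 ≤ 711534290952713 / 1000000000000000000 * ((w : ℝ) * w) := by
    have : (π / 1376) ^ 2 ≤ (2283135 / 1000000000) ^ 2 := by
      have hpos : 0 ≤ π / 1376 := by positivity
      gcongr
    have hw2 : 0 ≤ (w : ℝ) * w := mul_self_nonneg _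
    have h4 : 273 / 2 * (π / 1376) ^ 2 ≤ 711534290952713 / 1000000000000000000 := by
      refine (mul_le_mul_of_nonneg_left this (by norm_num)).trans ?_
      norm_num
    calc 273 / 2 * (π / 1376 * (w : ℝ)) ^ 2 = (273 / 2 * (π / 1376) ^ 2) * ((w : ℝ) * w) := by ring
    _ ≤ _ := mul_le_mul_of_nonneg_right h4 hw2
  have h5 := Cr_approx j
  have h6 := Cr_approx J
  have h7 : |(Sr j - sh j / 1000000) * w| ≤ 2 / 100000 := by
    rw [abs_mul]
    calc _ ≤ (1 / 100000 : ℝ) * 2 := mul_le_mul (Sr_approx j) hw (abs_nonneg _) (by norm_num)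
    _ = _ := by norm_num
  have h8 : |(Sr J - sh J / 1000000) * (2 * w - 4 * e)| ≤ 2 / 100000 := by
    rw [abs_mul]
    calc _ ≤ (1 / 100000 : ℝ) * 2 := mul_le_mul (Sr_approx J) hw' (abs_nonneg _) (by norm_num)
    _ = _ := by norm_num
  have h9 : Mr j * (w : ℝ) ^ 2 ≤
      (if orb j then 237670700378584 * ((w : ℝ) * w) else 0) / 1000000000000000000 := by
    unfold Mr
    have hw2 : 0 ≤ (w : ℝ) * w := mul_self_nonneg _
    split_ifs
    · have : (1800 : ℝ) / 2752 ^ 2 ≤ 237670700378584 / 1000000000000000000 := by norm_num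
      calc (1800 : ℝ) / 2752 ^ 2 * (w : ℝ) ^ 2 = (1800 / 2752 ^ 2) * ((w : ℝ) * w) := by ring
      _ ≤ 237670700378584 / 1000000000000000000 * ((w : ℝ) * w) := mul_le_mul_of_nonneg_right this hw2
      _ = _ := by ring
    · simp
  have hb := beta_approx
  rw [abs_le] at h1 h2' h5 h6 h7 h8
  nlinarith [h1.1, h1.2, h2'.1, h2'.2, h5.1, h5.2, h6.1, h6.2, h7.1, h7.2, h8.1, h8.2, h9, h3, hcr]

lemma convex_interp {A B C b w0 w1 w : ℝ} (hA : 0 ≤ A) (h0 : w0 ≤ w) (h1 : w ≤ w1) (h01 : w0 < w1)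
    (hb0 : A * w0 ^ 2 + B * w0 + C ≤ b) (hb1 : A * w1 ^ 2 + B * w1 + C ≤ b) :
    A * w ^ 2 + B * w + C ≤ b := by
  have e1 : 0 ≤ A * ((w - w0) * (w1 - w)) :=
    mul_nonneg hA (mul_nonneg (by linarith) (by linarith))
  have e2 : 0 ≤ (w1 - w) * (b - (A * w0 ^ 2 + B * w0 + C)) :=
    mul_nonneg (by linarith) (by linarith)
  have e3 : 0 ≤ (w - w0) * (b - (A * w1 ^ 2 + B * w1 + C)) :=
    mul_nonneg (by linarith) (by linarith)
  have e4 : 0 ≤ (w1 - w0) * (b - (A * w ^ 2 + B * w + C)) := by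
    have : (w1 - w0) * (b - (A * w ^ 2 + B * w + C)) =
        (w1 - w) * (b - (A * w0 ^ 2 + B * w0 + C)) + (w - w0) * (b - (A * w1 ^ 2 + B * w1 + C))
          + (w1 - w0) * (A * ((w - w0) * (w1 - w))) := by ring
    rw [this]
    have := mul_nonneg (by linarith : 0 ≤ w1 - w0) e1
    linarith
  by_contra hcon
  push Not at hcon
  have : (w1 - w0) * (b - (A * w ^ 2 + B * w + C)) < 0 :=
    mul_neg_of_pos_of_neg (by linarith) (by linarith)
  linarith

lemma key_seg (j J : ℕ) (hj : j ≤ 688) (e w0 w1 : ℤ) (hc0 : chk j J e w0 = true)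
    (hc1 : chk j J e w1 = true) (hw0 : |(w0 : ℝ)| ≤ 2) (hw0' : |2 * (w0 : ℝ) - 4 * e| ≤ 2)
    (hw1 : |(w1 : ℝ)| ≤ 2) (hw1' : |2 * (w1 : ℝ) - 4 * e| ≤ 2) (h01 : w0 < w1)
    (w : ℝ) (h0 : (w0 : ℝ) ≤ w) (h1 : w ≤ w1) :
    F (j / 688 + w / 2752) + Gc j w - Gc J (2 * w - 4 * e) ≤ beta := by
  have k0 := key_pt j J hj e w0 hc0 hw0 hw0'
  have k1 := key_pt j J hj e w1 hc1 hw1 hw1'
  have hT := F_taylor (j / 688) (w / 2752)
  have e1 : 2 * π * (w / 2752) = π / 1376 * w := by ring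
  rw [e1] at hT
  have hA : 0 ≤ 273 / 2 * (π / 1376) ^ 2 + Mr j := by
    have := Mr_nonneg j; positivity
  have := convex_interp (A := 273 / 2 * (π / 1376) ^ 2 + Mr j)
    (B := G1 (j / 688) * (π / 1376) + Sr j - Sr J * 2)
    (C := F (j / 688) + Cr j - Cr J + Sr J * (4 * e)) (b := beta) hA h0 h1
    (by exact_mod_cast h01) (by nlinarith) (by nlinarith)
  have hM := Mr_nonneg J
  have hM2 : 0 ≤ Mr J * (2 * w - 4 * e) ^ 2 := by positivity
  unfold Gc
  nlinarith

lemma orb_double : ∀ a < 43, orb (16 * a) = true → orb (16 * (2 * a % 43)) = true := by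
  decide +kernel

lemma key_exact (j : ℕ) (h : orb j = true) (w : ℝ) :
    F (j / 688 + w / 2752) + Gc j w - Gc (2 * j % 688) (2 * w) ≤ beta := by
  have h1 := orb_mul h
  have hlt := orb_lt h
  set a := j / 16 with ha
  have h16 : orb (16 * a) = true := by rw [← h1]; exact h
  have hJ : 2 * j % 688 = 16 * (2 * a % 43) := by omega
  have hJo : orb (16 * (2 * a % 43)) = true := orb_double a hlt h16
  have hT := F_taylor (a / 43) (w / 2752)
  have ej : (j : ℝ) / 688 = a / 43 := by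
    rw [h1]; push_cast; ring
  have hC : Cr j = ph a := by unfold Cr; rw [if_pos h]
  have hS : Sr j = sl a / 2752 := by unfold Sr; rw [if_pos h]
  have hM : Mr j = 1800 / 2752 ^ 2 := by unfold Mr; rw [if_pos h]
  have hC' : Cr (2 * j % 688) = ph (2 * a) := by
    rw [hJ]; unfold Cr; rw [if_pos hJo, Nat.mul_div_cancel_left _ (by norm_num)]
    exact ph_congr (Nat.mod_mod _ _)
  have hS' : Sr (2 * j % 688) = sl (2 * a) / 2752 := by
    rw [hJ]; unfold Sr; rw [if_pos hJo, Nat.mul_div_cancel_left _ (by norm_num),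
      sl_congr (Nat.mod_mod _ _)]
  have hM' : Mr (2 * j % 688) = 1800 / 2752 ^ 2 := by rw [hJ]; unfold Mr; rw [if_pos hJo]
  have hp := ph_two a
  have hs := sl_two a
  rw [bt_orb a hlt h16] at hp
  have hpi : 273 / 2 * (2 * π) ^ 2 ≤ 5400 := by
    have h2 := Real.pi_lt_d20
    have h3 := Real.pi_pos
    nlinarith
  rw [ej]
  unfold Gc
  rw [hC, hS, hM, hC', hS', hM']
  have e2 : 0 ≤ (5400 - 273 / 2 * (2 * π) ^ 2) * (w / 2752) ^ 2 :=
    mul_nonneg (by linarith) (sq_nonneg _)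
  have e3 : (2 * π * G1 (a / 43) + sl a - 2 * sl (2 * a)) * (w / 2752) = 0 := by rw [hs, zero_mul]
  nlinarith

/-! ### the periodic function -/

/-- index of the nearest grid point -/
def nn (x : ℝ) : ℤ := ⌊688 * x + 1 / 2⌋
/-- reduced index -/
def jj (x : ℝ) : ℕ := (nn x % 688).toNat
/-- coordinate in the cell, in quarter cells -/
def ww (x : ℝ) : ℝ := 2752 * x - 4 * nn x
/-- the sub-action -/
def g (x : ℝ) : ℝ := Gc (jj x) (ww x)

lemma ww_bounds (x : ℝ) : -2 ≤ ww x ∧ ww x < 2 := by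
  unfold ww nn
  have h1 := Int.floor_le (688 * x + 1 / 2)
  have h2 := Int.lt_floor_add_one (688 * x + 1 / 2)
  constructor <;> linarith

lemma jj_lt (x : ℝ) : jj x < 688 := by
  unfold jj
  have h1 := Int.emod_nonneg (nn x) (show (688 : ℤ) ≠ 0 by norm_num)
  have h2 := Int.emod_lt_of_pos (nn x) (show (0 : ℤ) < 688 by norm_num)
  omega

lemma F_add_int (x : ℝ) (k : ℤ) : F (x + k) = F x := by
  obtain ⟨n, rfl | rfl⟩ := k.eq_nat_or_neg
  · exact_mod_cast F_add_nat x n
  · have := F_add_nat (x + ((-(n : ℤ) : ℤ) : ℝ)) n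
    rw [← this]
    congr 1
    push_cast
    ring

lemma F_decomp (x : ℝ) : F x = F (jj x / 688 + ww x / 2752) := by
  have h1 := Int.emod_nonneg (nn x) (show (688 : ℤ) ≠ 0 by norm_num)
  have h2 := Int.emod_add_mul_ediv (nn x) 688
  have h3 : ((jj x : ℕ) : ℤ) = nn x % 688 := by unfold jj; exact Int.toNat_of_nonneg h1
  have h4 : (nn x : ℝ) = (jj x : ℝ) + 688 * ((nn x / 688 : ℤ) : ℝ) := by
    have : nn x = (jj x : ℤ) + 688 * (nn x / 688) := by rw [h3]; exact h2.symm
    exact_mod_cast this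
  have e : x = jj x / 688 + ww x / 2752 + ((nn x / 688 : ℤ) : ℝ) := by
    unfold ww
    rw [h4]
    ring
  conv_lhs => rw [e]
  rw [F_add_int]

theorem main_ineq (x : ℝ) : F x + g x - g (2 * x) ≤ beta := by
  have hj := jj_lt x
  obtain ⟨hw1, hw2⟩ := ww_bounds x
  have hall := chkAll_all (jj x) hj
  unfold chkAll at hall
  simp only [Bool.and_eq_true, Bool.or_eq_true] at hall
  obtain ⟨⟨⟨⟨c1, c2⟩, c3⟩, c4⟩, c5⟩ := hall
  have h3 : ((jj x : ℕ) : ℤ) = nn x % 688 := by
    unfold jj; exact Int.toNat_of_nonneg (Int.emod_nonneg _ (by norm_num))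
  have hx : 688 * (2 * x) + 1 / 2 = (2 * nn x : ℤ) + (ww x / 2 + 1 / 2) := by
    unfold ww; push_cast; ring
  rw [F_decomp x]
  have hg : g x = Gc (jj x) (ww x) := rfl
  rw [hg]
  rcases lt_or_ge (ww x) (-1) with hlt | hge
  · -- e = -1
    have hn : nn (2 * x) = 2 * nn x - 1 := by
      rw [nn, hx, Int.floor_intCast_add]
      have : ⌊ww x / 2 + 1 / 2⌋ = -1 := by
        rw [Int.floor_eq_iff]; push_cast; constructor <;> linarith
      rw [this]; ring
    have hw : ww (2 * x) = 2 * ww x - 4 * ((-1 : ℤ) : ℝ) := by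
      unfold ww; rw [hn]; push_cast; ring
    have hJ : jj (2 * x) = (2 * jj x + 687) % 688 := by
      unfold jj at h3 ⊢; rw [hn]; omega
    have hg2 : g (2 * x) = Gc ((2 * jj x + 687) % 688) (2 * ww x - 4 * ((-1 : ℤ) : ℝ)) := by
      unfold g; rw [hJ, hw]
    rw [hg2]
    exact key_seg (jj x) _ hj.le (-1) (-2) (-1) c4 c3 (by norm_num) (by norm_num) (by norm_num)
      (by norm_num) (by norm_num) _ (by push_cast; linarith) (by push_cast; linarith)
  · rcases lt_or_ge (ww x) 1 with hlt1 | hge1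
    · have hn : nn (2 * x) = 2 * nn x := by
        rw [nn, hx, Int.floor_intCast_add]
        have : ⌊ww x / 2 + 1 / 2⌋ = 0 := by
          rw [Int.floor_eq_iff]; push_cast; constructor <;> linarith
        rw [this]; ring
      have hw : ww (2 * x) = 2 * ww x := by
        unfold ww; rw [hn]; push_cast; ring
      have hJ : jj (2 * x) = 2 * jj x % 688 := by
        unfold jj at h3 ⊢; rw [hn]; omega
      have hg2 : g (2 * x) = Gc (2 * jj x % 688) (2 * ww x) := by
        unfold g; rw [hJ, hw]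
      rw [hg2]
      rcases c5 with ho | ⟨d1, d2⟩
      · exact key_exact _ ho _
      · have := key_seg (jj x) (2 * jj x % 688) hj.le 0 (-1) 1 d2 d1 (by norm_num) (by norm_num)
          (by norm_num) (by norm_num) (by norm_num) (ww x) (by push_cast; linarith)
          (by push_cast; linarith)
        simpa using this
    · have hn : nn (2 * x) = 2 * nn x + 1 := by
        rw [nn, hx, Int.floor_intCast_add]
        have : ⌊ww x / 2 + 1 / 2⌋ = 1 := by
          rw [Int.floor_eq_iff]; push_cast; constructor <;> linarith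
        rw [this]
      have hw : ww (2 * x) = 2 * ww x - 4 * ((1 : ℤ) : ℝ) := by
        unfold ww; rw [hn]; push_cast; ring
      have hJ : jj (2 * x) = (2 * jj x + 1) % 688 := by
        unfold jj at h3 ⊢; rw [hn]; omega
      have hg2 : g (2 * x) = Gc ((2 * jj x + 1) % 688) (2 * ww x - 4 * ((1 : ℤ) : ℝ)) := by
        unfold g; rw [hJ, hw]
      rw [hg2]
      exact key_seg (jj x) _ hj.le 1 1 2 c1 c2 (by norm_num) (by norm_num) (by norm_num)
        (by norm_num) (by norm_num) _ (by push_cast; linarith) (by push_cast; linarith)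

end

end Pool.Agent.Q164.Flower
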