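import Mathlib
import Pool.Agent.Q164.Flower3

/-!
# Measures and connected components on the circle (MP_38b438)
-/

open MeasureTheory Set Topology Filter

namespace Pool.Agent.Q164.Flower

noncomputable section

/-- the circle `ℝ/ℤ` -/
abbrev Crc := UnitAddCircle

lemma g_period : Function.Periodic g 1 := by
  intro x
  have h1 : nn (x + 1) = nn x + 688 := by
    unfold nn
    rw [show 688 * (x + 1) + 1 / 2 = 688 * x + 1 / 2 + ((688 : ℤ) : ℝ) by push_cast; ring,
      Int.floor_add_intCast]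
  have h2 : jj (x + 1) = jj x := by
    unfold jj; rw [h1]; omega
  have h3 : ww (x + 1) = ww x := by
    unfold ww; rw [h1]; push_cast; ring
  unfold g
  rw [h2, h3]

lemma F_periodic : Function.Periodic F 1 := F_period

/-- lift of a 1-periodic function to the circle -/
def lf (f : ℝ → ℝ) (t : Crc) : ℝ := f (AddCircle.equivIco 1 0 t)

lemma lf_coe {f : ℝ → ℝ} (hf : Function.Periodic f 1) (x : ℝ) : lf f (x : Crc) = f x := by
  unfold lf
  have h1 : (((AddCircle.equivIco 1 0 (x : Crc) : ℝ)) : Crc) = (x : Crc) :=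
    (AddCircle.equivIco 1 0).symm_apply_apply (x : Crc)
  have h2 : ((AddCircle.equivIco 1 0 (x : Crc) : ℝ) - x : ℝ) ∈ AddSubgroup.zmultiples (1 : ℝ) := by
    have := (QuotientAddGroup.eq (s := AddSubgroup.zmultiples (1 : ℝ))).1 h1
    have h3 := AddSubgroup.neg_mem _ this
    convert h3 using 1
    ring
  obtain ⟨k, hk⟩ := AddSubgroup.mem_zmultiples_iff.1 h2
  have h4 : (AddCircle.equivIco 1 0 (x : Crc) : ℝ) = x + k * 1 := by
    rw [zsmul_eq_mul] at hk
    linarith
  rw [h4]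
  exact hf.int_mul k x

lemma measurable_lf {f : ℝ → ℝ} (hf : Measurable f) : Measurable (lf f) := by
  have h1 : Measurable (AddCircle.measurableEquivIco (1 : ℝ) 0) :=
    (AddCircle.measurableEquivIco (1 : ℝ) 0).measurable
  exact hf.comp (measurable_subtype_coe.comp h1)

lemma measurable_g : Measurable g := by
  have h1 : Measurable nn := Int.measurable_floor.comp (by fun_prop)
  have h2 : Measurable jj := (measurable_of_countable (fun n : ℤ => (n % 688).toNat)).comp h1
  have h3 : Measurable ww := by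
    unfold ww
    exact (measurable_const.mul measurable_id).sub
      (measurable_const.mul ((measurable_of_countable (fun n : ℤ => (n : ℝ))).comp h1))
  have hC : Measurable fun x => Cr (jj x) := (measurable_of_countable Cr).comp h2
  have hS : Measurable fun x => Sr (jj x) := (measurable_of_countable Sr).comp h2
  have hM : Measurable fun x => Mr (jj x) := (measurable_of_countable Mr).comp h2
  unfold g Gc
  exact (hC.add (hS.mul h3)).add (hM.mul (h3.pow_const 2))

lemma measurable_F : Measurable F := by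
  unfold F
  fun_prop

lemma g_bounded : ∃ B : ℝ, ∀ x, |g x| ≤ B := by
  refine ⟨∑ j ∈ Finset.range 688, (|Cr j| + |Sr j| * 2 + |Mr j| * 4), fun x => ?_⟩
  have hj := jj_lt x
  obtain ⟨h1, h2⟩ := ww_bounds x
  have hw : |ww x| ≤ 2 := abs_le.2 ⟨h1, h2.le⟩
  have hw2 : |ww x ^ 2| ≤ 4 := by
    rw [abs_pow]; nlinarith [abs_nonneg (ww x)]
  have h3 : |g x| ≤ |Cr (jj x)| + |Sr (jj x)| * 2 + |Mr (jj x)| * 4 := by
    unfold g Gc
    refine (abs_add_le _ _).trans (add_le_add ((abs_add_le _ _).trans (add_le_add le_rfl ?_)) ?_)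
    · rw [abs_mul]; exact mul_le_mul_of_nonneg_left hw (abs_nonneg _)
    · rw [abs_mul]; exact mul_le_mul_of_nonneg_left hw2 (abs_nonneg _)
  refine h3.trans ?_
  exact Finset.single_le_sum (f := fun j => |Cr j| + |Sr j| * 2 + |Mr j| * 4)
    (fun j _ => by positivity) (Finset.mem_range.2 hj)

lemma F_bounded (x : ℝ) : |F x| ≤ 25 := by
  unfold F
  have h1 := abs_le.1 (Real.abs_cos_le_one (2 * Real.pi * x))
  have h3 := abs_le.1 (Real.abs_cos_le_one (2 * Real.pi * (3 * x)))
  have h5 := abs_le.1 (Real.abs_cos_le_one (2 * Real.pi * (5 * x)))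
  rw [abs_le]
  constructor <;> linarith [h1.1, h1.2, h3.1, h3.2, h5.1, h5.2]

/-- the upper bound for every invariant probability measure -/
theorem integral_le (ν : Measure Crc) [IsProbabilityMeasure ν]
    (hν : ν.map (fun x => x + x) = ν) : ∫ t, lf F t ∂ν ≤ beta := by
  have hE : Measurable (fun x : Crc => x + x) := by fun_prop
  obtain ⟨B, hB⟩ := g_bounded
  have hgi : Integrable (lf g) ν :=
    Integrable.of_bound (measurable_lf measurable_g).aestronglyMeasurable B
      (Eventually.of_forall fun t => by rw [Real.norm_eq_abs]; exact hB _)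
  have hgi2 : Integrable (fun t : Crc => lf g (t + t)) ν :=
    Integrable.of_bound ((measurable_lf measurable_g).comp hE).aestronglyMeasurable B
      (Eventually.of_forall fun t => by rw [Real.norm_eq_abs]; exact hB _)
  have hfi : Integrable (lf F) ν :=
    Integrable.of_bound (measurable_lf measurable_F).aestronglyMeasurable 25
      (Eventually.of_forall fun t => by rw [Real.norm_eq_abs]; exact F_bounded _)
  have h1 : ∫ t, lf g (t + t) ∂ν = ∫ t, lf g t ∂ν := by
    conv_rhs => rw [← hν]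
    rw [integral_map hE.aemeasurable (measurable_lf measurable_g).aestronglyMeasurable]
  have h2 : ∫ t, (lf F t + lf g t - lf g (t + t)) ∂ν ≤ ∫ _t : Crc, beta ∂ν := by
    refine integral_mono ((hfi.add hgi).sub hgi2) (integrable_const _) fun t => ?_
    obtain ⟨x, rfl⟩ := QuotientAddGroup.mk_surjective t
    have e : ((x : Crc) + (x : Crc)) = ((2 * x : ℝ) : Crc) := by
      rw [two_mul]; rfl
    change lf F (x : Crc) + lf g (x : Crc) - lf g ((x : Crc) + (x : Crc)) ≤ beta
    rw [e, lf_coe F_periodic, lf_coe g_period, lf_coe g_period]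
    exact main_ineq x
  have h3 : ∫ t, (lf F t + lf g t - lf g (t + t)) ∂ν
      = ∫ t, lf F t ∂ν + ∫ t, lf g t ∂ν - ∫ t, lf g (t + t) ∂ν := by
    have e1 : ∫ t, ((lf F t + lf g t) - lf g (t + t)) ∂ν
        = ∫ t, (lf F t + lf g t) ∂ν - ∫ t, lf g (t + t) ∂ν := integral_sub (hfi.add hgi) hgi2
    rw [e1, integral_add hfi hgi]
  rw [h3, h1] at h2
  simpa using h2

/-! ### the periodic orbit -/

/-- the points of the orbit of `3/43` -/
def p (i : ℕ) : Crc := (((2 ^ i * 3 : ℕ) / 43 : ℝ) : Crc)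

lemma p_succ (i : ℕ) : p i + p i = p (i + 1) := by
  unfold p
  rw [← AddCircle.coe_add]
  congr 1
  push_cast
  ring

lemma p_14 : p 14 = p 0 := by
  unfold p
  have : ((2 ^ 14 * 3 : ℕ) / 43 : ℝ) = ((2 ^ 0 * 3 : ℕ) / 43 : ℝ) + (1143 : ℤ) • (1 : ℝ) := by
    push_cast; norm_num
  rw [this, AddCircle.coe_add, AddCircle.coe_zsmul, AddCircle.coe_period, smul_zero, add_zero]

/-- the orbit measure -/
def mu : Measure Crc := (14 : ENNReal)⁻¹ • ∑ i ∈ Finset.range 14, Measure.dirac (p i)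

lemma mu_apply (s : Set Crc) (hs : MeasurableSet s) :
    mu s = (14 : ENNReal)⁻¹ * ∑ i ∈ Finset.range 14, s.indicator 1 (p i) := by
  unfold mu
  rw [Measure.smul_apply, Measure.finsetSum_apply, smul_eq_mul]
  congr 1
  exact Finset.sum_congr rfl fun i _ => Measure.dirac_apply' _ hs

instance : IsProbabilityMeasure mu := by
  constructor
  rw [mu_apply _ MeasurableSet.univ]
  simp
  exact ENNReal.inv_mul_cancel (by norm_num) (by norm_num)

lemma mu_inv : mu.map (fun x => x + x) = mu := by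
  have hE : Measurable (fun x : Crc => x + x) := by fun_prop
  ext s hs
  rw [Measure.map_apply hE hs, mu_apply _ (hE hs), mu_apply _ hs]
  congr 1
  have : ∀ i, ((fun x : Crc => x + x) ⁻¹' s).indicator (1 : Crc → ENNReal) (p i)
      = s.indicator 1 (p (i + 1)) := by
    intro i
    rw [← p_succ]
    rfl
  simp only [this]
  rw [Finset.sum_range_succ, Finset.sum_range_succ' (fun i => s.indicator (1 : Crc → ENNReal) (p i)),
    p_14]

lemma integral_mu : ∫ t, lf F t ∂mu = beta := by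
  unfold mu
  rw [integral_smul_measure, integral_finsetSum_measure]
  · simp only [integral_dirac]
    unfold beta bt
    rw [ENNReal.toReal_inv]
    simp only [p, lf_coe F_periodic, u, smul_eq_mul]
    norm_num
  · intro i _
    exact integrable_dirac (by simp)

lemma p_mem_support (i : ℕ) (hi : i < 14) : p i ∈ mu.support := by
  rw [Measure.mem_support_iff_forall]
  intro U hU
  obtain ⟨V, hVU, hVo, hpV⟩ := mem_nhds_iff.1 hU
  refine lt_of_lt_of_le ?_ (measure_mono hVU)
  rw [mu_apply _ hVo.measurableSet]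
  refine ENNReal.mul_pos (by simp) (ne_of_gt ?_)
  refine lt_of_lt_of_le ?_ (Finset.single_le_sum (f := fun i => V.indicator (1 : Crc → ENNReal) (p i))
    (fun _ _ => zero_le) (Finset.mem_range.2 hi))
  simp [hpV]

/-! ### connected subsets of the circle -/

lemma isOpen_coe_Ioo (a b : ℝ) : IsOpen ((fun t : ℝ => (t : Crc)) '' Ioo a b) :=
  QuotientAddGroup.isOpenMap_coe _ isOpen_Ioo

lemma coe_eq_coe {s t : ℝ} (h : (s : Crc) = (t : Crc)) : ∃ k : ℤ, t = s + k := by
  have := (QuotientAddGroup.eq (s := AddSubgroup.zmultiples (1 : ℝ))).1 h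
  obtain ⟨k, hk⟩ := AddSubgroup.mem_zmultiples_iff.1 this
  refine ⟨k, ?_⟩
  rw [zsmul_eq_mul] at hk
  linarith

lemma arc_subset {C : Set Crc} (hC : IsPreconnected C) {a b : ℝ}
    (ha : (a : Crc) ∈ C) (hb : (b : Crc) ∈ C) (_hab : a < b) (_hba : b < a + 1) :
    (∀ t ∈ Ioo a b, (t : Crc) ∈ C) ∨ (∀ t ∈ Ioo b (a + 1), (t : Crc) ∈ C) := by
  by_contra hcon
  push Not at hcon
  obtain ⟨⟨t1, ht1, h1⟩, t2, ht2, h2⟩ := hcon
  set U1 : Set Crc := (fun t : ℝ => (t : Crc)) '' Ioo t1 t2 with hU1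
  set U2 : Set Crc := (fun t : ℝ => (t : Crc)) '' Ioo t2 (t1 + 1) with hU2
  have ha1 : ((a + 1 : ℝ) : Crc) = (a : Crc) := by
    rw [AddCircle.coe_add, AddCircle.coe_period, add_zero]
  have hcover : C ⊆ U1 ∪ U2 := by
    intro c hc
    obtain ⟨s, hs1, hs2, rfl⟩ : ∃ s : ℝ, t1 ≤ s ∧ s < t1 + 1 ∧ (s : Crc) = c := by
      have hm := (AddCircle.equivIco 1 t1 c).2
      exact ⟨_, hm.1, hm.2, (AddCircle.equivIco 1 t1).symm_apply_apply c⟩
    rcases hs1.eq_or_lt with h | h
    · exact absurd (h ▸ hc) h1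
    · rcases lt_trichotomy s t2 with h' | h' | h'
      · exact Or.inl ⟨s, ⟨h, h'⟩, rfl⟩
      · exact absurd (h' ▸ hc) h2
      · exact Or.inr ⟨s, ⟨h', hs2⟩, rfl⟩
  obtain ⟨c, -, ⟨s1, hs1, e1⟩, s2, hs2, e2⟩ := hC U1 U2 (isOpen_coe_Ioo _ _) (isOpen_coe_Ioo _ _)
    hcover ⟨_, hb, b, ⟨ht1.2, ht2.1⟩, rfl⟩
    ⟨_, ha, a + 1, ⟨ht2.2, by linarith [ht1.1]⟩, ha1⟩
  obtain ⟨k, hk⟩ := coe_eq_coe (e1.trans e2.symm)
  have hk1 : (0 : ℝ) < k := by linarith [hs1.2, hs2.1]
  have hk2 : (k : ℝ) < 1 := by linarith [hs1.1, hs2.2]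
  have hk1' : (0 : ℤ) < k := by exact_mod_cast hk1
  have hk2' : k < (1 : ℤ) := by exact_mod_cast hk2
  omega

/-- indices (over 86) of seven points of the orbit -/
def yy : Fin 7 → ℕ := ![6, 20, 24, 38, 62, 66, 74]
/-- separating points -/
def zz : Fin 7 → ℕ := ![19, 23, 31, 49, 63, 67, 81]
/-- exponents -/
def ii : Fin 7 → ℕ := ![0, 5, 2, 10, 9, 12, 8]
/-- exponents for the separating points -/
def kk : Fin 7 → ℕ := ![9, 12, 8, 0, 5, 2, 10]

lemma p_eq {i n m : ℕ} (h : 2 ^ i * 3 = n + 43 * m) : p i = ((n / 43 : ℝ) : Crc) := by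
  unfold p
  have : ((2 ^ i * 3 : ℕ) / 43 : ℝ) = (n / 43 : ℝ) + ((m : ℕ) : ℤ) • (1 : ℝ) := by
    rw [h]; push_cast; simp; ring
  rw [this, AddCircle.coe_add, AddCircle.coe_zsmul, AddCircle.coe_period, smul_zero, add_zero]

lemma yy_p (k : Fin 7) : (((yy k : ℕ) / 86 : ℝ) : Crc) = p (ii k) := by
  have h : 2 ^ ii k * 3 = yy k / 2 + 43 * (2 ^ ii k * 3 / 43) ∧ 2 * (yy k / 2) = yy k := by
    revert k; decide
  rw [p_eq h.1]
  congr 1
  have : (yy k : ℝ) = 2 * ((yy k / 2 : ℕ) : ℝ) := by exact_mod_cast h.2.symm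
  rw [this]; ring

lemma zz_p (k : Fin 7) : (((zz k : ℕ) / 86 : ℝ) : Crc) = p (kk k) + ((1 / 2 : ℝ) : Crc) := by
  have h : ∃ n, n < 43 ∧ 2 ^ kk k * 3 = n + 43 * (2 ^ kk k * 3 / 43) ∧
      (zz k = 2 * n + 43 ∨ zz k + 86 = 2 * n + 43) := by
    revert k; decide
  obtain ⟨n, -, h1, h2⟩ := h
  rw [p_eq h1, ← AddCircle.coe_add]
  rcases h2 with h2 | h2
  · congr 1
    have : (zz k : ℝ) = 2 * n + 43 := by exact_mod_cast h2
    rw [this]; ring
  · have : (n / 43 + 1 / 2 : ℝ) = (zz k / 86 : ℝ) + 1 := by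
      have : (zz k : ℝ) + 86 = 2 * n + 43 := by exact_mod_cast h2
      linarith
    rw [this, AddCircle.coe_add, AddCircle.coe_period, add_zero]

lemma order_facts : ∀ i j : Fin 7, i < j → yy i < yy j ∧ yy j < yy i + 86 ∧ yy i < zz i ∧
    zz i < yy j ∧ yy j < zz j ∧ zz j < yy i + 86 := by decide

lemma kk_lt : ∀ k, kk k < 14 := by decide
lemma ii_lt : ∀ k, ii k < 14 := by decide

theorem components_ne {X : Set Crc} (hX : mu.support ⊆ X)
    (hfr : X ∩ ((fun x => x + ((1 / 2 : ℝ) : Crc)) '' X) = frontier X) {i j : Fin 7} (hij : i < j) :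
    connectedComponentIn X (p (ii i)) ≠ connectedComponentIn X (p (ii j)) := by
  intro heq
  have hz : ∀ k, (((zz k : ℕ) / 86 : ℝ) : Crc) ∉ interior X := by
    intro k hk
    have h1 : (((zz k : ℕ) / 86 : ℝ) : Crc) ∈ X ∩ ((fun x => x + ((1 / 2 : ℝ) : Crc)) '' X) := by
      refine ⟨interior_subset hk, p (kk k), hX (p_mem_support _ (kk_lt k)), ?_⟩
      rw [zz_p]
    rw [hfr] at h1
    exact h1.2 hk
  set C := connectedComponentIn X (p (ii i)) with hC
  have hCpre : IsPreconnected C := isPreconnected_connectedComponentIn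
  have hCX : C ⊆ X := connectedComponentIn_subset _ _
  have hi : (((yy i : ℕ) / 86 : ℝ) : Crc) ∈ C := by
    rw [yy_p]; exact mem_connectedComponentIn (hX (p_mem_support _ (ii_lt i)))
  have hj : (((yy j : ℕ) / 86 : ℝ) : Crc) ∈ C := by
    rw [yy_p, heq]; exact mem_connectedComponentIn (hX (p_mem_support _ (ii_lt j)))
  obtain ⟨o1, o2, o3, o4, o5, o6⟩ := order_facts i j hij
  have c1 : (yy i : ℝ) < yy j := by exact_mod_cast o1
  have c2 : (yy j : ℝ) < yy i + 86 := by exact_mod_cast o2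
  have c3 : (yy i : ℝ) < zz i := by exact_mod_cast o3
  have c4 : (zz i : ℝ) < yy j := by exact_mod_cast o4
  have c5 : (yy j : ℝ) < zz j := by exact_mod_cast o5
  have c6 : (zz j : ℝ) < yy i + 86 := by exact_mod_cast o6
  rcases arc_subset hCpre hi hj (by linarith) (by linarith) with h | h
  · refine hz i (mem_interior.2 ⟨_, ?_, isOpen_coe_Ioo ((yy i : ℝ) / 86) ((yy j : ℝ) / 86),
      (zz i : ℝ) / 86, ⟨by linarith, by linarith⟩, rfl⟩)
    rintro _ ⟨t, ht, rfl⟩
    exact hCX (h t ht)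
  · refine hz j (mem_interior.2 ⟨_, ?_, isOpen_coe_Ioo ((yy j : ℝ) / 86) ((yy i : ℝ) / 86 + 1),
      (zz j : ℝ) / 86, ⟨by linarith, by linarith⟩, rfl⟩)
    rintro _ ⟨t, ht, rfl⟩
    exact hCX (h t ht)

theorem seven_components {X : Set Crc} (hX : mu.support ⊆ X)
    (hfr : X ∩ ((fun x => x + ((1 / 2 : ℝ) : Crc)) '' X) = frontier X) :
    7 ≤ {C : Set Crc | ∃ x ∈ X, C = connectedComponentIn X x}.encard := by
  have hinj : Function.Injective (fun k : Fin 7 => connectedComponentIn X (p (ii k))) := by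
    intro i j hij
    rcases lt_trichotomy i j with h | h | h
    · exact absurd hij (components_ne hX hfr h)
    · exact h
    · exact absurd hij.symm (components_ne hX hfr h)
  have h1 : (Set.range (fun k : Fin 7 => connectedComponentIn X (p (ii k)))).encard = 7 := by
    rw [← Set.image_univ, hinj.encard_image, Set.encard_univ]
    simp
  rw [← h1]
  apply Set.encard_le_encard
  rintro _ ⟨k, rfl⟩
  exact ⟨_, hX (p_mem_support _ (ii_lt k)), rfl⟩

end

end Pool.Agent.Q164.Flower
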