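import Mathlib.Analysis.Complex.Polynomial.Basic
import Mathlib.Algebra.Polynomial.Derivative
import Mathlib.Algebra.Polynomial.AlgebraMap
import Mathlib.Algebra.Polynomial.Splits
import Mathlib.Tactic

/-!
Elementary facts on real polynomials with only real zeros.
-/

namespace Pool.Agent.Q164

open Polynomial

/-- A real polynomial is hyperbolic if it is zero or all its complex zeros are real. -/
def Hyperbolic (p : ℝ[X]) : Prop := p = 0 ∨ ∀ z : ℂ, aeval z p = 0 → z.im = 0

theorem hyperbolic_zero : Hyperbolic 0 := Or.inl rfl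

theorem im_sum_inv (s : Multiset ℂ) (hs : ∀ y ∈ s, y.im = 0) (w : ℂ) (hw : w.im ≠ 0) :
    (s.map fun y => 1 / (w - y)).sum.im * w.im ≤ 0 ∧
      (s ≠ 0 → (s.map fun y => 1 / (w - y)).sum.im * w.im < 0) := by
  induction s using Multiset.induction_on with
  | empty => simp
  | cons a s ih =>
    have ih' := ih (fun y hy => hs y (Multiset.mem_cons_of_mem hy))
    have ha : a.im = 0 := hs a (Multiset.mem_cons_self a s)
    have hne : w - a ≠ 0 := by
      intro h
      have := congrArg Complex.im h
      simp [ha] at this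
      exact hw this
    have hpos : 0 < Complex.normSq (w - a) := Complex.normSq_pos.2 hne
    have h1 : (1 / (w - a)).im * w.im < 0 := by
      rw [one_div, Complex.inv_im, Complex.sub_im, ha, sub_zero, div_mul_eq_mul_div]
      apply div_neg_of_neg_of_pos _ hpos
      have : 0 < w.im * w.im := mul_self_pos.2 hw
      linarith
    rw [Multiset.map_cons, Multiset.sum_cons, Complex.add_im, add_mul]
    constructor
    · linarith [ih'.1]
    · intro _
      linarith [ih'.1]

theorem aeval_eq_eval_map (p : ℝ[X]) (z : ℂ) :
    aeval z p = (p.map (algebraMap ℝ ℂ)).eval z := by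
  rw [aeval_def, eval_map]

theorem aeval_derivative_eq (p : ℝ[X]) (z : ℂ) :
    aeval z (derivative p) = (derivative (p.map (algebraMap ℝ ℂ))).eval z := by
  rw [aeval_eq_eval_map, derivative_map]

theorem roots_real {p : ℝ[X]} (h0 : p ≠ 0) (hp : Hyperbolic p) :
    ∀ y ∈ (p.map (algebraMap ℝ ℂ)).roots, y.im = 0 := by
  intro y hy
  have hp' := hp.resolve_left h0
  apply hp' y
  rw [aeval_eq_eval_map]
  have := (mem_roots (Polynomial.map_ne_zero h0)).1 hy
  simpa using this

/-- The logarithmic derivative of a hyperbolic polynomial maps the upper half plane into the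
closed lower half plane, and conversely. -/
theorem logDeriv_im {p : ℝ[X]} (h0 : p ≠ 0) (hp : Hyperbolic p) {z : ℂ} (hz : z.im ≠ 0) :
    (aeval z (derivative p) / aeval z p).im * z.im ≤ 0 ∧
      (p.natDegree ≠ 0 → (aeval z (derivative p) / aeval z p).im * z.im < 0) := by
  have hpz : aeval z p ≠ 0 := fun h => hz ((hp.resolve_left h0) z h)
  rw [aeval_eq_eval_map] at hpz
  have hs := (IsAlgClosed.splits (p.map (algebraMap ℝ ℂ))).eval_derivative_div_eval_of_ne_zero hpz
  have h := im_sum_inv _ (roots_real h0 hp) z hz
  rw [← hs, ← aeval_derivative_eq, ← aeval_eq_eval_map] at h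
  refine ⟨h.1, fun hd => h.2 ?_⟩
  intro hr
  apply hd
  have := (IsAlgClosed.splits (p.map (algebraMap ℝ ℂ))).natDegree_eq_card_roots
  rw [hr] at this
  simpa using this

/-- Rolle / Gauss-Lucas. -/
theorem Hyperbolic.deriv {p : ℝ[X]} (hp : Hyperbolic p) : Hyperbolic (derivative p) := by
  by_cases hd : derivative p = 0
  · exact Or.inl hd
  right
  intro z hz
  by_contra him
  have h0 : p ≠ 0 := by
    rintro rfl
    simp at hd
  have := (logDeriv_im h0 hp him).2 (derivative_ne_zero.1 hd)
  rw [hz] at this
  simp at this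

theorem Hyperbolic.iterate_deriv {p : ℝ[X]} (hp : Hyperbolic p) (n : ℕ) :
    Hyperbolic (derivative^[n] p) := by
  induction n with
  | zero => exact hp
  | succ n ih =>
    rw [Function.iterate_succ_apply']
    exact ih.deriv

theorem Hyperbolic.mul {p q : ℝ[X]} (hp : Hyperbolic p) (hq : Hyperbolic q) :
    Hyperbolic (p * q) := by
  rcases hp with rfl | hp
  · left; simp
  rcases hq with rfl | hq
  · left; simp
  right
  intro z hz
  rw [map_mul, mul_eq_zero] at hz
  rcases hz with h | h
  · exact hp z h
  · exact hq z h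

theorem hyperbolic_C (a : ℝ) : Hyperbolic (C a) := by
  by_cases ha : a = 0
  · left; simp [ha]
  · right
    intro z hz
    simp [ha] at hz

theorem hyperbolic_X : Hyperbolic X := by
  right
  intro z hz
  simp at hz
  simp [hz]

theorem hyperbolic_X_add_C (a : ℝ) : Hyperbolic (X + C a) := by
  right
  intro z hz
  simp at hz
  have := congrArg Complex.im hz
  simpa using this

theorem Hyperbolic.pow {p : ℝ[X]} (hp : Hyperbolic p) (n : ℕ) : Hyperbolic (p ^ n) := by
  induction n with
  | zero =>
    rw [pow_zero, ← C_1]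
    exact hyperbolic_C 1
  | succ n ih =>
    rw [pow_succ]
    exact ih.mul hp

/-- `p ↦ x p - p'` preserves hyperbolicity. -/
theorem Hyperbolic.X_mul_sub {p : ℝ[X]} (hp : Hyperbolic p) :
    Hyperbolic (X * p - derivative p) := by
  by_cases h0 : p = 0
  · left; simp [h0]
  right
  intro z hz
  by_contra him
  have hpz : aeval z p ≠ 0 := fun h => him ((hp.resolve_left h0) z h)
  have h := (logDeriv_im h0 hp him).1
  have e : aeval z (derivative p) / aeval z p = z := by
    rw [map_sub, map_mul, aeval_X, sub_eq_zero] at hz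
    rw [← hz]
    field_simp
  rw [e] at h
  have : 0 < z.im * z.im := mul_self_pos.2 him
  linarith

end Pool.Agent.Q164
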