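import Pool.Agent.Q164.Hyp

/-!
More on hyperbolic polynomials: factorisation and Newton's inequality at the bottom.
-/

namespace Pool.Agent.Q164

open Polynomial

theorem Hyperbolic.exists_factor {p : ℝ[X]} (hp : Hyperbolic p) (hd : p.natDegree ≠ 0) :
    ∃ (r : ℝ) (q : ℝ[X]), p = (X - C r) * q ∧ Hyperbolic q ∧ q.natDegree + 1 = p.natDegree := by
  have h0 : p ≠ 0 := by
    rintro rfl
    simp at hd
  have hdeg : (p.map (algebraMap ℝ ℂ)).degree ≠ 0 := by
    rw [degree_map]
    intro h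
    exact hd (natDegree_eq_of_degree_eq_some h)
  obtain ⟨z, hz⟩ := IsAlgClosed.exists_root _ hdeg
  have hz' : aeval z p = 0 := by rw [aeval_eq_eval_map]; exact hz
  have him := (hp.resolve_left h0) z hz'
  have hzr : z = ((z.re : ℝ) : ℂ) := by
    apply Complex.ext <;> simp [him]
  have hr : p.eval z.re = 0 := by
    rw [hzr] at hz'
    have : aeval ((z.re : ℝ) : ℂ) p = ((p.eval z.re : ℝ) : ℂ) := by
      have := Polynomial.aeval_algebraMap_apply ℂ z.re p
      simpa using this
    rw [this] at hz'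
    exact_mod_cast hz'
  obtain ⟨q, hq⟩ := dvd_iff_isRoot.2 hr
  have hq0 : q ≠ 0 := by
    rintro rfl
    rw [mul_zero] at hq
    exact h0 hq
  refine ⟨z.re, q, hq, ?_, ?_⟩
  · right
    intro w hw
    apply (hp.resolve_left h0) w
    rw [hq, map_mul, hw, mul_zero]
  · rw [hq, natDegree_mul (X_sub_C_ne_zero _) hq0, natDegree_X_sub_C, add_comm]

theorem Hyperbolic.newton {p : ℝ[X]} (hp : Hyperbolic p) :
    2 * p.coeff 0 * p.coeff 2 ≤ p.coeff 1 ^ 2 := by
  induction hn : p.natDegree generalizing p with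
  | zero =>
    rw [eq_C_of_natDegree_eq_zero hn]
    simp [coeff_C]
  | succ n ih =>
    obtain ⟨r, q, rfl, hq, hd⟩ := hp.exists_factor (by omega)
    have := ih hq (by omega)
    have e0 : ((X - C r) * q).coeff 0 = -(r * q.coeff 0) := by
      simp [mul_coeff_zero]
    have e1 : ((X - C r) * q).coeff 1 = q.coeff 0 - r * q.coeff 1 := by
      rw [sub_mul, coeff_sub, coeff_X_mul, coeff_C_mul]
    have e2 : ((X - C r) * q).coeff 2 = q.coeff 1 - r * q.coeff 2 := by
      rw [sub_mul, coeff_sub, coeff_X_mul, coeff_C_mul]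
    rw [e0, e1, e2]
    nlinarith [mul_nonneg (sq_nonneg r) (sub_nonneg.2 this), sq_nonneg (q.coeff 0)]

end Pool.Agent.Q164
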