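import Pool.Agent.Q164.Hyp2
import Mathlib.Topology.Algebra.Polynomial
import Mathlib.Analysis.SpecificLimits.Basic

/-!
Closedness of the set of hyperbolic polynomials, and invariance under scaling.
-/

namespace Pool.Agent.Q164

open Polynomial Filter Topology

theorem Hyperbolic.norm_mono {p : ℝ[X]} (hp : Hyperbolic p) (x y y' : ℝ) (h : |y| ≤ |y'|) :
    ‖aeval ((x : ℂ) + y * Complex.I) p‖ ≤ ‖aeval ((x : ℂ) + y' * Complex.I) p‖ := by
  induction hn : p.natDegree generalizing p with
  | zero =>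
    rw [eq_C_of_natDegree_eq_zero hn]
    simp
  | succ n ih =>
    obtain ⟨r, q, rfl, hq, hd⟩ := hp.exists_factor (by omega)
    have h1 := ih hq (by omega)
    rw [map_mul, map_mul, norm_mul, norm_mul]
    apply mul_le_mul _ h1 (norm_nonneg _) (norm_nonneg _)
    rw [← sq_le_sq₀ (norm_nonneg _) (norm_nonneg _), ← Complex.normSq_eq_norm_sq,
      ← Complex.normSq_eq_norm_sq, Complex.normSq_apply, Complex.normSq_apply]
    have h2 : y * y ≤ y' * y' := by
      have := sq_le_sq' (by linarith [abs_nonneg y, abs_nonneg y']) h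
      rw [sq_abs, sq_abs] at this
      nlinarith
    simp
    linarith

theorem hyperbolic_of_norm_mono {p : ℝ[X]}
    (h : ∀ x y y' : ℝ, |y| ≤ |y'| →
      ‖aeval ((x : ℂ) + y * Complex.I) p‖ ≤ ‖aeval ((x : ℂ) + y' * Complex.I) p‖) :
    Hyperbolic p := by
  by_cases h0 : p = 0
  · exact Or.inl h0
  right
  intro z hz
  by_contra him
  apply Polynomial.map_ne_zero (f := algebraMap ℝ ℂ) h0
  apply eq_zero_of_infinite_isRoot
  apply Set.Infinite.mono (s := (fun y : ℝ => (z.re : ℂ) + y * Complex.I) '' Set.Icc 0 |z.im|)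
  · rintro _ ⟨y, hy, rfl⟩
    have h1 := h z.re y z.im (by rw [abs_of_nonneg hy.1]; exact hy.2)
    rw [Complex.re_add_im, hz, norm_zero] at h1
    have h2 := norm_eq_zero.1 (le_antisymm h1 (norm_nonneg _))
    rw [aeval_eq_eval_map] at h2
    exact h2
  · apply Set.Infinite.image
    · intro a _ b _ hab
      have := congrArg Complex.im hab
      simpa using this
    · exact Set.Icc_infinite (abs_pos.2 him)

theorem Hyperbolic.of_tendsto {ι : Type*} {l : Filter ι} [l.NeBot] {g : ι → ℝ[X]} {p : ℝ[X]}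
    (hg : ∀ᶠ i in l, Hyperbolic (g i))
    (h : ∀ z : ℂ, Tendsto (fun i => aeval z (g i)) l (𝓝 (aeval z p))) : Hyperbolic p := by
  apply hyperbolic_of_norm_mono
  intro x y y' hy
  apply le_of_tendsto_of_tendsto (h _).norm (h _).norm
  filter_upwards [hg] with i hi
  exact hi.norm_mono x y y' hy

theorem Hyperbolic.comp_scale {p : ℝ[X]} (hp : Hyperbolic p) (r : ℝ) :
    Hyperbolic (p.comp (C r * X)) := by
  apply hyperbolic_of_norm_mono
  intro x y y' hy
  rw [aeval_comp, aeval_comp]
  have e : ∀ t : ℝ, aeval ((x : ℂ) + t * Complex.I) (C r * X : ℝ[X]) =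
      ((r * x : ℝ) : ℂ) + ((r * t : ℝ) : ℂ) * Complex.I := by
    intro t
    simp
    ring
  rw [e, e]
  apply hp.norm_mono
  rw [abs_mul, abs_mul]
  exact mul_le_mul_of_nonneg_left hy (abs_nonneg r)

end Pool.Agent.Q164
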