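import Mathlib.Analysis.SpecialFunctions.Integrals.Basic
import Mathlib.Algebra.Order.Chebyshev
import Mathlib.Tactic

/-!
Trigonometric (cosine) polynomials and the fourth moment of strongly lacunary cosine sums.
-/

namespace Pool.Agent.Q164.Lac

open Real Finset MeasureTheory

/-- Cosine polynomials of degree at most `N`. -/
def TP (N : ℕ) : Submodule ℝ (ℝ → ℝ) :=
  Submodule.span ℝ ((fun (j : ℕ) => fun x : ℝ => cos (j * x)) '' {j | j ≤ N})

theorem cos_mem_TP {j N : ℕ} (h : j ≤ N) : (fun x : ℝ => cos (j * x)) ∈ TP N :=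
  Submodule.subset_span ⟨j, h, rfl⟩

theorem TP_mono {N M : ℕ} (h : N ≤ M) : TP N ≤ TP M := by
  apply Submodule.span_mono
  apply Set.image_mono
  intro j hj
  exact le_trans hj h

theorem TP_continuous {N : ℕ} {f : ℝ → ℝ} (hf : f ∈ TP N) : Continuous f := by
  induction hf using Submodule.span_induction with
  | mem f hf =>
    obtain ⟨j, -, rfl⟩ := hf
    fun_prop
  | zero => exact continuous_const
  | add f g _ _ hf hg => exact hf.add hg
  | smul c f _ hf => exact hf.const_smul c

theorem cos_mul_cos_mem {j k N M : ℕ} (hj : j ≤ N) (hk : k ≤ M) :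
    ((fun x : ℝ => cos (j * x)) * fun x : ℝ => cos (k * x)) ∈ TP (N + M) := by
  wlog h : j ≤ k generalizing j k N M
  · rw [mul_comm, add_comm N M]
    exact this hk hj (by omega)
  have e : ((fun x : ℝ => cos (j * x)) * fun x : ℝ => cos (k * x)) =
      (1 / 2 : ℝ) • ((fun x : ℝ => cos (((k + j : ℕ) : ℝ) * x)) +
        fun x : ℝ => cos (((k - j : ℕ) : ℝ) * x)) := by
    funext x
    simp only [Pi.mul_apply, Pi.smul_apply, Pi.add_apply, smul_eq_mul]
    rw [Nat.cast_sub h]
    push_cast
    rw [add_mul, sub_mul, cos_add, cos_sub]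
    ring
  rw [e]
  apply Submodule.smul_mem
  apply Submodule.add_mem
  · exact cos_mem_TP (by omega)
  · exact cos_mem_TP (by omega)

theorem mul_mem_TP {N M : ℕ} {f g : ℝ → ℝ} (hf : f ∈ TP N) (hg : g ∈ TP M) :
    f * g ∈ TP (N + M) := by
  induction hf using Submodule.span_induction with
  | mem f hf =>
    obtain ⟨j, hj, rfl⟩ := hf
    induction hg using Submodule.span_induction with
    | mem g hg =>
      obtain ⟨k, hk, rfl⟩ := hg
      exact cos_mul_cos_mem hj hk
    | zero =>
      rw [mul_zero]
      exact Submodule.zero_mem _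
    | add g₁ g₂ _ _ h₁ h₂ =>
      rw [mul_add]
      exact Submodule.add_mem _ h₁ h₂
    | smul c g _ h =>
      rw [mul_smul_comm]
      exact Submodule.smul_mem _ _ h
  | zero =>
    rw [zero_mul]
    exact Submodule.zero_mem _
  | add f₁ f₂ _ _ h₁ h₂ =>
    rw [add_mul]
    exact Submodule.add_mem _ h₁ h₂
  | smul c f _ h =>
    rw [smul_mul_assoc]
    exact Submodule.smul_mem _ _ h

theorem integral_cos_nat {n : ℕ} (hn : 0 < n) : ∫ x in (0 : ℝ)..(2 * π), cos (n * x) = 0 := by
  have hn' : (n : ℝ) ≠ 0 := by exact_mod_cast hn.ne'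
  have h : ∀ x ∈ Set.uIcc (0 : ℝ) (2 * π),
      HasDerivAt (fun x => sin (n * x) / n) (cos (n * x)) x := by
    intro x _
    have h1 : HasDerivAt (fun x : ℝ => (n : ℝ) * x) n x := by
      simpa using (hasDerivAt_id x).const_mul (n : ℝ)
    have h2 := ((hasDerivAt_sin _).comp x h1).div_const (n : ℝ)
    have e : cos (n * x) = cos (n * x) * n / n := by field_simp
    rw [e]
    exact h2
  rw [intervalIntegral.integral_eq_sub_of_hasDerivAt h]
  · have : (n : ℝ) * (2 * π) = n * (2 * π) := rfl
    have h1 : sin ((n : ℝ) * (2 * π)) = 0 := by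
      have := Real.sin_nat_mul_pi (2 * n)
      rw [← this]
      push_cast
      ring_nf
    rw [h1]
    simp
  · apply Continuous.intervalIntegrable
    fun_prop

theorem integral_TP_cos {N n : ℕ} (h : N < n) {f : ℝ → ℝ} (hf : f ∈ TP N) :
    ∫ x in (0 : ℝ)..(2 * π), f x * cos (n * x) = 0 := by
  have hcont : ∀ g : ℝ → ℝ, g ∈ TP N →
      IntervalIntegrable (fun x => g x * cos (n * x)) volume 0 (2 * π) := by
    intro g hg
    apply Continuous.intervalIntegrable
    have := TP_continuous hg
    fun_prop
  induction hf using Submodule.span_induction with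
  | mem f hf =>
    obtain ⟨j, hj, rfl⟩ := hf
    have hj' : j ≤ N := hj
    have e : ∀ x : ℝ, cos (j * x) * cos (n * x) =
        (1 / 2) * cos (((n + j : ℕ) : ℝ) * x) + (1 / 2) * cos (((n - j : ℕ) : ℝ) * x) := by
      intro x
      rw [Nat.cast_sub (by omega)]
      push_cast
      rw [add_mul, sub_mul, cos_add, cos_sub]
      ring
    simp only [e]
    rw [intervalIntegral.integral_add, intervalIntegral.integral_const_mul, intervalIntegral.integral_const_mul,
      integral_cos_nat (by omega), integral_cos_nat (by omega)]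
    · simp
    · apply Continuous.intervalIntegrable
      fun_prop
    · apply Continuous.intervalIntegrable
      fun_prop
  | zero => simp
  | add f g hf hg h₁ h₂ =>
    simp only [Pi.add_apply, add_mul]
    rw [intervalIntegral.integral_add (hcont f hf) (hcont g hg), h₁, h₂, add_zero]
  | smul c f hf h₁ =>
    simp only [Pi.smul_apply, smul_eq_mul, mul_assoc]
    rw [intervalIntegral.integral_const_mul, h₁, mul_zero]

theorem integral_cos_sq {n : ℕ} (hn : 0 < n) :
    ∫ x in (0 : ℝ)..(2 * π), cos (n * x) ^ 2 = π := by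
  have e : ∀ x : ℝ, cos (n * x) ^ 2 = 1 / 2 + (1 / 2) * cos (((2 * n : ℕ) : ℝ) * x) := by
    intro x
    push_cast
    rw [mul_assoc, cos_two_mul]
    ring
  simp only [e]
  rw [intervalIntegral.integral_add, intervalIntegral.integral_const_mul, integral_cos_nat (by omega)]
  · simp; ring
  · apply Continuous.intervalIntegrable
    fun_prop
  · apply Continuous.intervalIntegrable
    fun_prop

/-- Cosine sums. -/
noncomputable def cs (ν : ℕ → ℕ) (M : ℕ) (x : ℝ) : ℝ := ∑ j ∈ range M, cos (ν j * x)

theorem cs_succ (ν : ℕ → ℕ) (M : ℕ) (x : ℝ) : cs ν (M + 1) x = cs ν M x + cos (ν M * x) := by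
  rw [cs, cs, sum_range_succ]

theorem cs_continuous (ν : ℕ → ℕ) (M : ℕ) : Continuous (cs ν M) := by
  unfold cs
  fun_prop

theorem cs_mem_TP (ν : ℕ → ℕ) (M N : ℕ) (h : ∀ j < M, ν j ≤ N) : cs ν M ∈ TP N := by
  induction M with
  | zero =>
    have : cs ν 0 = 0 := by funext x; simp [cs]
    rw [this]
    exact Submodule.zero_mem _
  | succ M ih =>
    have : cs ν (M + 1) = cs ν M + fun x => cos (ν M * x) := by
      funext x
      exact cs_succ ν M x
    rw [this]
    exact Submodule.add_mem _ (ih fun j hj => h j (by omega)) (cos_mem_TP (h M (by omega)))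

/-- A degree bound for the `M`-th sum, less than a third of the next frequency. -/
theorem exists_bound {ν : ℕ → ℕ} (h0 : ∀ j, 0 < ν j) (h4 : ∀ j, 4 * ν j ≤ ν (j + 1)) (M : ℕ) :
    ∃ N, (∀ j < M, ν j ≤ N) ∧ 3 * N < ν M := by
  cases M with
  | zero => exact ⟨0, by simp, by simpa using h0 0⟩
  | succ M =>
    refine ⟨ν M, ?_, ?_⟩
    · intro j hj
      have hmono : Monotone ν := monotone_nat_of_le_succ fun n => by
        have := h4 n
        omega
      exact hmono (by omega)
    · have := h4 M
      have := h0 M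
      omega

theorem second_moment {ν : ℕ → ℕ} (h0 : ∀ j, 0 < ν j) (h4 : ∀ j, 4 * ν j ≤ ν (j + 1)) (M : ℕ) :
    ∫ x in (0 : ℝ)..(2 * π), cs ν M x ^ 2 = π * M := by
  induction M with
  | zero => simp [cs]
  | succ M ih =>
    obtain ⟨N, hN1, hN2⟩ := exists_bound h0 h4 M
    have hT := cs_mem_TP ν M N hN1
    have hc := cs_continuous ν M
    have e : ∀ x : ℝ, cs ν (M + 1) x ^ 2 =
        cs ν M x ^ 2 + 2 * (cs ν M x * cos (ν M * x)) + cos (ν M * x) ^ 2 := by
      intro x
      rw [cs_succ]
      ring
    simp only [e]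
    rw [intervalIntegral.integral_add, intervalIntegral.integral_add, intervalIntegral.integral_const_mul, ih,
      integral_TP_cos (by omega) hT, integral_cos_sq (h0 M)]
    · push_cast; ring
    all_goals
      apply Continuous.intervalIntegrable
      fun_prop

theorem fourth_moment {ν : ℕ → ℕ} (h0 : ∀ j, 0 < ν j) (h4 : ∀ j, 4 * ν j ≤ ν (j + 1)) (M : ℕ) :
    ∫ x in (0 : ℝ)..(2 * π), cs ν M x ^ 4 ≤ 5 * π * M ^ 2 := by
  induction M with
  | zero => simp [cs]
  | succ M ih =>
    obtain ⟨N, hN1, hN2⟩ := exists_bound h0 h4 M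
    have hT := cs_mem_TP ν M N hN1
    have hT3 : (fun x => cs ν M x ^ 3) ∈ TP (N + N + N) := by
      have := mul_mem_TP (mul_mem_TP hT hT) hT
      have e : (fun x => cs ν M x ^ 3) = cs ν M * cs ν M * cs ν M := by
        funext x
        simp only [Pi.mul_apply]
        ring
      rw [e]
      exact this
    have hc := cs_continuous ν M
    have i1 := integral_TP_cos (n := ν M) (by omega) hT3
    have i2 := integral_TP_cos (n := ν M) (by omega) hT
    have i3 := integral_TP_cos (n := 3 * ν M) (by omega) hT
    have e : ∀ x : ℝ, cs ν (M + 1) x ^ 4 =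
        cs ν M x ^ 4 + 4 * (cs ν M x ^ 3 * cos (ν M * x)) +
          6 * (cs ν M x ^ 2 * cos (ν M * x) ^ 2) + 3 * (cs ν M x * cos (ν M * x)) +
          cs ν M x * cos (((3 * ν M : ℕ) : ℝ) * x) + cos (ν M * x) ^ 4 := by
      intro x
      rw [cs_succ]
      push_cast
      rw [mul_assoc, cos_three_mul]
      ring
    have hle : ∫ x in (0 : ℝ)..(2 * π), cs ν M x ^ 2 * cos (ν M * x) ^ 2 ≤ π * M := by
      rw [← second_moment h0 h4 M]
      apply intervalIntegral.integral_mono_on
      · positivity
      · apply Continuous.intervalIntegrable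
        fun_prop
      · apply Continuous.intervalIntegrable
        fun_prop
      · intro x _
        have : cos (ν M * x) ^ 2 ≤ 1 := cos_sq_le_one _
        nlinarith [sq_nonneg (cs ν M x)]
    have hle2 : ∫ x in (0 : ℝ)..(2 * π), cos (ν M * x) ^ 4 ≤ π := by
      refine le_trans ?_ (integral_cos_sq (h0 M)).le
      apply intervalIntegral.integral_mono_on
      · positivity
      · apply Continuous.intervalIntegrable
        fun_prop
      · apply Continuous.intervalIntegrable
        fun_prop
      · intro x _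
        have : cos (ν M * x) ^ 2 ≤ 1 := cos_sq_le_one _
        nlinarith [sq_nonneg (cos (ν M * x))]
    simp only [e]
    rw [intervalIntegral.integral_add, intervalIntegral.integral_add, intervalIntegral.integral_add, intervalIntegral.integral_add, intervalIntegral.integral_add,
      intervalIntegral.integral_const_mul, intervalIntegral.integral_const_mul,
      intervalIntegral.integral_const_mul, i1, i2, i3]
    · push_cast
      have hpi := Real.pi_pos
      have hM : (0 : ℝ) ≤ M := Nat.cast_nonneg M
      nlinarith [mul_nonneg hpi.le hM]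
    all_goals
      apply Continuous.intervalIntegrable
      fun_prop

end Pool.Agent.Q164.Lac
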