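import Pool.Agent.Q164.Lac1

/-!
Fourier coefficients of an indicator function along sums and differences of a lacunary sequence.
-/

namespace Pool.Agent.Q164.Lac

open Real Finset MeasureTheory

/-- Cosine coefficients of the indicator function of `A`. -/
noncomputable def ac (A : Set ℝ) (N : ℕ) : ℝ := ∫ x in A, cos (N * x)

variable {A : Set ℝ}

theorem intOn (hA : A ⊆ Set.Ioc 0 (2 * π)) {f : ℝ → ℝ} (hf : Continuous f) :
    IntegrableOn f A := by
  have h1 : IntegrableOn f (Set.Icc 0 (2 * π)) := hf.continuousOn.integrableOn_compact isCompact_Icc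
  exact h1.mono_set (hA.trans Set.Ioc_subset_Icc_self)

theorem setIntegral_le_full (hAm : MeasurableSet A) (hA : A ⊆ Set.Ioc 0 (2 * π)) {f : ℝ → ℝ}
    (hf : Continuous f) (h0 : ∀ x, 0 ≤ f x) :
    ∫ x in A, f x ≤ ∫ x in (0 : ℝ)..(2 * π), f x := by
  rw [intervalIntegral.integral_of_le (by positivity)]
  apply setIntegral_mono_set (intOn (le_refl _) hf)
  · exact Filter.Eventually.of_forall h0
  · exact Filter.Eventually.of_forall hA

theorem volume_real_le (hA : A ⊆ Set.Ioc 0 (2 * π)) : volume.real A ≤ 2 * π := by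
  have h1 : volume.real (Set.Ioc (0 : ℝ) (2 * π)) = 2 * π := by
    rw [Real.volume_real_Ioc_of_le (by positivity), sub_zero]
  rw [← h1]
  refine measureReal_mono hA ?_
  rw [Real.volume_Ioc]
  exact ENNReal.ofReal_ne_top

theorem ac_zero : ac A 0 = volume.real A := by
  simp [ac]

theorem orth {N M : ℕ} (hN : 0 < N) (hM : 0 < M) (h : N ≠ M) :
    ∫ x in (0 : ℝ)..(2 * π), cos (N * x) * cos (M * x) = 0 := by
  rcases lt_or_gt_of_ne h with h1 | h1
  · exact integral_TP_cos h1 (cos_mem_TP (le_refl N))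
  · simp_rw [mul_comm (cos (N * _))]
    exact integral_TP_cos h1 (cos_mem_TP (le_refl M))

theorem norm_trig (J : Finset ℕ) (hJ : ∀ N ∈ J, 0 < N) (a : ℕ → ℝ) :
    ∫ x in (0 : ℝ)..(2 * π), (∑ N ∈ J, a N * cos (N * x)) ^ 2 = π * ∑ N ∈ J, a N ^ 2 := by
  classical
  induction J using Finset.induction_on with
  | empty => simp
  | insert N J hN ih =>
    have ih' := ih fun M hM => hJ M (mem_insert_of_mem hM)
    have e : ∀ x : ℝ, (∑ M ∈ insert N J, a M * cos (M * x)) ^ 2 =
        (∑ M ∈ J, a M * cos (M * x)) ^ 2 +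
          ∑ M ∈ J, 2 * a N * a M * (cos (M * x) * cos (N * x)) +
          a N ^ 2 * cos (N * x) ^ 2 := by
      intro x
      rw [sum_insert hN]
      have : ∑ M ∈ J, 2 * a N * a M * (cos (M * x) * cos (N * x)) =
          2 * a N * cos (N * x) * ∑ M ∈ J, a M * cos (M * x) := by
        rw [mul_sum]
        apply sum_congr rfl
        intro M _
        ring
      rw [this]
      ring
    simp only [e]
    rw [intervalIntegral.integral_add, intervalIntegral.integral_add, ih',
      intervalIntegral.integral_const_mul, integral_cos_sq (hJ N (mem_insert_self N J)),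
      intervalIntegral.integral_finsetSum]
    · have : ∀ M ∈ J, ∫ x in (0 : ℝ)..(2 * π), 2 * a N * a M * (cos (M * x) * cos (N * x)) = 0 := by
        intro M hM
        rw [intervalIntegral.integral_const_mul, orth (hJ M (mem_insert_of_mem hM))
          (hJ N (mem_insert_self N J)), mul_zero]
        rintro rfl
        exact hN hM
      rw [sum_eq_zero this, sum_insert hN]
      ring
    · intro M _
      apply Continuous.intervalIntegrable
      fun_prop
    all_goals
      apply Continuous.intervalIntegrable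
      fun_prop

/-- Bessel's inequality. -/
theorem bessel (hAm : MeasurableSet A) (hA : A ⊆ Set.Ioc 0 (2 * π)) (J : Finset ℕ)
    (hJ : ∀ N ∈ J, 0 < N) : ∑ N ∈ J, ac A N ^ 2 ≤ 2 * π ^ 2 := by
  set s := ∑ N ∈ J, ac A N ^ 2 with hs
  set g : ℝ → ℝ := fun x => ∑ N ∈ J, ac A N * cos (N * x) with hg
  have hgc : Continuous g := by
    rw [hg]
    fun_prop
  have h1 : ∫ x in A, g x = s := by
    rw [hg, integral_finsetSum]
    · rw [hs]
      apply sum_congr rfl
      intro N _
      rw [integral_const_mul, ac]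
      ring
    · intro N _
      apply intOn hA
      fun_prop
  have h2 : ∫ x in A, g x ^ 2 ≤ π * s := by
    refine (setIntegral_le_full hAm hA (by fun_prop) fun x => sq_nonneg _).trans ?_
    rw [hg, norm_trig J hJ, hs]
  set t := s / (2 * π) with ht
  have h3 : 0 ≤ ∫ x in A, (t - g x) ^ 2 := by
    apply setIntegral_nonneg hAm
    intro x _
    positivity
  have h4 : ∫ x in A, (t - g x) ^ 2 = t ^ 2 * volume.real A - 2 * t * s + ∫ x in A, g x ^ 2 := by
    have e : ∀ x, (t - g x) ^ 2 = t ^ 2 - 2 * t * g x + g x ^ 2 := by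
      intro x
      ring
    simp only [e]
    rw [integral_add, integral_sub, integral_const_mul, h1, setIntegral_const, smul_eq_mul,
      mul_comm (volume.real A)]
    all_goals
      apply intOn hA
      fun_prop
  have hpi := Real.pi_pos
  have hv := volume_real_le hA
  have ht2 : t * (2 * π) = s := by
    rw [ht]
    field_simp
  have hs0 : 0 ≤ s := sum_nonneg fun N _ => sq_nonneg _
  have h5 : t ^ 2 * volume.real A ≤ t * s := by
    calc t ^ 2 * volume.real A ≤ t ^ 2 * (2 * π) := by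
          apply mul_le_mul_of_nonneg_left hv (sq_nonneg t)
      _ = t * s := by rw [← ht2]; ring
  have h6 : t * s ≤ π * s := by linarith
  rcases eq_or_lt_of_le hs0 with h | h
  · rw [← h]; positivity
  · have h7 : t ≤ π := le_of_mul_le_mul_right h6 h
    calc s = t * (2 * π) := ht2.symm
      _ ≤ π * (2 * π) := mul_le_mul_of_nonneg_right h7 (by positivity)
      _ = 2 * π ^ 2 := by ring

theorem ac_abs_le (hAm : MeasurableSet A) (hA : A ⊆ Set.Ioc 0 (2 * π)) :
    Summable fun N => ac A N ^ 2 := by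
  apply summable_of_sum_le (c := ac A 0 ^ 2 + 2 * π ^ 2)
  · intro N
    positivity
  · intro J
    classical
    have h1 := bessel hAm hA (J.erase 0) (by
      intro N hN
      rw [mem_erase] at hN
      omega)
    have h2 : ∑ N ∈ J, ac A N ^ 2 ≤ ∑ N ∈ insert 0 (J.erase 0), ac A N ^ 2 := by
      apply sum_le_sum_of_subset_of_nonneg
      · intro N hN
        rw [mem_insert, mem_erase]
        tauto
      · intro N _ _
        positivity
    rw [sum_insert (by simp)] at h2
    linarith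

theorem ac_tail (hAm : MeasurableSet A) (hA : A ⊆ Set.Ioc 0 (2 * π)) {η : ℝ} (hη : 0 < η) :
    ∃ N₀ : ℕ, ∀ J : Finset ℕ, (∀ N ∈ J, N₀ ≤ N) → ∑ N ∈ J, ac A N ^ 2 ≤ η := by
  have h := summable_iff_vanishing_norm.1 (ac_abs_le hAm hA) η hη
  obtain ⟨s, hs⟩ := h
  refine ⟨s.sup id + 1, fun J hJ => ?_⟩
  have hd : Disjoint J s := by
    rw [Finset.disjoint_left]
    intro N hN hNs
    have h1 := hJ N hN
    have h2 := le_sup (f := id) hNs
    simp only [id_eq] at h2
    omega
  have := hs J hd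
  rw [Real.norm_eq_abs] at this
  exact (le_abs_self _).trans this.le

/-! ### Multiplicities -/

/-- A finite set of naturals with all differences less than `L` has at most `L` elements. -/
theorem card_le_of_diff {s : Finset ℕ} {L : ℕ} (hL : ∀ a ∈ s, ∀ b ∈ s, a < b → b - a < L)
    (hL0 : 0 < L) : s.card ≤ L := by
  rcases s.eq_empty_or_nonempty with rfl | hs
  · simp
  · have hsub : s ⊆ Ico (s.min' hs) (s.min' hs + L) := by
      intro b hb
      rw [mem_Ico]
      have h1 := s.min'_le b hb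
      refine ⟨h1, ?_⟩
      rcases eq_or_lt_of_le h1 with h2 | h2
      · omega
      · have := hL _ (s.min'_mem hs) b hb h2
        omega
    have := card_le_card hsub
    rw [Nat.card_Ico] at this
    omega

theorem growth {n : ℕ → ℕ} {q : ℝ} (hq : 1 < q) (hn : ∀ k, q * (n k : ℝ) ≤ n (k + 1)) (k d : ℕ) :
    q ^ d * (n k : ℝ) ≤ n (k + d) := by
  induction d with
  | zero => simp
  | succ d ih =>
    calc q ^ (d + 1) * (n k : ℝ) = q * (q ^ d * n k) := by ring
      _ ≤ q * n (k + d) := mul_le_mul_of_nonneg_left ih (by linarith)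
      _ ≤ n (k + d + 1) := hn _

/-- Window predicate. -/
def Win (n : ℕ → ℕ) (C : ℝ) (k N : ℕ) : Prop := (n k : ℝ) ≤ C * N ∧ (N : ℝ) ≤ C * n k

theorem win_diff {n : ℕ → ℕ} {q C : ℝ} {L : ℕ} (hq : 1 < q) (hpos : ∀ k, 0 < n k)
    (hn : ∀ k, q * (n k : ℝ) ≤ n (k + 1)) (hC : 0 < C) (hL : C ^ 2 < q ^ L) {a b N : ℕ}
    (hab : a < b) (ha : Win n C a N) (hb : Win n C b N) : b - a < L := by
  by_contra hcon
  push Not at hcon
  have h1 := growth hq hn a (b - a)
  rw [show a + (b - a) = b by omega] at h1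
  have h2 : (n b : ℝ) ≤ C ^ 2 * n a := by
    calc (n b : ℝ) ≤ C * N := hb.1
      _ ≤ C * (C * n a) := mul_le_mul_of_nonneg_left ha.2 hC.le
      _ = C ^ 2 * n a := by ring
  have h3 : q ^ L ≤ q ^ (b - a) := pow_le_pow_right₀ hq.le hcon
  have h4 : (0 : ℝ) < n a := by exact_mod_cast hpos a
  have h5 : q ^ L * (n a : ℝ) ≤ C ^ 2 * n a :=
    (mul_le_mul_of_nonneg_right h3 h4.le).trans (h1.trans h2)
  have h6 := le_of_mul_le_mul_right h5 h4
  linarith

/-- Sum of squares over a finite family of pairs with values in windows. -/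
theorem sum_sq_pairs {n : ℕ → ℕ} {q C : ℝ} {L : ℕ} (hq : 1 < q) (hpos : ∀ k, 0 < n k)
    (hn : ∀ k, q * (n k : ℝ) ≤ n (k + 1)) (hC : 0 < C) (hL : C ^ 2 < q ^ L) (hL0 : 0 < L)
    (P : Finset (ℕ × ℕ)) (φ : ℕ × ℕ → ℕ) (hφ : ∀ p ∈ P, Win n C p.1 (φ p))
    (hinj : ∀ p ∈ P, ∀ p' ∈ P, p.1 = p'.1 → φ p = φ p' → p = p') {η : ℝ} {N₀ : ℕ}
    (hN₀ : ∀ p ∈ P, N₀ ≤ φ p)
    (hη : ∀ J : Finset ℕ, (∀ N ∈ J, N₀ ≤ N) → ∑ N ∈ J, ac A N ^ 2 ≤ η) :
    ∑ p ∈ P, ac A (φ p) ^ 2 ≤ L * η := by
  classical
  have h1 : ∑ p ∈ P, ac A (φ p) ^ 2 =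
      ∑ N ∈ P.image φ, (P.filter fun p => φ p = N).card • ac A N ^ 2 :=
    sum_comp (fun N => ac A N ^ 2) φ
  have h2 : ∀ N ∈ P.image φ, (P.filter fun p => φ p = N).card • ac A N ^ 2 ≤
      (L : ℝ) * ac A N ^ 2 := by
    intro N _
    rw [nsmul_eq_mul]
    apply mul_le_mul_of_nonneg_right _ (sq_nonneg _)
    have : ((P.filter fun p => φ p = N).image Prod.fst).card = (P.filter fun p => φ p = N).card := by
      apply card_image_of_injOn
      intro p hp p' hp' hpp
      rw [mem_coe, mem_filter] at hp hp'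
      exact hinj p hp.1 p' hp'.1 hpp (hp.2.trans hp'.2.symm)
    rw [← this]
    have h3 := card_le_of_diff (s := (P.filter fun p => φ p = N).image Prod.fst) (L := L) (by
      intro a ha b hb hab
      rw [mem_image] at ha hb
      obtain ⟨p, hp, rfl⟩ := ha
      obtain ⟨p', hp', rfl⟩ := hb
      rw [mem_filter] at hp hp'
      have w1 := hφ p hp.1
      have w2 := hφ p' hp'.1
      rw [hp.2] at w1
      rw [hp'.2] at w2
      exact win_diff hq hpos hn hC hL hab w1 w2) hL0
    exact_mod_cast h3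
  rw [h1]
  refine (sum_le_sum h2).trans ?_
  rw [← mul_sum]
  apply mul_le_mul_of_nonneg_left _ (Nat.cast_nonneg L)
  apply hη
  intro N hN
  rw [mem_image] at hN
  obtain ⟨p, hp, rfl⟩ := hN
  exact hN₀ p hp

end Pool.Agent.Q164.Lac
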