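import Pool.Agent.Q164.Lac2

/-!
Moments of lacunary cosine sums over measurable sets.
-/

namespace Pool.Agent.Q164.Lac

open Real Finset MeasureTheory

variable {A : Set ℝ}

theorem setIntegral_cs (hA : A ⊆ Set.Ioc 0 (2 * π)) (ν : ℕ → ℕ) (M : ℕ) :
    ∫ x in A, cs ν M x = ∑ j ∈ range M, ac A (ν j) := by
  unfold cs
  rw [integral_finsetSum]
  · rfl
  · intro j _
    apply intOn hA
    fun_prop

theorem setIntegral_cos_mul (hA : A ⊆ Set.Ioc 0 (2 * π)) {k l : ℕ} (h : l ≤ k) :
    ∫ x in A, cos (l * x) * cos (k * x) = (ac A (k + l) + ac A (k - l)) / 2 := by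
  have e : ∀ x : ℝ, cos (l * x) * cos (k * x) =
      (1 / 2) * cos (((k + l : ℕ) : ℝ) * x) + (1 / 2) * cos (((k - l : ℕ) : ℝ) * x) := by
    intro x
    rw [Nat.cast_sub h]
    push_cast
    rw [add_mul, sub_mul, cos_add, cos_sub]
    ring
  simp only [e]
  rw [integral_add, integral_const_mul, integral_const_mul, ac, ac]
  · ring
  all_goals
    apply intOn hA
    fun_prop

/-- The error term. -/
noncomputable def err (A : Set ℝ) (ν : ℕ → ℕ) (M : ℕ) : ℝ :=
  ∑ j ∈ range M, (∑ i ∈ range j, (|ac A (ν j - ν i)| + |ac A (ν j + ν i)|) + |ac A (ν j + ν j)|)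

theorem second_moment_set (hA : A ⊆ Set.Ioc 0 (2 * π)) {ν : ℕ → ℕ} (hν : Monotone ν) (M : ℕ) :
    volume.real A / 2 * M - err A ν M ≤ ∫ x in A, cs ν M x ^ 2 := by
  induction M with
  | zero => simp [cs, err]
  | succ M ih =>
    have hc := cs_continuous ν M
    have e : ∀ x : ℝ, cs ν (M + 1) x ^ 2 =
        cs ν M x ^ 2 + 2 * (cs ν M x * cos (ν M * x)) + cos (ν M * x) * cos (ν M * x) := by
      intro x
      rw [cs_succ]
      ring
    simp only [e]
    have h1 : ∫ x in A, cs ν M x * cos (ν M * x) =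
        ∑ i ∈ range M, (ac A (ν M + ν i) + ac A (ν M - ν i)) / 2 := by
      have : ∀ x, cs ν M x * cos (ν M * x) = ∑ i ∈ range M, cos (ν i * x) * cos (ν M * x) := by
        intro x
        rw [cs, sum_mul]
      simp only [this]
      rw [integral_finsetSum]
      · apply sum_congr rfl
        intro i hi
        exact setIntegral_cos_mul hA (hν (mem_range.1 hi).le)
      · intro i _
        apply intOn hA
        fun_prop
    have h2 := setIntegral_cos_mul hA (le_refl (ν M))
    rw [Nat.sub_self, ac_zero] at h2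
    rw [integral_add, integral_add, integral_const_mul, h1, h2]
    · have h3 : -∑ i ∈ range M, (|ac A (ν M - ν i)| + |ac A (ν M + ν i)|) ≤
          2 * ∑ i ∈ range M, (ac A (ν M + ν i) + ac A (ν M - ν i)) / 2 := by
        rw [mul_sum, ← sum_neg_distrib]
        apply sum_le_sum
        intro i _
        have := neg_abs_le (ac A (ν M - ν i))
        have := neg_abs_le (ac A (ν M + ν i))
        linarith
      have h4 : err A ν (M + 1) = err A ν M +
          (∑ i ∈ range M, (|ac A (ν M - ν i)| + |ac A (ν M + ν i)|) + |ac A (ν M + ν M)|) := by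
        rw [err, sum_range_succ, err]
      have h5 := neg_abs_le (ac A (ν M + ν M))
      have h6 := abs_nonneg (ac A (ν M + ν M))
      rw [h4]
      push_cast
      linarith
    all_goals
      apply intOn hA
      fun_prop

/-- Lacunary sequences shifted. -/
theorem lac_mono {n : ℕ → ℕ} {q : ℝ} (hq : 1 < q) (hn : ∀ k, q * (n k : ℝ) ≤ n (k + 1)) :
    Monotone n := by
  apply monotone_nat_of_le_succ
  intro k
  have h1 := hn k
  have h2 : (n k : ℝ) ≤ q * n k := by
    have : (0 : ℝ) ≤ n k := Nat.cast_nonneg _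
    nlinarith
  exact_mod_cast h2.trans h1

theorem lac_strictMono {n : ℕ → ℕ} {q : ℝ} (hq : 1 < q) (hpos : ∀ k, 0 < n k)
    (hn : ∀ k, q * (n k : ℝ) ≤ n (k + 1)) : StrictMono n := by
  apply strictMono_nat_of_lt_succ
  intro k
  have h1 := hn k
  have h2 : (n k : ℝ) < q * n k := by
    have : (0 : ℝ) < n k := by exact_mod_cast hpos k
    nlinarith
  exact_mod_cast h2.trans_le h1

/-- Pairs `i ≤ j < M`. -/
def prs (M : ℕ) : Finset (ℕ × ℕ) := (range M ×ˢ range M).filter fun p => p.2 ≤ p.1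
/-- Pairs `i < j < M`. -/
def prs' (M : ℕ) : Finset (ℕ × ℕ) := (range M ×ˢ range M).filter fun p => p.2 < p.1

theorem card_prs (M : ℕ) : ((prs M).card : ℝ) ≤ M ^ 2 := by
  have : (prs M).card ≤ (range M ×ˢ range M).card := card_filter_le _ _
  rw [card_product, card_range] at this
  have h2 : ((prs M).card : ℝ) ≤ ((M * M : ℕ) : ℝ) := by exact_mod_cast this
  refine h2.trans ?_
  push_cast
  rw [sq]

theorem card_prs' (M : ℕ) : ((prs' M).card : ℝ) ≤ M ^ 2 := by
  have : (prs' M).card ≤ (range M ×ˢ range M).card := card_filter_le _ _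
  rw [card_product, card_range] at this
  have h2 : ((prs' M).card : ℝ) ≤ ((M * M : ℕ) : ℝ) := by exact_mod_cast this
  refine h2.trans ?_
  push_cast
  rw [sq]

theorem sum_prs (M : ℕ) (f : ℕ → ℕ → ℝ) :
    ∑ p ∈ prs M, f p.1 p.2 = ∑ j ∈ range M, (∑ i ∈ range j, f j i + f j j) := by
  rw [prs, sum_filter, sum_product]
  apply sum_congr rfl
  intro j hj
  rw [mem_range] at hj
  rw [← sum_range_succ, ← sum_filter]
  apply sum_congr
  · ext i
    simp only [mem_filter, mem_range]
    omega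
  · intro i _
    rfl

theorem sum_prs' (M : ℕ) (f : ℕ → ℕ → ℝ) :
    ∑ p ∈ prs' M, f p.1 p.2 = ∑ j ∈ range M, ∑ i ∈ range j, f j i := by
  rw [prs', sum_filter, sum_product]
  apply sum_congr rfl
  intro j hj
  rw [mem_range] at hj
  rw [← sum_filter]
  apply sum_congr
  · ext i
    simp only [mem_filter, mem_range]
    omega
  · intro i _
    rfl

theorem err_eq (ν : ℕ → ℕ) (M : ℕ) : err A ν M =
    ∑ p ∈ prs' M, |ac A (ν p.1 - ν p.2)| + ∑ p ∈ prs M, |ac A (ν p.1 + ν p.2)| := by
  rw [sum_prs' M fun j i => |ac A (ν j - ν i)|, sum_prs M fun j i => |ac A (ν j + ν i)|, err,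
    ← sum_add_distrib]
  apply sum_congr rfl
  intro j _
  rw [sum_add_distrib]
  ring

theorem cs_bound {P : Finset (ℕ × ℕ)} {f : ℕ × ℕ → ℝ} {M : ℕ} {δ : ℝ} (hδ : 0 ≤ δ)
    (hP : (P.card : ℝ) ≤ M ^ 2) (hf : ∑ p ∈ P, f p ^ 2 ≤ δ ^ 2) :
    ∑ p ∈ P, |f p| ≤ δ * M := by
  have h1 := sq_sum_le_card_mul_sum_sq (s := P) (f := fun p => |f p|)
  simp only [sq_abs] at h1
  have h2 : (∑ p ∈ P, |f p|) ^ 2 ≤ (δ * M) ^ 2 := by
    calc (∑ p ∈ P, |f p|) ^ 2 ≤ P.card * ∑ p ∈ P, f p ^ 2 := h1
      _ ≤ (M : ℝ) ^ 2 * δ ^ 2 :=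
        mul_le_mul hP hf (sum_nonneg fun _ _ => sq_nonneg _) (sq_nonneg _)
      _ = (δ * M) ^ 2 := by ring
  exact (sq_le_sq₀ (sum_nonneg fun _ _ => abs_nonneg _) (by positivity)).1 h2

/-- Smallness of the error terms for the shifted sequence. -/
theorem err_small (hAm : MeasurableSet A) (hA : A ⊆ Set.Ioc 0 (2 * π)) {n : ℕ → ℕ} {q : ℝ}
    (hq : 1 < q) (hpos : ∀ k, 0 < n k) (hn : ∀ k, q * (n k : ℝ) ≤ n (k + 1)) {δ : ℝ}
    (hδ : 0 < δ) :
    ∃ K : ℕ, ∀ M : ℕ, err A (fun j => n (K + j)) M ≤ δ * M ∧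
      (∑ j ∈ range M, |ac A (n (K + j))|) ^ 2 ≤ δ * M := by
  -- constants
  set C : ℝ := max 2 (q / (q - 1)) with hC
  have hC2 : 2 ≤ C := le_max_left _ _
  have hCq : q / (q - 1) ≤ C := le_max_right _ _
  have hCpos : 0 < C := by linarith
  obtain ⟨L, hL⟩ := pow_unbounded_of_one_lt (C ^ 2) hq
  have hL0 : 0 < L := by
    rcases Nat.eq_zero_or_pos L with h | h
    · rw [h, pow_zero] at hL
      nlinarith
    · exact h
  have hL0' : (0 : ℝ) < L := by exact_mod_cast hL0
  set η : ℝ := min δ ((δ / 2) ^ 2 / L) with hη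
  have hηpos : 0 < η := lt_min hδ (by positivity)
  obtain ⟨N₀, hN₀⟩ := ac_tail hAm hA hηpos
  have hsm := lac_strictMono hq hpos hn
  -- choose K with n K / C ≥ N₀
  obtain ⟨K, hK⟩ := exists_nat_ge (C * N₀)
  have hKn : ∀ k, K ≤ k → C * N₀ ≤ n k := by
    intro k hk
    have h1 : k ≤ n k := hsm.le_apply
    have h2 : (K : ℝ) ≤ n k := by exact_mod_cast hk.trans h1
    linarith
  have hKn' : ∀ k, K ≤ k → N₀ ≤ n k := by
    intro k hk
    have h1 := hKn k hk
    have h2 : (N₀ : ℝ) ≤ n k := by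
      have : (0 : ℝ) ≤ N₀ := Nat.cast_nonneg _
      nlinarith
    exact_mod_cast h2
  refine ⟨K, fun M => ⟨?_, ?_⟩⟩
  · set ν : ℕ → ℕ := fun j => n (K + j) with hν
    have hνpos : ∀ k, 0 < ν k := fun k => hpos _
    have hνn : ∀ k, q * (ν k : ℝ) ≤ ν (k + 1) := fun k => hn _
    have hνsm := lac_strictMono hq hνpos hνn
    -- difference bound
    have hdiff : ∀ j i, i < j → (ν j : ℝ) ≤ C * ((ν j - ν i : ℕ) : ℝ) := by
      intro j i hij
      have h1 : ν i < ν j := hνsm hij
      rw [Nat.cast_sub h1.le]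
      have h2 : q * (ν i : ℝ) ≤ ν j := by
        refine (hνn i).trans ?_
        exact_mod_cast hνsm.monotone (show i + 1 ≤ j by omega)
      have h3 : (q - 1) * (ν j : ℝ) ≤ q * ((ν j : ℝ) - ν i) := by linarith
      have h4 : (ν j : ℝ) ≤ q / (q - 1) * ((ν j : ℝ) - ν i) := by
        rw [div_mul_eq_mul_div, le_div_iff₀ (by linarith)]
        linarith
      refine h4.trans (mul_le_mul_of_nonneg_right hCq ?_)
      have : (ν i : ℝ) < ν j := by exact_mod_cast h1
      linarith
    rw [err_eq]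
    have b1 : ∑ p ∈ prs' M, |ac A (ν p.1 - ν p.2)| ≤ δ / 2 * M := by
      apply cs_bound (by positivity) (card_prs' M)
      have := sum_sq_pairs (A := A) hq hνpos hνn hCpos hL hL0 (prs' M)
        (fun p => ν p.1 - ν p.2) (by
          intro p hp
          rw [prs', mem_filter] at hp
          refine ⟨hdiff p.1 p.2 hp.2, ?_⟩
          have h1 : ((ν p.1 - ν p.2 : ℕ) : ℝ) ≤ ν p.1 := by exact_mod_cast Nat.sub_le _ _
          have h2 : (0 : ℝ) ≤ ν p.1 := Nat.cast_nonneg _
          show ((ν p.1 - ν p.2 : ℕ) : ℝ) ≤ C * ν p.1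
          nlinarith) (by
          intro p hp p' hp' h1 h2
          rw [prs', mem_filter] at hp hp'
          have a1 : ν p.2 < ν p.1 := hνsm hp.2
          have a2 : ν p'.2 < ν p'.1 := hνsm hp'.2
          have h2' : ν p.1 - ν p.2 = ν p'.1 - ν p'.2 := h2
          rw [← h1] at h2' a2
          have h3 : ν p.2 = ν p'.2 := by omega
          exact Prod.ext h1 (hνsm.injective h3)) (N₀ := N₀) (η := η) (by
          intro p hp
          rw [prs', mem_filter] at hp
          have h1 := hdiff p.1 p.2 hp.2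
          have h2 := hKn (K + p.1) (by omega)
          have h3 : C * (N₀ : ℝ) ≤ C * ((ν p.1 - ν p.2 : ℕ) : ℝ) := h2.trans h1
          have h4 := le_of_mul_le_mul_left h3 hCpos
          exact_mod_cast h4) hN₀
      refine this.trans ?_
      have : (L : ℝ) * η ≤ L * ((δ / 2) ^ 2 / L) :=
        mul_le_mul_of_nonneg_left (min_le_right _ _) hL0'.le
      refine this.trans_eq ?_
      field_simp
    have b2 : ∑ p ∈ prs M, |ac A (ν p.1 + ν p.2)| ≤ δ / 2 * M := by
      apply cs_bound (by positivity) (card_prs M)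
      have := sum_sq_pairs (A := A) hq hνpos hνn hCpos hL hL0 (prs M)
        (fun p => ν p.1 + ν p.2) (by
          intro p hp
          rw [prs, mem_filter] at hp
          have h1 : ν p.2 ≤ ν p.1 := hνsm.monotone hp.2
          have h1' : (ν p.2 : ℝ) ≤ ν p.1 := by exact_mod_cast h1
          have h2 : (0 : ℝ) ≤ ν p.1 := Nat.cast_nonneg _
          have h3 : (0 : ℝ) ≤ ν p.2 := Nat.cast_nonneg _
          constructor
          · show (ν p.1 : ℝ) ≤ C * ((ν p.1 + ν p.2 : ℕ) : ℝ)
            push_cast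
            nlinarith
          · show ((ν p.1 + ν p.2 : ℕ) : ℝ) ≤ C * ν p.1
            push_cast
            nlinarith) (by
          intro p hp p' hp' h1 h2
          have h2' : ν p.1 + ν p.2 = ν p'.1 + ν p'.2 := h2
          rw [← h1] at h2'
          have h3 : ν p.2 = ν p'.2 := by omega
          exact Prod.ext h1 (hνsm.injective h3)) (N₀ := N₀) (η := η) (by
          intro p hp
          have h2 := hKn' (K + p.1) (by omega)
          have h3 : N₀ ≤ ν p.1 := h2
          show N₀ ≤ ν p.1 + ν p.2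
          omega) hN₀
      refine this.trans ?_
      have : (L : ℝ) * η ≤ L * ((δ / 2) ^ 2 / L) :=
        mul_le_mul_of_nonneg_left (min_le_right _ _) hL0'.le
      refine this.trans_eq ?_
      field_simp
    linarith
  · have h1 := sq_sum_le_card_mul_sum_sq (s := range M) (f := fun j => |ac A (n (K + j))|)
    simp only [sq_abs, card_range] at h1
    have h2 : ∑ j ∈ range M, ac A (n (K + j)) ^ 2 =
        ∑ N ∈ (range M).image (fun j => n (K + j)), ac A N ^ 2 := by
      rw [sum_image]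
      intro a _ b _ hab
      have := hsm.injective hab
      omega
    have h3 : ∑ N ∈ (range M).image (fun j => n (K + j)), ac A N ^ 2 ≤ η := by
      apply hN₀
      intro N hN
      rw [mem_image] at hN
      obtain ⟨j, _, rfl⟩ := hN
      exact hKn' _ (by omega)
    rw [h2] at h1
    have hM : (0 : ℝ) ≤ M := Nat.cast_nonneg M
    calc _ ≤ (M : ℝ) * ∑ N ∈ (range M).image (fun j => n (K + j)), ac A N ^ 2 := h1
      _ ≤ M * δ := mul_le_mul_of_nonneg_left (h3.trans (min_le_left _ _)) hM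
      _ = δ * M := mul_comm _ _

end Pool.Agent.Q164.Lac
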