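import Pool.Agent.Q164.Lac3

/-!
Lacunary cosine sums are almost everywhere unbounded above and below.
-/

namespace Pool.Agent.Q164.Lac

open Real Finset MeasureTheory

theorem sum_four_le (r : ℕ) (y : ℕ → ℝ) :
    (∑ i ∈ range r, y i) ^ 4 ≤ (r : ℝ) ^ 3 * ∑ i ∈ range r, y i ^ 4 := by
  have h1 := sq_sum_le_card_mul_sum_sq (s := range r) (f := y)
  have h2 := sq_sum_le_card_mul_sum_sq (s := range r) (f := fun i => y i ^ 2)
  rw [card_range] at h1 h2
  have h3 : ∑ i ∈ range r, (y i ^ 2) ^ 2 = ∑ i ∈ range r, y i ^ 4 :=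
    sum_congr rfl fun i _ => by ring
  rw [h3] at h2
  have h4 : 0 ≤ ∑ i ∈ range r, y i ^ 2 := sum_nonneg fun _ _ => sq_nonneg _
  have hr : (0 : ℝ) ≤ r := Nat.cast_nonneg r
  calc (∑ i ∈ range r, y i) ^ 4 = ((∑ i ∈ range r, y i) ^ 2) ^ 2 := by ring
    _ ≤ (r * ∑ i ∈ range r, y i ^ 2) ^ 2 := pow_le_pow_left₀ (sq_nonneg _) h1 2
    _ = (r : ℝ) ^ 2 * (∑ i ∈ range r, y i ^ 2) ^ 2 := by ring
    _ ≤ (r : ℝ) ^ 2 * (r * ∑ i ∈ range r, y i ^ 4) := by
      apply mul_le_mul_of_nonneg_left h2 (sq_nonneg _)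
    _ = (r : ℝ) ^ 3 * ∑ i ∈ range r, y i ^ 4 := by ring

theorem cs_split (ν : ℕ → ℕ) (r M : ℕ) (x : ℝ) :
    cs ν (r * M) x = ∑ i ∈ range r, cs (fun j => ν (r * j + i)) M x := by
  unfold cs
  rw [sum_comm]
  induction M with
  | zero => simp
  | succ M ih =>
    rw [mul_add, mul_one, sum_range_add, ih, sum_range_succ _ M]

theorem fourth_general {ν : ℕ → ℕ} {q : ℝ} (hq : 1 < q) (hpos : ∀ k, 0 < ν k)
    (hn : ∀ k, q * (ν k : ℝ) ≤ ν (k + 1)) {r : ℕ} (hr : 4 < q ^ r) (M : ℕ) :
    ∫ x in (0 : ℝ)..(2 * π), cs ν (r * M) x ^ 4 ≤ 5 * π * r ^ 4 * M ^ 2 := by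
  have h1 : ∀ i, ∫ x in (0 : ℝ)..(2 * π), cs (fun j => ν (r * j + i)) M x ^ 4 ≤
      5 * π * M ^ 2 := by
    intro i
    apply fourth_moment
    · intro j
      exact hpos _
    · intro j
      have h2 := growth hq hn (r * j + i) r
      have h3 : (0 : ℝ) < ν (r * j + i) := by exact_mod_cast hpos _
      have h4 : 4 * (ν (r * j + i) : ℝ) ≤ ν (r * j + i + r) :=
        (mul_le_mul_of_nonneg_right hr.le h3.le).trans h2
      have h5 : r * (j + 1) + i = r * j + i + r := by ring
      rw [h5]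
      exact_mod_cast h4
  have h2 : ∫ x in (0 : ℝ)..(2 * π), cs ν (r * M) x ^ 4 ≤
      ∫ x in (0 : ℝ)..(2 * π), (r : ℝ) ^ 3 *
        ∑ i ∈ range r, cs (fun j => ν (r * j + i)) M x ^ 4 := by
    have hc : ∀ i, Continuous (cs (fun j => ν (r * j + i)) M) := fun i => cs_continuous _ _
    have hc' := cs_continuous ν (r * M)
    apply intervalIntegral.integral_mono_on
    · positivity
    · apply Continuous.intervalIntegrable
      fun_prop
    · apply Continuous.intervalIntegrable
      fun_prop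
    · intro x _
      rw [cs_split]
      exact sum_four_le r _
  refine h2.trans ?_
  rw [intervalIntegral.integral_const_mul, intervalIntegral.integral_finsetSum]
  · have h3 : ∑ i ∈ range r, ∫ x in (0 : ℝ)..(2 * π), cs (fun j => ν (r * j + i)) M x ^ 4 ≤
        ∑ i ∈ range r, 5 * π * (M : ℝ) ^ 2 := sum_le_sum fun i _ => h1 i
    rw [sum_const, card_range, nsmul_eq_mul] at h3
    calc _ ≤ (r : ℝ) ^ 3 * (r * (5 * π * (M : ℝ) ^ 2)) :=
          mul_le_mul_of_nonneg_left h3 (by positivity)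
      _ = 5 * π * r ^ 4 * M ^ 2 := by ring
  · intro i _
    apply Continuous.intervalIntegrable
    have := cs_continuous (fun j => ν (r * j + i)) M
    fun_prop

theorem cs_abs_le (ν : ℕ → ℕ) (M : ℕ) (x : ℝ) : |cs ν M x| ≤ M := by
  unfold cs
  refine (abs_sum_le_sum_abs _ _).trans ?_
  calc ∑ j ∈ range M, |cos (ν j * x)| ≤ ∑ j ∈ range M, (1 : ℝ) :=
        sum_le_sum fun j _ => abs_cos_le_one _
    _ = M := by simp

/-- The set where the sums stay one-sidedly bounded. -/
def Bd (n : ℕ → ℕ) (σ ξ : ℝ) (m₀ : ℕ) : Set ℝ :=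
  Set.Ioc 0 (2 * π) ∩ ⋂ m : ℕ, {x | m₀ ≤ m → σ * cs n m x ≤ ξ}

theorem Bd_meas (n : ℕ → ℕ) (σ ξ : ℝ) (m₀ : ℕ) : MeasurableSet (Bd n σ ξ m₀) := by
  apply measurableSet_Ioc.inter
  apply MeasurableSet.iInter
  intro m
  by_cases h : m₀ ≤ m
  · have : {x | m₀ ≤ m → σ * cs n m x ≤ ξ} = {x | σ * cs n m x ≤ ξ} := by
      ext x
      simp [h]
    rw [this]
    have hc := cs_continuous n m
    exact (isClosed_le (by fun_prop) continuous_const).measurableSet
  · have : {x | m₀ ≤ m → σ * cs n m x ≤ ξ} = Set.univ := by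
      ext x
      simp [h]
    rw [this]
    exact MeasurableSet.univ

theorem Bd_null {n : ℕ → ℕ} {q : ℝ} (hq : 1 < q) (hpos : ∀ k, 0 < n k)
    (hn : ∀ k, q * (n k : ℝ) ≤ n (k + 1)) {σ : ℝ} (hσ : σ = 1 ∨ σ = -1) (ξ : ℝ) (m₀ : ℕ) :
    volume (Bd n σ ξ m₀) = 0 := by
  by_contra hne
  set A := Bd n σ ξ m₀ with hAdef
  have hAm : MeasurableSet A := Bd_meas n σ ξ m₀
  have hA : A ⊆ Set.Ioc 0 (2 * π) := Set.inter_subset_left
  have hfin : volume A ≠ ⊤ := by
    apply ne_top_of_le_ne_top _ (measure_mono hA)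
    rw [Real.volume_Ioc]
    exact ENNReal.ofReal_ne_top
  set α := volume.real A with hα
  have hαpos : 0 < α := ENNReal.toReal_pos hne hfin
  have hα2 : α ≤ 2 * π := volume_real_le hA
  have hpi := Real.pi_pos
  obtain ⟨r, hr⟩ := pow_unbounded_of_one_lt 4 hq
  have hr0 : 0 < r := by
    rcases Nat.eq_zero_or_pos r with h | h
    · rw [h, pow_zero] at hr
      norm_num at hr
    · exact h
  have hr1 : (1 : ℝ) ≤ r := by exact_mod_cast hr0
  set E : ℝ := 5 * π * r ^ 4 with hE
  have hEpos : 0 < E := by positivity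
  set T : ℝ := 16 * E / α + 1 with hT
  have hT1 : 1 ≤ T := by
    rw [hT]
    have : 0 < 16 * E / α := by positivity
    linarith
  have hTpos : 0 < T := by linarith
  have hTE : E / T ^ 2 ≤ α / 16 := by
    rw [div_le_iff₀ (by positivity)]
    have h1 : 16 * E / α ≤ T ^ 2 := by nlinarith
    rw [div_le_iff₀ hαpos] at h1
    linarith
  set δ : ℝ := min (α / 16) ((α / (16 * T)) ^ 2) / r with hδ
  have hδpos : 0 < δ := by
    rw [hδ]
    apply div_pos _ (by linarith)
    apply lt_min <;> positivity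
  have hδ1 : δ * r ≤ α / 16 := by
    rw [hδ, div_mul_cancel₀ _ (by linarith)]
    exact min_le_left _ _
  have hδ2 : δ * r ≤ (α / (16 * T)) ^ 2 := by
    rw [hδ, div_mul_cancel₀ _ (by linarith)]
    exact min_le_right _ _
  obtain ⟨K, hK⟩ := err_small hAm hA hq hpos hn hδpos
  set b : ℝ := |ξ| + K with hb
  have hb0 : 0 ≤ b := by positivity
  set B : ℝ := 2 * b * (2 * π) with hB
  have hB0 : 0 ≤ B := by positivity
  obtain ⟨s, hs⟩ := exists_nat_ge (max (16 * T * B / α) (max m₀ 1))
  have hs1 : 16 * T * B / α ≤ s := (le_max_left _ _).trans hs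
  have hs2 : (m₀ : ℝ) ≤ s := ((le_max_left _ _).trans (le_max_right _ _)).trans hs
  have hs3 : (1 : ℝ) ≤ s := ((le_max_right _ _).trans (le_max_right _ _)).trans hs
  have hs2' : m₀ ≤ s := by exact_mod_cast hs2
  have hs3' : 1 ≤ s := by exact_mod_cast hs3
  rw [div_le_iff₀ hαpos] at hs1
  set ν : ℕ → ℕ := fun j => n (K + j) with hν
  have hνpos : ∀ k, 0 < ν k := fun k => hpos _
  have hνn : ∀ k, q * (ν k : ℝ) ≤ ν (k + 1) := fun k => hn _
  set M := r * s ^ 2 with hM
  obtain ⟨k1, k2⟩ := hK M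
  have hMcast : (M : ℝ) = r * (s : ℝ) ^ 2 := by
    rw [hM]
    push_cast
    ring
  have hc := cs_continuous ν M
  -- second moment
  have m1 := second_moment_set hA (lac_mono hq hνn) M
  rw [← hα] at m1
  -- fourth moment
  have m2 : ∫ x in A, cs ν M x ^ 4 ≤ E * (s : ℝ) ^ 4 := by
    refine (setIntegral_le_full hAm hA (by fun_prop) fun x => by positivity).trans ?_
    have := fourth_general hq hνpos hνn hr (s ^ 2)
    rw [← hM] at this
    refine this.trans_eq ?_
    push_cast
    ring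
  -- first absolute moment
  have m3 : |∫ x in A, cs ν M x| ≤ α / (16 * T) * s := by
    rw [setIntegral_cs hA]
    refine (abs_sum_le_sum_abs _ _).trans ?_
    have h1 : (∑ j ∈ range M, |ac A (ν j)|) ^ 2 ≤ (α / (16 * T) * s) ^ 2 := by
      refine k2.trans ?_
      rw [hMcast, mul_pow, ← mul_assoc]
      exact mul_le_mul_of_nonneg_right hδ2 (sq_nonneg _)
    exact (sq_le_sq₀ (sum_nonneg fun _ _ => abs_nonneg _) (by positivity)).1 h1
  have m4 : ∫ x in A, |cs ν M x| ≤ B + α / (16 * T) * s := by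
    have h1 : ∫ x in A, |cs ν M x| ≤ ∫ x in A, (2 * b - σ * cs ν M x) := by
      apply setIntegral_mono_on
      · apply intOn hA
        fun_prop
      · apply intOn hA
        fun_prop
      · exact hAm
      · intro x hx
        have hx2 : ∀ m, m₀ ≤ m → σ * cs n m x ≤ ξ := by
          intro m
          exact Set.mem_iInter.1 hx.2 m
        have h2 := hx2 (K + M) (by
          have : s ≤ s ^ 2 := by nlinarith
          have : s ^ 2 ≤ r * s ^ 2 := Nat.le_mul_of_pos_left _ hr0
          omega)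
        have h3 : cs n (K + M) x = cs n K x + cs ν M x := by
          unfold cs
          rw [sum_range_add]
        rw [h3, mul_add] at h2
        have h4 := abs_le.1 (cs_abs_le n K x)
        have h5 := le_abs_self ξ
        have h6 : σ * cs ν M x ≤ b := by
          rcases hσ with rfl | rfl <;> rw [hb] <;> linarith [h4.1, h4.2]
        rcases hσ with rfl | rfl
        · rw [abs_le]
          constructor <;> linarith
        · rw [abs_le]
          constructor <;> linarith
    refine h1.trans ?_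
    rw [integral_sub, setIntegral_const, integral_const_mul, smul_eq_mul, ← hα]
    · have h2 : α * (2 * b) ≤ B := by
        rw [hB]
        nlinarith
      have h3 := abs_le.1 m3
      rcases hσ with rfl | rfl <;> linarith [h3.1, h3.2]
    · apply intOn hA
      fun_prop
    · apply intOn hA
      fun_prop
  -- pointwise inequality
  set t : ℝ := T * s with ht
  have htpos : 0 < t := by positivity
  have m5 : ∫ x in A, cs ν M x ^ 2 ≤ t * (∫ x in A, |cs ν M x|) + 1 / t ^ 2 *
      ∫ x in A, cs ν M x ^ 4 := by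
    rw [← integral_const_mul, ← integral_const_mul, ← integral_add]
    · apply setIntegral_mono_on
      · apply intOn hA
        fun_prop
      · apply intOn hA
        fun_prop
      · exact hAm
      · intro x _
        set S := cs ν M x with hS
        rcases le_total |S| t with h | h
        · have h1 : S ^ 2 ≤ t * |S| := by
            rw [← sq_abs, sq]
            exact mul_le_mul_of_nonneg_right h (abs_nonneg _)
          have h2 : 0 ≤ 1 / t ^ 2 * S ^ 4 := by positivity
          linarith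
        · have h1 : t ^ 2 ≤ S ^ 2 := by
            rw [← sq_abs S]
            exact pow_le_pow_left₀ htpos.le h 2
          have h2 : S ^ 2 ≤ 1 / t ^ 2 * S ^ 4 := by
            rw [one_div, inv_mul_eq_div, le_div_iff₀ (by positivity)]
            have : S ^ 4 = S ^ 2 * S ^ 2 := by ring
            rw [this]
            exact mul_le_mul_of_nonneg_left h1 (sq_nonneg _)
          have h3 : 0 ≤ t * |S| := by positivity
          linarith
    · apply intOn hA
      fun_prop
    · apply intOn hA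
      fun_prop
  -- conclusion
  have f1 : 1 / t ^ 2 * ∫ x in A, cs ν M x ^ 4 ≤ α / 16 * s ^ 2 := by
    calc 1 / t ^ 2 * ∫ x in A, cs ν M x ^ 4 ≤ 1 / t ^ 2 * (E * (s : ℝ) ^ 4) :=
          mul_le_mul_of_nonneg_left m2 (by positivity)
      _ = E / T ^ 2 * s ^ 2 := by
        rw [ht]
        field_simp
      _ ≤ α / 16 * s ^ 2 := mul_le_mul_of_nonneg_right hTE (sq_nonneg _)
  have f2 : t * (∫ x in A, |cs ν M x|) ≤ α / 16 * s ^ 2 + α / 16 * s ^ 2 := by
    calc t * (∫ x in A, |cs ν M x|) ≤ t * (B + α / (16 * T) * s) :=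
          mul_le_mul_of_nonneg_left m4 htpos.le
      _ = T * B * s + α / 16 * s ^ 2 := by
        rw [ht]
        field_simp
      _ ≤ α / 16 * s ^ 2 + α / 16 * s ^ 2 := by
        have : T * B ≤ α / 16 * s := by linarith
        have := mul_le_mul_of_nonneg_right this (by positivity : (0 : ℝ) ≤ s)
        nlinarith
  have f3 : δ * M ≤ α / 16 * s ^ 2 := by
    rw [hMcast, ← mul_assoc]
    exact mul_le_mul_of_nonneg_right hδ1 (sq_nonneg _)
  have f4 : α / 2 * (s : ℝ) ^ 2 ≤ α / 2 * M := by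
    apply mul_le_mul_of_nonneg_left _ (by positivity)
    rw [hMcast]
    nlinarith [sq_nonneg (s : ℝ)]
  have f5 : 0 < α * (s : ℝ) ^ 2 := by positivity
  nlinarith

end Pool.Agent.Q164.Lac
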