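import Pool.Agent.Q164.Lac4
import Mathlib.MeasureTheory.Covering.Besicovitch
import Mathlib.MeasureTheory.Covering.BesicovitchVectorSpace

/-!
Partial sums of lacunary cosine series accumulate at every real number, almost everywhere.
-/

namespace Pool.Agent.Q164.Lac

open Real Finset MeasureTheory Filter Topology

/-- The crossing lemma. -/
theorem crossing {n : ℕ → ℕ} (hpos : ∀ k, 0 < n k) {x ξ : ℝ} {k : ℕ} (h1 : cs n k x < ξ)
    (h2 : ξ ≤ cs n (k + 1) x) :
    ∃ x', |x' - x| ≤ π / n k ∧ ∃ k', (k' = k ∨ k' = k + 1) ∧ cs n k' x' = ξ := by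
  have hpi := Real.pi_pos
  have hnk : (0 : ℝ) < n k := by exact_mod_cast hpos k
  have hr : 0 ≤ π / n k := by positivity
  set J := Set.Icc (x - π / n k) (x + π / n k) with hJ
  have hxJ : x ∈ J := ⟨by linarith, by linarith⟩
  have hJp : IsPreconnected J := isPreconnected_Icc
  have habs : ∀ y ∈ J, |y - x| ≤ π / n k := by
    intro y hy
    rw [abs_le]
    constructor <;> linarith [hy.1, hy.2]
  by_cases hex : ∃ y ∈ J, ξ ≤ cs n k y
  · obtain ⟨y, hy, hξ⟩ := hex
    have h := hJp.intermediate_value hxJ hy (cs_continuous n k).continuousOn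
    obtain ⟨x', hx', hx'2⟩ := h ⟨h1.le, hξ⟩
    exact ⟨x', habs x' hx', k, Or.inl rfl, hx'2⟩
  · push Not at hex
    -- a point with cosine -1
    set j : ℤ := round ((n k * x - π) / (2 * π)) with hj
    set y : ℝ := (π + 2 * π * j) / n k with hy
    have hround := abs_sub_round ((n k * x - π) / (2 * π))
    rw [← hj] at hround
    have hyJ : y ∈ J := by
      have h3 : |n k * x - π - 2 * π * j| ≤ π := by
        have : n k * x - π - 2 * π * j = (2 * π) * ((n k * x - π) / (2 * π) - j) := by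
          field_simp
        rw [this, abs_mul, abs_of_pos (by positivity : (0 : ℝ) < 2 * π)]
        nlinarith
      rw [abs_le] at h3
      have h4 : n k * y = π + 2 * π * j := by
        rw [hy]
        field_simp
      constructor
      · rw [sub_le_iff_le_add, ← sub_le_iff_le_add', le_div_iff₀ hnk]
        linarith [h3.1, h3.2]
      · rw [← sub_le_iff_le_add', le_div_iff₀ hnk]
        linarith [h3.1, h3.2]
    have hcos : cos (n k * y) = -1 := by
      have h4 : n k * y = π + j * (2 * π) := by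
        rw [hy]
        field_simp
      rw [h4, Real.cos_add_int_mul_two_pi, Real.cos_pi]
    have h5 : cs n (k + 1) y ≤ ξ := by
      rw [cs_succ, hcos]
      linarith [hex y hyJ]
    have h := hJp.intermediate_value hyJ hxJ (cs_continuous n (k + 1)).continuousOn
    obtain ⟨x', hx', hx'2⟩ := h ⟨h5, h2⟩
    exact ⟨x', habs x' hx', k + 1, Or.inr rfl, hx'2⟩

theorem sum_le_lac {n : ℕ → ℕ} {q : ℝ} (hq : 1 < q)
    (hn : ∀ k, q * (n k : ℝ) ≤ n (k + 1)) (k : ℕ) :
    ∑ j ∈ range (k + 1), (n j : ℝ) ≤ q / (q - 1) * n k := by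
  have hq1 : 0 < q - 1 := by linarith
  induction k with
  | zero =>
    rw [sum_range_one]
    have h1 : 1 ≤ q / (q - 1) := by
      rw [le_div_iff₀ hq1]
      linarith
    have h2 : (0 : ℝ) ≤ n 0 := Nat.cast_nonneg _
    nlinarith
  | succ k ih =>
    rw [sum_range_succ]
    have h1 : q / (q - 1) * (n k : ℝ) ≤ 1 / (q - 1) * n (k + 1) := by
      have := hn k
      rw [div_mul_eq_mul_div, div_mul_eq_mul_div, one_mul]
      exact div_le_div_of_nonneg_right this hq1.le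
    have h2 : q / (q - 1) * (n (k + 1) : ℝ) = 1 / (q - 1) * n (k + 1) + n (k + 1) := by
      field_simp
      ring
    rw [h2]
    linarith

theorem cs_lipschitz (n : ℕ → ℕ) (m : ℕ) (x y : ℝ) :
    |cs n m x - cs n m y| ≤ (∑ j ∈ range m, (n j : ℝ)) * |x - y| := by
  unfold cs
  rw [← sum_sub_distrib, sum_mul]
  refine (abs_sum_le_sum_abs _ _).trans (sum_le_sum fun j _ => ?_)
  have h := Real.abs_cos_sub_cos_le (n j * x) (n j * y)
  rw [← mul_sub, abs_mul (n j : ℝ), Nat.abs_cast] at h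
  exact h

theorem cs_lip' {n : ℕ → ℕ} {q : ℝ} (hq : 1 < q)
    (hn : ∀ k, q * (n k : ℝ) ≤ n (k + 1)) {k k' : ℕ} (hk : k' = k ∨ k' = k + 1) (x y : ℝ) :
    |cs n k' x - cs n k' y| ≤ q / (q - 1) * n k * |x - y| := by
  refine (cs_lipschitz n k' x y).trans ?_
  apply mul_le_mul_of_nonneg_right _ (abs_nonneg _)
  refine le_trans ?_ (sum_le_lac hq hn k)
  apply sum_le_sum_of_subset_of_nonneg
  · intro j hj
    rw [mem_range] at hj ⊢
    omega
  · intro j _ _
    exact Nat.cast_nonneg _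

/-- The exceptional set. -/
def Dv (n : ℕ → ℕ) (ξ ε : ℝ) (m₀ : ℕ) : Set ℝ := ⋂ m : ℕ, {x | m₀ ≤ m → ε ≤ |cs n m x - ξ|}

theorem Dv_meas (n : ℕ → ℕ) (ξ ε : ℝ) (m₀ : ℕ) : MeasurableSet (Dv n ξ ε m₀) := by
  apply MeasurableSet.iInter
  intro m
  by_cases h : m₀ ≤ m
  · have : {x | m₀ ≤ m → ε ≤ |cs n m x - ξ|} = {x | ε ≤ |cs n m x - ξ|} := by
      ext x
      simp [h]
    rw [this]
    have hc := cs_continuous n m
    exact (isClosed_le continuous_const (by fun_prop)).measurableSet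
  · have : {x | m₀ ≤ m → ε ≤ |cs n m x - ξ|} = Set.univ := by
      ext x
      simp [h]
    rw [this]
    exact MeasurableSet.univ

theorem ae_oscillate {n : ℕ → ℕ} {q : ℝ} (hq : 1 < q) (hpos : ∀ k, 0 < n k)
    (hn : ∀ k, q * (n k : ℝ) ≤ n (k + 1)) (ξ : ℝ) :
    ∀ᵐ x : ℝ, x ∈ Set.Ioc 0 (2 * π) →
      ∀ m₀, (∃ m, m₀ ≤ m ∧ ξ < cs n m x) ∧ (∃ m, m₀ ≤ m ∧ cs n m x < ξ) := by
  have h1 : ∀ m₀, ∀ᵐ x : ℝ, x ∉ Bd n 1 ξ m₀ := fun m₀ =>
    measure_eq_zero_iff_ae_notMem.1 (Bd_null hq hpos hn (Or.inl rfl) ξ m₀)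
  have h2 : ∀ m₀, ∀ᵐ x : ℝ, x ∉ Bd n (-1) (-ξ) m₀ := fun m₀ =>
    measure_eq_zero_iff_ae_notMem.1 (Bd_null hq hpos hn (Or.inr rfl) (-ξ) m₀)
  filter_upwards [ae_all_iff.2 h1, ae_all_iff.2 h2] with x hx1 hx2 hx m₀
  constructor
  · by_contra hcon
    push Not at hcon
    apply hx1 m₀
    refine ⟨hx, Set.mem_iInter.2 fun m hm => ?_⟩
    rw [one_mul]
    exact hcon m hm
  · by_contra hcon
    push Not at hcon
    apply hx2 m₀
    refine ⟨hx, Set.mem_iInter.2 fun m hm => ?_⟩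
    have := hcon m hm
    linarith

theorem exists_upcrossing {f : ℕ → ℝ} {ξ : ℝ} (R : ℕ)
    (h : ∀ m₀, (∃ m, m₀ ≤ m ∧ ξ < f m) ∧ (∃ m, m₀ ≤ m ∧ f m < ξ)) :
    ∃ k, R ≤ k ∧ f k < ξ ∧ ξ ≤ f (k + 1) := by
  obtain ⟨a, ha1, ha2⟩ := (h R).2
  have hex : ∃ d, ξ ≤ f (a + d) := by
    obtain ⟨m, hm1, hm2⟩ := (h a).1
    exact ⟨m - a, by rw [show a + (m - a) = m by omega]; exact hm2.le⟩
  classical
  have hd := Nat.find_spec hex
  have hmin := fun m => Nat.find_min hex (m := m)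
  set d := Nat.find hex with hdd
  have hd0 : d ≠ 0 := by
    intro h0
    rw [h0, add_zero] at hd
    linarith
  refine ⟨a + (d - 1), by omega, ?_, ?_⟩
  · have := hmin (d - 1) (by omega)
    push Not at this
    exact this
  · rw [show a + (d - 1) + 1 = a + d by omega]
    exact hd

theorem ae_notMem_Dv {n : ℕ → ℕ} {q : ℝ} (hq : 1 < q) (hpos : ∀ k, 0 < n k)
    (hn : ∀ k, q * (n k : ℝ) ≤ n (k + 1)) (ξ : ℝ) {ε : ℝ} (hε : 0 < ε) (m₀ : ℕ) :
    ∀ᵐ x : ℝ, x ∈ Set.Ioc 0 (2 * π) → x ∉ Dv n ξ ε m₀ := by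
  have hpi := Real.pi_pos
  filter_upwards [ae_oscillate hq hpos hn ξ,
    Besicovitch.ae_tendsto_measure_inter_div_of_measurableSet volume (Dv_meas n ξ ε m₀)]
    with x hx1 hx2 hx hxD
  rw [Set.indicator_of_mem hxD, Pi.one_apply] at hx2
  have hosc := hx1 hx
  have hq1 : 0 < q - 1 := by linarith
  set C := q / (q - 1) with hC
  have hCpos : 0 < C := by positivity
  set p : ℝ := (ε / C) / (π + ε / C) with hp
  have hp0 : 0 < p := by positivity
  have hp1 : p < 1 := by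
    rw [hp, div_lt_one (by positivity)]
    linarith
  have hev : ∀ᶠ r in 𝓝[>] (0 : ℝ), ENNReal.ofReal (1 - p) <
      volume (Dv n ξ ε m₀ ∩ Metric.closedBall x r) / volume (Metric.closedBall x r) := by
    apply hx2.eventually
    apply lt_mem_nhds
    rw [← ENNReal.ofReal_one]
    exact (ENNReal.ofReal_lt_ofReal_iff one_pos).2 (by linarith)
  rw [eventually_nhdsWithin_iff, Metric.eventually_nhds_iff] at hev
  obtain ⟨r₀, hr₀, hev⟩ := hev
  -- choose k large
  have hsm := lac_strictMono hq hpos hn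
  obtain ⟨R, hR⟩ := exists_nat_gt ((π + ε / C) / r₀)
  obtain ⟨k, hk1, hk2, hk3⟩ := exists_upcrossing (max R m₀) hosc
  have hkR : R ≤ k := (le_max_left _ _).trans hk1
  have hkm : m₀ ≤ k := (le_max_right _ _).trans hk1
  have hnk : (0 : ℝ) < n k := by exact_mod_cast hpos k
  set r : ℝ := (π + ε / C) / n k with hr
  have hrpos : 0 < r := by positivity
  have hr1 : r < r₀ := by
    rw [hr, div_lt_iff₀ hnk]
    rw [div_lt_iff₀ hr₀] at hR
    have h3 : (R : ℝ) ≤ n k := by exact_mod_cast hkR.trans hsm.le_apply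
    nlinarith
  have hlt := hev (y := r) (by
    rw [Real.dist_eq, sub_zero, abs_of_pos hrpos]
    exact hr1) hrpos
  obtain ⟨x', hx'1, k', hk', hx'2⟩ := crossing hpos hk2 hk3
  set ρ : ℝ := (ε / C) / n k with hρ
  have hρpos : 0 < ρ := by positivity
  have hrρ : r = π / n k + ρ := by
    rw [hr, hρ, add_div]
  -- the ball around x' is disjoint from D
  have hdisj : ∀ y ∈ Metric.ball x' ρ, y ∉ Dv n ξ ε m₀ := by
    intro y hy hyD
    rw [Metric.mem_ball, Real.dist_eq] at hy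
    have h1 := Set.mem_iInter.1 hyD k' (by omega)
    have h2 := cs_lip' hq hn hk' y x'
    rw [hx'2] at h2
    have h3 : C * n k * |y - x'| < ε := by
      calc C * n k * |y - x'| < C * n k * ρ := mul_lt_mul_of_pos_left hy (by positivity)
        _ = ε := by
          rw [hρ]
          field_simp
    linarith
  have hsub : Metric.ball x' ρ ⊆ Metric.closedBall x r := by
    intro y hy
    rw [Metric.mem_ball, Real.dist_eq] at hy
    rw [Metric.mem_closedBall, Real.dist_eq, hrρ]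
    have := abs_add_le (y - x') (x' - x)
    rw [sub_add_sub_cancel] at this
    linarith
  have hmeas : volume (Dv n ξ ε m₀ ∩ Metric.closedBall x r) ≤ ENNReal.ofReal (2 * r - 2 * ρ) := by
    have h1 : Dv n ξ ε m₀ ∩ Metric.closedBall x r ⊆ Metric.closedBall x r \ Metric.ball x' ρ := by
      rintro y ⟨hy1, hy2⟩
      exact ⟨hy2, fun h => hdisj y h hy1⟩
    refine (measure_mono h1).trans ?_
    rw [measure_sdiff hsub Metric.isOpen_ball.measurableSet.nullMeasurableSet,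
      Real.volume_closedBall, Real.volume_ball, ← ENNReal.ofReal_sub _ (by positivity)]
    rw [Real.volume_ball]
    exact ENNReal.ofReal_ne_top
  have hle : volume (Dv n ξ ε m₀ ∩ Metric.closedBall x r) / volume (Metric.closedBall x r) ≤
      ENNReal.ofReal (1 - p) := by
    rw [Real.volume_closedBall]
    refine (ENNReal.div_le_div_right hmeas _).trans ?_
    rw [← ENNReal.ofReal_div_of_pos (by positivity)]
    apply ENNReal.ofReal_le_ofReal
    apply le_of_eq
    rw [hr, hρ, hp]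
    field_simp
  exact absurd hlt (not_lt.2 hle)

theorem ae_dense {n : ℕ → ℕ} {q : ℝ} (hq : 1 < q) (hpos : ∀ k, 0 < n k)
    (hn : ∀ k, q * (n k : ℝ) ≤ n (k + 1)) :
    ∀ᵐ x : ℝ, x ∈ Set.Ioc 0 (2 * π) →
      ∀ ξ ε : ℝ, 0 < ε → ∃ᶠ m in atTop, |cs n m x - ξ| < ε := by
  have h : ∀ (a b : ℚ) (m₀ : ℕ), ∀ᵐ x : ℝ, 0 < (b : ℝ) → x ∈ Set.Ioc 0 (2 * π) →
      x ∉ Dv n a b m₀ := by
    intro a b m₀
    by_cases hb : 0 < (b : ℝ)
    · filter_upwards [ae_notMem_Dv hq hpos hn (a : ℝ) hb m₀] with x hx _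
      exact hx
    · exact Eventually.of_forall fun x h => absurd h hb
  have h' : ∀ᵐ x : ℝ, ∀ (a b : ℚ) (m₀ : ℕ), 0 < (b : ℝ) → x ∈ Set.Ioc 0 (2 * π) →
      x ∉ Dv n a b m₀ := by
    rw [ae_all_iff]
    intro a
    rw [ae_all_iff]
    intro b
    rw [ae_all_iff]
    intro m₀
    exact h a b m₀
  filter_upwards [h'] with x hx hxI ξ ε hε
  obtain ⟨a, ha1, ha2⟩ := exists_rat_btwn (show ξ < ξ + ε / 2 by linarith)
  obtain ⟨b, hb1, hb2⟩ := exists_rat_btwn (show (0 : ℝ) < ε / 2 by linarith)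
  rw [frequently_atTop]
  intro m₀
  have h1 := hx a b m₀ hb1 hxI
  rw [Dv, Set.mem_iInter] at h1
  push Not at h1
  obtain ⟨m, hm⟩ := h1
  have hm' : ¬ (m₀ ≤ m → (b : ℝ) ≤ |cs n m x - a|) := hm
  push Not at hm'
  refine ⟨m, hm'.1, ?_⟩
  have h2 := hm'.2
  rw [abs_lt] at h2 ⊢
  constructor <;> linarith [h2.1, h2.2]

end Pool.Agent.Q164.Lac
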