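import Pool.Agent.Q164.MSeq

/-!
The Legendre operator on monomials, the operator with eigenvalues `2 k + 1`, and the asymptotics of
the coefficients of `T[((1 + x) / 2) ^ M]`.
-/

namespace Pool.Agent.Q164.Leg

open Polynomial Finset Filter Topology

/-! ### The numbers `ν_{M,j}` -/

/-- `∏_{i<r} (i - 1/2)` -/
noncomputable def aa (r : ℕ) : ℝ := ∏ i ∈ range r, ((i : ℝ) - 1 / 2)
/-- `∏_{i<r} (j + 3/2 + i)` -/
noncomputable def bb (j r : ℕ) : ℝ := ∏ i ∈ range r, ((j : ℝ) + 3 / 2 + i)

theorem aa_ne (r : ℕ) : aa r ≠ 0 := by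
  rw [aa, prod_ne_zero_iff]
  intro i _ h
  have h2 : (2 * i : ℝ) = 1 := by linarith
  have h3 : 2 * i = 1 := by exact_mod_cast h2
  omega

theorem bb_pos (j r : ℕ) : 0 < bb j r := by
  rw [bb]
  apply prod_pos
  intro i _
  positivity

theorem bb_succ (j r : ℕ) : bb j (r + 1) = bb j r * ((j : ℝ) + 3 / 2 + r) := by
  rw [bb, prod_range_succ, bb]

theorem bb_shift (j r : ℕ) : bb (j + 1) r * ((j : ℝ) + 3 / 2) = bb j r * ((j : ℝ) + 3 / 2 + r) := by
  rw [← bb_succ, bb, bb, prod_range_succ']
  congr 1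
  · apply prod_congr rfl
    intro i _
    push_cast
    ring
  · simp

/-- `V j r = ν_{j+r,j}`. -/
noncomputable def V (j r : ℕ) : ℝ :=
  (2 * ((j : ℝ) + r) + 1) * ((j + r).choose j : ℝ) * aa r / bb j r

theorem choose_a (j r : ℕ) : (((j + (r + 1)).choose j : ℕ) : ℝ) * (r + 1) =
    ((j + r).choose j : ℝ) * (j + r + 1) := by
  have h := Nat.add_one_mul_choose_eq (j + r) r
  have h1 : (j + r).choose r = (j + r).choose j := by
    rw [← Nat.choose_symm_add]
  have h2 : (j + r + 1).choose (r + 1) = (j + (r + 1)).choose j := by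
    rw [show j + r + 1 = j + (r + 1) by omega, ← Nat.choose_symm_add]
  rw [h1, h2] at h
  have h3 : (((j + r + 1 : ℕ) : ℝ)) * ((j + r).choose j : ℝ) =
      ((j + (r + 1)).choose j : ℝ) * ((r + 1 : ℕ) : ℝ) := by exact_mod_cast h
  push_cast at h3
  linarith

theorem choose_b (j r : ℕ) : (((j + 1 + r).choose (j + 1) : ℕ) : ℝ) * (j + 1) =
    ((j + r).choose j : ℝ) * (j + r + 1) := by
  have h := Nat.add_one_mul_choose_eq (j + r) j
  rw [show j + r + 1 = j + 1 + r by omega] at h
  have h3 : (((j + 1 + r : ℕ) : ℝ)) * ((j + r).choose j : ℝ) =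
      ((j + 1 + r).choose (j + 1) : ℝ) * ((j + 1 : ℕ) : ℝ) := by exact_mod_cast h
  push_cast at h3
  linarith

/-- The recursion expressing the commutation with the Legendre operator. -/
theorem V_rec (j r : ℕ) : ((j : ℝ) + r + 1) ^ 2 * V j r =
    (r + 1) * (2 * j + r + 2) * V j (r + 1) + ((j : ℝ) + 1) ^ 2 * V (j + 1) r := by
  have hb := bb_pos j r
  have hb' := bb_pos (j + 1) r
  set c : ℝ := ((j + r).choose j : ℝ) with hc
  have h1 : V j (r + 1) = (((j + (r + 1)).choose j : ℕ) : ℝ) * aa r * (2 * r - 1) / bb j r := by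
    have : (0 : ℝ) < (j : ℝ) + 3 / 2 + r := by positivity
    rw [V, bb_succ, aa, prod_range_succ, ← aa]
    push_cast
    field_simp
    ring
  have h2 : V (j + 1) r = (((j + 1 + r).choose (j + 1) : ℕ) : ℝ) * aa r * (2 * j + 3) / bb j r := by
    have h3 := bb_shift j r
    have h4 : (0 : ℝ) < (j : ℝ) + 3 / 2 := by positivity
    have h5 : (0 : ℝ) < (j : ℝ) + 3 / 2 + r := by positivity
    have h6 : bb (j + 1) r = bb j r * ((j : ℝ) + 3 / 2 + r) / ((j : ℝ) + 3 / 2) := by
      rw [eq_div_iff h4.ne']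
      exact h3
    rw [V, h6]
    push_cast
    field_simp
    ring
  have ca := choose_a j r
  have cb := choose_b j r
  rw [← hc] at ca cb
  have hV : V j r = (2 * ((j : ℝ) + r) + 1) * c * aa r / bb j r := rfl
  rw [h1, h2, hV]
  have e : ((r : ℝ) + 1) * (2 * j + r + 2) *
        ((((j + (r + 1)).choose j : ℕ) : ℝ) * aa r * (2 * r - 1) / bb j r) +
      ((j : ℝ) + 1) ^ 2 * ((((j + 1 + r).choose (j + 1) : ℕ) : ℝ) * aa r * (2 * j + 3) / bb j r) =
      (((((j + (r + 1)).choose j : ℕ) : ℝ) * (r + 1)) * ((2 * j + r + 2) * (2 * r - 1)) +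
        ((((j + 1 + r).choose (j + 1) : ℕ) : ℝ) * (j + 1)) * ((j + 1) * (2 * j + 3))) *
          (aa r / bb j r) := by
    ring
  rw [e, ca, cb]
  ring

/-- `ν_{M,j}`. -/
noncomputable def nu (M j : ℕ) : ℝ := if j ≤ M then V j (M - j) else 0

theorem nu_rec (M j : ℕ) : ((M : ℝ) + 1) * (M + 2) * nu (M + 1) j - ((M : ℝ) + 1) ^ 2 * nu M j =
    (j : ℝ) * (j + 1) * nu (M + 1) j - ((j : ℝ) + 1) ^ 2 * nu (M + 1) (j + 1) := by
  rcases lt_trichotomy j (M + 1) with h | h | h
  · obtain ⟨r, rfl⟩ : ∃ r, M = j + r := ⟨M - j, by omega⟩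
    have h1 : nu (j + r) j = V j r := by
      rw [nu, if_pos (by omega)]
      congr 1
      omega
    have h2 : nu (j + r + 1) j = V j (r + 1) := by
      rw [nu, if_pos (by omega)]
      congr 1
      omega
    have h3 : nu (j + r + 1) (j + 1) = V (j + 1) r := by
      rw [nu, if_pos (by omega)]
      congr 1
      omega
    have := V_rec j r
    rw [h1, h2, h3]
    push_cast
    linear_combination -this
  · subst h
    have h1 : nu M (M + 1) = 0 := by rw [nu, if_neg (by omega)]
    have h2 : nu (M + 1) (M + 1 + 1) = 0 := by rw [nu, if_neg (by omega)]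
    rw [h1, h2]
    push_cast
    ring
  · have h1 : nu M j = 0 := by rw [nu, if_neg (by omega)]
    have h2 : nu (M + 1) j = 0 := by rw [nu, if_neg (by omega)]
    have h3 : nu (M + 1) (j + 1) = 0 := by rw [nu, if_neg (by omega)]
    rw [h1, h2, h3]
    ring

theorem nu_self (M : ℕ) : nu M M = 2 * M + 1 := by
  rw [nu, if_pos le_rfl, Nat.sub_self, V]
  simp [aa, bb]

/-! ### Operators -/

/-- The Legendre operator in the variable `z = (1 + x) / 2`. -/
noncomputable def Lam : ℝ[X] →ₗ[ℝ] ℝ[X] :=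
  derivative ∘ₗ LinearMap.mulLeft ℝ (X ^ 2 - X) ∘ₗ derivative

theorem Lam_apply (f : ℝ[X]) : Lam f = derivative ((X ^ 2 - X) * derivative f) := rfl

theorem coeff_Lam (f : ℝ[X]) (j : ℕ) : (Lam f).coeff j =
    (j : ℝ) * (j + 1) * f.coeff j - ((j : ℝ) + 1) ^ 2 * f.coeff (j + 1) := by
  rw [Lam_apply, coeff_derivative]
  have h : ((X ^ 2 - X) * derivative f).coeff (j + 1) =
      j * f.coeff j - (j + 1) * f.coeff (j + 1) := by
    have e : (X ^ 2 - X) * derivative f = X * (X * derivative f) - X * derivative f := by ring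
    rw [e, coeff_sub, coeff_X_mul, coeff_X_mul, coeff_derivative]
    cases j with
    | zero => simp
    | succ j =>
      rw [coeff_X_mul, coeff_derivative]
      push_cast
      ring
  rw [h]
  ring

/-- The operator with `Z ^ M ↦ ∑ ν_{M,j} Z ^ j`. -/
noncomputable def Nop : ℝ[X] →ₗ[ℝ] ℝ[X] :=
  Polynomial.lsum fun M => LinearMap.toSpanSingleton ℝ ℝ[X] (∑ j ∈ range (M + 1), C (nu M j) * X ^ j)

theorem Nop_X_pow (M : ℕ) : Nop (X ^ M) = ∑ j ∈ range (M + 1), C (nu M j) * X ^ j := by
  rw [Nop, lsum_apply, X_pow_eq_monomial, sum_monomial_index]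
  · simp
  · simp

theorem coeff_Nop_X_pow (M j : ℕ) : (Nop (X ^ M)).coeff j = nu M j := by
  rw [Nop_X_pow, finsetSum_coeff]
  simp only [coeff_C_mul, coeff_X_pow]
  by_cases hj : j ≤ M
  · rw [sum_eq_single_of_mem j (mem_range.2 (by omega))]
    · simp
    · intro i _ hi
      rw [if_neg (Ne.symm hi), mul_zero]
  · rw [nu, if_neg hj]
    apply sum_eq_zero
    intro i hi
    rw [mem_range] at hi
    rw [if_neg (by omega), mul_zero]

theorem commute_Lam_Nop (f : ℝ[X]) : Lam (Nop f) = Nop (Lam f) := by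
  have h : Lam ∘ₗ Nop = Nop ∘ₗ Lam := by
    apply Polynomial.lhom_ext'
    intro M
    apply LinearMap.ext_ring
    rw [LinearMap.comp_apply, LinearMap.comp_apply, LinearMap.comp_apply, LinearMap.comp_apply,
      ← X_pow_eq_monomial]
    cases M with
    | zero =>
      have h1 : Nop (X ^ 0) = C (nu 0 0) := by
        rw [Nop_X_pow]
        simp
      rw [h1, Lam_apply, Lam_apply]
      simp
    | succ M =>
      have h1 : Lam (X ^ (M + 1)) =
          (((M : ℝ) + 1) * (M + 2)) • X ^ (M + 1) - (((M : ℝ) + 1) ^ 2) • X ^ M := by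
        ext j
        rw [coeff_Lam, coeff_sub, coeff_smul, coeff_smul, coeff_X_pow, coeff_X_pow, coeff_X_pow]
        by_cases h1 : j = M + 1
        · subst h1
          rw [if_pos rfl, if_neg (by omega), if_neg (by omega)]
          push_cast
          simp only [smul_eq_mul]
          ring
        · by_cases h2 : j = M
          · subst h2
            simp
          · rw [if_neg h1, if_neg (by omega), if_neg h2]
            simp
      rw [h1, map_sub, Nop.map_smul, Nop.map_smul]
      ext j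
      rw [coeff_Lam, coeff_sub, coeff_smul, coeff_smul, coeff_Nop_X_pow, coeff_Nop_X_pow,
        coeff_Nop_X_pow, smul_eq_mul, smul_eq_mul]
      linear_combination -(nu_rec M j)
  exact LinearMap.congr_fun h f

theorem natDegree_Nop_le (n : ℕ) (f : ℝ[X]) (hf : f.natDegree ≤ n) :
    (Nop f).natDegree ≤ n ∧ (Nop f).coeff n = (2 * n + 1) * f.coeff n := by
  have e : f = ∑ M ∈ range (n + 1), f.coeff M • X ^ M := by
    conv_lhs => rw [f.as_sum_range' (n + 1) (by omega)]
    apply sum_congr rfl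
    intro M _
    rw [← C_mul_X_pow_eq_monomial, smul_eq_C_mul]
  have e2 : ∀ j, (Nop f).coeff j = ∑ M ∈ range (n + 1), f.coeff M * nu M j := by
    intro j
    conv_lhs => rw [e, map_sum]
    rw [finsetSum_coeff]
    apply sum_congr rfl
    intro M _
    rw [Nop.map_smul, coeff_smul, coeff_Nop_X_pow, smul_eq_mul]
  constructor
  · rw [natDegree_le_iff_coeff_eq_zero]
    intro j hj
    rw [e2]
    apply sum_eq_zero
    intro M hM
    rw [mem_range] at hM
    rw [nu, if_neg (by omega), mul_zero]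
  · rw [e2, sum_range_succ, nu_self, sum_eq_zero, zero_add, mul_comm]
    intro M hM
    rw [mem_range] at hM
    rw [nu, if_neg (by omega), mul_zero]

/-- Eigenvectors of the Legendre operator are eigenvectors of `Nop`. -/
theorem Nop_eigen {n : ℕ} {f : ℝ[X]} (hf : f.natDegree ≤ n)
    (h : Lam f = ((n : ℝ) * (n + 1)) • f) : Nop f = (2 * (n : ℝ) + 1) • f := by
  obtain ⟨h1, h2⟩ := natDegree_Nop_le n f hf
  set g := Nop f - (2 * (n : ℝ) + 1) • f with hg
  have hg1 : Lam g = ((n : ℝ) * (n + 1)) • g := by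
    rw [hg, map_sub, commute_Lam_Nop, h, Nop.map_smul, Lam.map_smul, h, smul_sub, smul_comm]
  have hgn : g.coeff n = 0 := by
    rw [hg, coeff_sub, coeff_smul, h2, smul_eq_mul, sub_self]
  have hgd : g.natDegree ≤ n := by
    rw [hg]
    refine (natDegree_sub_le _ _).trans (max_le h1 ?_)
    exact (natDegree_smul_le _ _).trans hf
  by_contra hne
  have hg0 : g ≠ 0 := sub_ne_zero.2 hne
  have hlt : g.natDegree < n := by
    rcases eq_or_lt_of_le hgd with h3 | h3
    · exfalso
      rw [← h3] at hgn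
      exact hg0 (leadingCoeff_eq_zero.1 hgn)
    · exact h3
  set m := g.natDegree with hm
  have h4 : (Lam g).coeff m = (m : ℝ) * (m + 1) * g.coeff m := by
    rw [coeff_Lam, coeff_eq_zero_of_natDegree_lt (show g.natDegree < m + 1 by omega)]
    ring
  rw [hg1, coeff_smul, smul_eq_mul] at h4
  have h5 : g.coeff m ≠ 0 := by
    rw [hm]
    exact leadingCoeff_ne_zero.2 hg0
  have h6 := mul_right_cancel₀ h5 h4
  have h7 : (m : ℝ) + 1 ≤ n := by exact_mod_cast hlt
  have h8 : (0 : ℝ) ≤ m := Nat.cast_nonneg _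
  nlinarith

/-! ### Sequences -/

/-- The Legendre operator on coefficient sequences. -/
def LS : Module.End ℝ (ℕ → ℝ) where
  toFun v j := (j : ℝ) * (j + 1) * v j - ((j : ℝ) + 1) ^ 2 * v (j + 1)
  map_add' u v := by
    funext j
    simp only [Pi.add_apply]
    ring
  map_smul' c v := by
    funext j
    simp only [Pi.smul_apply, smul_eq_mul, RingHom.id_apply]
    ring

theorem LS_apply (v : ℕ → ℝ) (j : ℕ) :
    LS v j = (j : ℝ) * (j + 1) * v j - ((j : ℝ) + 1) ^ 2 * v (j + 1) := rfl

/-- The coefficient sequence. -/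
def cf : ℝ[X] →ₗ[ℝ] (ℕ → ℝ) where
  toFun f := f.coeff
  map_add' f g := by
    funext j
    simp
  map_smul' c f := by
    funext j
    simp

theorem cf_apply (f : ℝ[X]) (j : ℕ) : cf f j = f.coeff j := rfl

theorem cf_Lam (f : ℝ[X]) : cf (Lam f) = LS (cf f) := by
  funext j
  rw [cf_apply, coeff_Lam, LS_apply]
  rfl

theorem cf_aeval (E f : ℝ[X]) : cf ((aeval (R := ℝ) (A := Module.End ℝ ℝ[X]) Lam E) f) =
    (aeval (R := ℝ) (A := Module.End ℝ (ℕ → ℝ)) LS E) (cf f) := by
  induction E using Polynomial.induction_on' with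
  | add p q hp hq => rw [map_add, map_add, LinearMap.add_apply, LinearMap.add_apply, map_add, hp, hq]
  | monomial n a =>
    rw [aeval_monomial, aeval_monomial]
    simp only [Module.End.mul_apply, Module.algebraMap_end_apply, map_smul]
    congr 1
    induction n generalizing f with
    | zero => simp
    | succ n ih => rw [pow_succ, pow_succ, Module.End.mul_apply, Module.End.mul_apply, ih, cf_Lam]

theorem continuous_LS : Continuous (LS : (ℕ → ℝ) → (ℕ → ℝ)) := by
  apply continuous_pi
  intro j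
  simp only [LS_apply]
  fun_prop

theorem continuous_aeval_LS (E : ℝ[X]) :
    Continuous ((aeval (R := ℝ) (A := Module.End ℝ (ℕ → ℝ)) LS E) : (ℕ → ℝ) → (ℕ → ℝ)) := by
  induction E using Polynomial.induction_on' with
  | add p q hp hq =>
    rw [map_add]
    exact hp.add hq
  | monomial n a =>
    rw [aeval_monomial]
    have : Continuous ((LS ^ n : Module.End ℝ (ℕ → ℝ)) : (ℕ → ℝ) → (ℕ → ℝ)) := by
      induction n with
      | zero => exact continuous_id
      | succ n ih =>
        rw [pow_succ]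
        exact ih.comp continuous_LS
    exact this.const_smul a

/-- `w_s(j) = (3/2 + s)_j / j!`. -/
noncomputable def w (s j : ℕ) : ℝ := ∏ i ∈ range j, ((3 / 2 + s + i) / (1 + i))

theorem w_succ (s j : ℕ) : w s (j + 1) = w s j * ((3 / 2 + s + j) / (1 + j)) := by
  rw [w, prod_range_succ, w]

theorem w_pos (s j : ℕ) : 0 < w s j := by
  rw [w]
  apply prod_pos
  intro i _
  positivity

theorem w_up (s j : ℕ) : w (s + 1) j = w s j * ((3 / 2 + s + j) / (3 / 2 + s)) := by
  have hs : (3 / 2 + s : ℝ) ≠ 0 := by positivity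
  induction j with
  | zero => simp [w, hs]
  | succ j ih =>
    rw [w_succ, ih, w_succ]
    push_cast
    have h1 : (1 + j : ℝ) ≠ 0 := by positivity
    field_simp
    ring

theorem LS_w (s : ℕ) : LS (w s) = ((3 / 2 + s : ℝ) * (1 / 2 + s)) • w s -
    ((3 / 2 + s : ℝ) ^ 2) • w (s + 1) := by
  funext j
  rw [LS_apply, w_succ, Pi.sub_apply, Pi.smul_apply, Pi.smul_apply, smul_eq_mul, smul_eq_mul, w_up]
  have h1 : (1 + j : ℝ) ≠ 0 := by positivity
  have hs : (3 / 2 + s : ℝ) ≠ 0 := by positivity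
  field_simp
  ring

/-- `O(LS) w_0` is a combination of the `w_s`, `s ≤ deg O`, with nonzero top coefficient. -/
theorem exists_comb (d : ℕ) (O : ℝ[X]) (hO : O ≠ 0) (hd : O.natDegree = d) :
    ∃ c : ℕ → ℝ, c d ≠ 0 ∧ (aeval (R := ℝ) (A := Module.End ℝ (ℕ → ℝ)) LS O) (w 0) =
      ∑ s ∈ range (d + 1), c s • w s := by
  induction d generalizing O with
  | zero =>
    rw [eq_C_of_natDegree_eq_zero hd] at hO ⊢
    refine ⟨fun _ => O.coeff 0, fun h => hO (by
      have h' : O.coeff 0 = 0 := h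
      rw [h', C_0]), ?_⟩
    rw [aeval_C]
    simp
  | succ d ih =>
    have h1 := divX_mul_X_add O
    have hd1 : O.divX.natDegree = d := by
      rw [natDegree_divX_eq_natDegree_tsub_one, hd]
      rfl
    have hO1 : O.divX ≠ 0 := by
      intro h0
      rw [divX_eq_zero_iff] at h0
      rw [h0, natDegree_C] at hd
      omega
    obtain ⟨c, hc, hc2⟩ := ih O.divX hO1 hd1
    refine ⟨fun s => (if s = 0 then O.coeff 0 else 0) +
      (if s < d + 1 then c s * ((3 / 2 + s : ℝ) * (1 / 2 + s)) else 0) -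
      (if 0 < s then c (s - 1) * (3 / 2 + ((s - 1 : ℕ) : ℝ)) ^ 2 else 0), ?_, ?_⟩
    · simp only [if_neg (show d + 1 ≠ 0 by omega), if_neg (lt_irrefl (d + 1)), zero_add, zero_sub,
        if_pos (Nat.succ_pos d), Nat.add_sub_cancel, neg_ne_zero]
      apply mul_ne_zero hc
      positivity
    · have e : (aeval (R := ℝ) (A := Module.End ℝ (ℕ → ℝ)) LS O) (w 0) =
          LS ((aeval (R := ℝ) (A := Module.End ℝ (ℕ → ℝ)) LS O.divX) (w 0)) +
            O.coeff 0 • w 0 := by
        conv_lhs => rw [← h1]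
        rw [mul_comm, map_add, map_mul, aeval_X, aeval_C]
        rfl
      rw [e, hc2, map_sum]
      have e1 : ∑ s ∈ range (d + 1 + 1), (((if s = 0 then O.coeff 0 else 0) +
          (if s < d + 1 then c s * ((3 / 2 + s : ℝ) * (1 / 2 + s)) else 0) -
          (if 0 < s then c (s - 1) * (3 / 2 + ((s - 1 : ℕ) : ℝ)) ^ 2 else 0)) • w s) =
          O.coeff 0 • w 0 + ∑ s ∈ range (d + 1), (c s * ((3 / 2 + s : ℝ) * (1 / 2 + s))) • w s -
          ∑ s ∈ range (d + 1), (c s * (3 / 2 + s : ℝ) ^ 2) • w (s + 1) := by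
        simp only [sub_smul, add_smul, sum_sub_distrib, sum_add_distrib]
        congr 1
        · congr 1
          · rw [sum_eq_single_of_mem 0 (mem_range.2 (by omega))]
            · simp
            · intro s _ hs
              rw [if_neg hs, zero_smul]
          · rw [sum_range_succ, if_neg (lt_irrefl _), zero_smul, add_zero]
            apply sum_congr rfl
            intro s hs
            rw [if_pos (mem_range.1 hs)]
        · rw [sum_range_succ']
          simp
      rw [e1]
      have e2 : ∀ s, LS (c s • w s) = (c s * ((3 / 2 + s : ℝ) * (1 / 2 + s))) • w s -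
          (c s * (3 / 2 + s : ℝ) ^ 2) • w (s + 1) := by
        intro s
        rw [LS.map_smul, LS_w, smul_sub, smul_smul, smul_smul]
      simp only [e2, sum_sub_distrib]
      abel

end Pool.Agent.Q164.Leg
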