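import Pool.Agent.Q164.Leg1
import Mathlib.Analysis.SpecificLimits.Basic

/-!
The limit argument for Legendre diagonal operators of the form `E(Λ) + (2 k + 1) O(Λ)`.
-/

namespace Pool.Agent.Q164.Leg

open Polynomial Finset Filter Topology

theorem V_a (j r : ℕ) :
    V j (r + 1) = (((j + (r + 1)).choose j : ℕ) : ℝ) * aa r * (2 * r - 1) / bb j r := by
  have hb := bb_pos j r
  have : (0 : ℝ) < (j : ℝ) + 3 / 2 + r := by positivity
  rw [V, bb_succ, aa, prod_range_succ, ← aa]
  push_cast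
  field_simp
  ring

theorem V_b (j r : ℕ) :
    V (j + 1) r = (((j + 1 + r).choose (j + 1) : ℕ) : ℝ) * aa r * (2 * j + 3) / bb j r := by
  have hb := bb_pos j r
  have hb' := bb_pos (j + 1) r
  have h3 := bb_shift j r
  have h4 : (0 : ℝ) < (j : ℝ) + 3 / 2 := by positivity
  have h5 : (0 : ℝ) < (j : ℝ) + 3 / 2 + r := by positivity
  have h6 : bb (j + 1) r = bb j r * ((j : ℝ) + 3 / 2 + r) / ((j : ℝ) + 3 / 2) := by
    rw [eq_div_iff h4.ne']
    exact h3
  rw [V, h6]
  push_cast
  field_simp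
  ring

theorem V_ratio (j r : ℕ) :
    (2 * (r : ℝ) - 1) * (j + 1) * V (j + 1) r = (2 * j + 3) * (r + 1) * V j (r + 1) := by
  have ca := choose_a j r
  have cb := choose_b j r
  rw [V_a, V_b]
  have e1 : (2 * (r : ℝ) - 1) * (j + 1) *
      ((((j + 1 + r).choose (j + 1) : ℕ) : ℝ) * aa r * (2 * j + 3) / bb j r) =
      (((((j + 1 + r).choose (j + 1) : ℕ) : ℝ)) * (j + 1)) *
        ((2 * (r : ℝ) - 1) * aa r * (2 * j + 3) / bb j r) := by ring
  have e2 : (2 * (j : ℝ) + 3) * (r + 1) *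
      ((((j + (r + 1)).choose j : ℕ) : ℝ) * aa r * (2 * r - 1) / bb j r) =
      ((((j + (r + 1)).choose j : ℕ) : ℝ) * (r + 1)) *
        ((2 * (r : ℝ) - 1) * aa r * (2 * j + 3) / bb j r) := by ring
  rw [e1, e2, ca, cb]

theorem V_ne (j r : ℕ) : V j r ≠ 0 := by
  rw [V]
  have h1 := aa_ne r
  have h2 := (bb_pos j r).ne'
  have h3 : ((j + r).choose j : ℝ) ≠ 0 := by
    have := Nat.choose_pos (show j ≤ j + r by omega)
    exact_mod_cast this.ne'
  have h4 : (2 * ((j : ℝ) + r) + 1) ≠ 0 := by positivity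
  exact div_ne_zero (mul_ne_zero (mul_ne_zero h4 h3) h1) h2

theorem nu_ne {M j : ℕ} (h : j ≤ M) : nu M j ≠ 0 := by
  rw [nu, if_pos h]
  exact V_ne _ _

theorem nu_ratio {M j : ℕ} (h : j < M) :
    nu M (j + 1) = ((2 * j + 3) / (j + 1)) *
      (((M : ℝ) - j) / (2 * ((M : ℝ) - j) - 3)) * nu M j := by
  obtain ⟨r, rfl⟩ : ∃ r, M = j + 1 + r := ⟨M - j - 1, by omega⟩
  have h1 : nu (j + 1 + r) (j + 1) = V (j + 1) r := by
    rw [nu, if_pos (by omega)]
    congr 1
    omega
  have h2 : nu (j + 1 + r) j = V j (r + 1) := by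
    rw [nu, if_pos (by omega)]
    congr 1
    omega
  have h3 := V_ratio j r
  have h4 : (2 * (r : ℝ) - 1) ≠ 0 := by
    intro h
    have h5 : (2 * r : ℝ) = 1 := by linarith
    have h6 : 2 * r = 1 := by exact_mod_cast h5
    omega
  have h5 : (j : ℝ) + 1 ≠ 0 := by positivity
  rw [h1, h2]
  push_cast
  have e1 : ((j : ℝ) + 1 + r - j) = r + 1 := by ring
  have e2 : 2 * ((r : ℝ) + 1) - 3 = 2 * r - 1 := by ring
  rw [e1, e2]
  field_simp
  linear_combination h3

theorem tendsto_ratio (j : ℕ) :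
    Tendsto (fun M : ℕ => ((M : ℝ) - j) / (2 * ((M : ℝ) - j) - 3)) atTop (𝓝 (1 / 2)) := by
  have h1 : Tendsto (fun M : ℕ => (M : ℝ) - j) atTop atTop := by
    apply Tendsto.atTop_add tendsto_natCast_atTop_atTop
    exact tendsto_const_nhds
  have h2 : Tendsto (fun t : ℝ => t / (2 * t - 3)) atTop (𝓝 (1 / 2)) := by
    have h3 : Tendsto (fun t : ℝ => 1 / (2 - 3 * t⁻¹)) atTop (𝓝 (1 / (2 - 3 * 0))) := by
      apply Tendsto.div tendsto_const_nhds
      · exact tendsto_const_nhds.sub (tendsto_inv_atTop_zero.const_mul 3)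
      · norm_num
    rw [mul_zero, sub_zero] at h3
    refine h3.congr' ?_
    filter_upwards [eventually_gt_atTop (2 : ℝ)] with t ht
    have h4 : t ≠ 0 := by linarith
    have h5 : 2 * t - 3 ≠ 0 := by linarith
    have h6 : 2 - 3 * t⁻¹ ≠ 0 := by
      intro h
      apply h5
      have : t * (2 - 3 * t⁻¹) = 2 * t - 3 := by field_simp
      rw [← this, h, mul_zero]
    field_simp
  exact h2.comp h1

theorem tendsto_nu (j : ℕ) : Tendsto (fun M : ℕ => nu M j / nu M 0) atTop (𝓝 (w 0 j)) := by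
  induction j with
  | zero =>
    have : w 0 0 = 1 := by simp [w]
    rw [this]
    apply tendsto_const_nhds.congr
    intro M
    rw [div_self (nu_ne (Nat.zero_le M))]
  | succ j ih =>
    have h1 := ((tendsto_ratio j).const_mul ((2 * (j : ℝ) + 3) / (j + 1))).mul ih
    have e : (2 * (j : ℝ) + 3) / (j + 1) * (1 / 2) * w 0 j = w 0 (j + 1) := by
      rw [w_succ]
      push_cast
      have : (j : ℝ) + 1 ≠ 0 := by positivity
      have : (1 : ℝ) + j ≠ 0 := by positivity
      field_simp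
      ring
    rw [e] at h1
    refine h1.congr' ?_
    filter_upwards [eventually_gt_atTop j] with M hM
    rw [nu_ratio hM]
    ring

theorem tendsto_cf (E O : ℝ[X]) :
    Tendsto (fun M : ℕ => (nu M 0)⁻¹ • cf ((aeval (R := ℝ) (A := Module.End ℝ ℝ[X]) Lam E) (X ^ M) +
      (aeval (R := ℝ) (A := Module.End ℝ ℝ[X]) Lam O) (Nop (X ^ M)))) atTop
      (𝓝 ((aeval (R := ℝ) (A := Module.End ℝ (ℕ → ℝ)) LS O) (w 0))) := by
  have h1 : Tendsto (fun M : ℕ => (nu M 0)⁻¹ • cf (X ^ M)) atTop (𝓝 0) := by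
    rw [tendsto_pi_nhds]
    intro j
    apply tendsto_const_nhds.congr'
    filter_upwards [eventually_gt_atTop j] with M hM
    rw [Pi.smul_apply, cf_apply, coeff_X_pow, if_neg (by omega), smul_zero]
    rfl
  have h2 : Tendsto (fun M : ℕ => (nu M 0)⁻¹ • cf (Nop (X ^ M))) atTop (𝓝 (w 0)) := by
    rw [tendsto_pi_nhds]
    intro j
    refine (tendsto_nu j).congr ?_
    intro M
    rw [Pi.smul_apply, cf_apply, coeff_Nop_X_pow, smul_eq_mul, div_eq_inv_mul]
  have h3 := ((continuous_aeval_LS E).tendsto 0).comp h1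
  have h4 := ((continuous_aeval_LS O).tendsto (w 0)).comp h2
  have h5 := h3.add h4
  rw [map_zero, zero_add] at h5
  refine h5.congr ?_
  intro M
  simp only [Function.comp_apply]
  rw [map_smul, map_smul, map_add, cf_aeval, cf_aeval, smul_add]

/-- The growth of the limit sequence. -/
theorem tendsto_comb (d : ℕ) (c : ℕ → ℝ) :
    Tendsto (fun j : ℕ => (∑ s ∈ range (d + 1), c s • w s) j / w d j) atTop (𝓝 (c d)) := by
  have hone : ∀ s, Tendsto (fun j : ℕ => w s j / w (s + 1) j) atTop (𝓝 0) := by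
    intro s
    have h1 : Tendsto (fun j : ℕ => (3 / 2 + s : ℝ) / (3 / 2 + s + j)) atTop (𝓝 0) := by
      apply Tendsto.const_div_atTop
      exact tendsto_atTop_add_const_left _ _ tendsto_natCast_atTop_atTop
    refine h1.congr ?_
    intro j
    rw [w_up]
    have := (w_pos s j).ne'
    have h2 : (3 / 2 + s : ℝ) ≠ 0 := by positivity
    have h3 : (3 / 2 + s + j : ℝ) ≠ 0 := by positivity
    field_simp
  have hzero : ∀ k s, Tendsto (fun j : ℕ => w s j / w (s + (k + 1)) j) atTop (𝓝 0) := by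
    intro k
    induction k with
    | zero => exact hone
    | succ k ih =>
      intro s
      have h1 := (hone s).mul (ih (s + 1))
      rw [mul_zero] at h1
      refine h1.congr ?_
      intro j
      have e : s + 1 + (k + 1) = s + (k + 1 + 1) := by ring
      rw [e]
      have := (w_pos (s + 1) j).ne'
      have := (w_pos (s + (k + 1 + 1)) j).ne'
      field_simp
  have h1 : ∀ s ∈ range (d + 1), Tendsto (fun j : ℕ => c s * (w s j / w d j)) atTop
      (𝓝 (if s = d then c d else 0)) := by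
    intro s hs
    rw [mem_range] at hs
    by_cases h : s = d
    · subst h
      rw [if_pos rfl]
      apply tendsto_const_nhds.congr
      intro j
      rw [div_self (w_pos s j).ne', mul_one]
    · rw [if_neg h]
      have h2 := (hzero (d - s - 1) s).const_mul (c s)
      rw [mul_zero, show s + (d - s - 1 + 1) = d by omega] at h2
      exact h2
  have h2 := tendsto_finset_sum (range (d + 1)) h1
  rw [sum_ite_eq' (range (d + 1)) d (fun _ => c d), if_pos (mem_range.2 (by omega))] at h2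
  refine h2.congr ?_
  intro j
  rw [Finset.sum_apply, sum_div]
  apply sum_congr rfl
  intro s _
  rw [Pi.smul_apply, smul_eq_mul]
  ring

theorem tendsto_w_ratio (d : ℕ) : Tendsto (fun j : ℕ => w d (j + 1) / w d j) atTop (𝓝 1) := by
  have h1 : Tendsto (fun j : ℕ => 1 + (1 / 2 + d : ℝ) / (1 + j)) atTop (𝓝 (1 + 0)) := by
    apply tendsto_const_nhds.add
    apply Tendsto.const_div_atTop
    exact tendsto_atTop_add_const_left _ _ tendsto_natCast_atTop_atTop
  rw [add_zero] at h1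
  refine h1.congr ?_
  intro j
  rw [w_succ]
  have := (w_pos d j).ne'
  have h2 : (1 + j : ℝ) ≠ 0 := by positivity
  field_simp
  ring

/-- A sequence with consecutive ratio tending to one cannot satisfy all Newton inequalities. -/
theorem newton_contradiction {κ : ℕ → ℝ} (hκ : Tendsto (fun j => κ (j + 1) / κ j) atTop (𝓝 1))
    (hN : ∀ j : ℕ, ((j : ℝ) + 2) * (κ j * κ (j + 2)) ≤ ((j : ℝ) + 1) * κ (j + 1) ^ 2) : False := by
  have h1 : ∀ᶠ j in atTop, 1 / 2 < κ (j + 1) / κ j := hκ.eventually (lt_mem_nhds (by norm_num))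
  obtain ⟨J, hJ⟩ := eventually_atTop.1 h1
  -- the quantity (j+1) κ_{j+1}/κ_j is nonincreasing
  have hmono : ∀ j, J ≤ j → ((j : ℝ) + 2) * (κ (j + 2) / κ (j + 1)) ≤
      ((j : ℝ) + 1) * (κ (j + 1) / κ j) := by
    intro j hj
    have r1 := hJ j hj
    have hprod : 0 < κ j * κ (j + 1) := by
      have hne : κ j ≠ 0 := by
        intro h0
        rw [h0, div_zero] at r1
        norm_num at r1
      have : κ j * κ (j + 1) = (κ (j + 1) / κ j) * (κ j) ^ 2 := by
        field_simp
      rw [this]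
      have : 0 < κ j ^ 2 := by positivity
      have : 0 < κ (j + 1) / κ j := by linarith
      positivity
    have hne : κ j ≠ 0 := left_ne_zero_of_mul hprod.ne'
    have hne' : κ (j + 1) ≠ 0 := right_ne_zero_of_mul hprod.ne'
    have e1 : ((j : ℝ) + 2) * (κ (j + 2) / κ (j + 1)) =
        (((j : ℝ) + 2) * (κ j * κ (j + 2))) / (κ j * κ (j + 1)) := by
      field_simp
    have e2 : ((j : ℝ) + 1) * (κ (j + 1) / κ j) =
        (((j : ℝ) + 1) * κ (j + 1) ^ 2) / (κ j * κ (j + 1)) := by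
      field_simp
    rw [e1, e2]
    exact div_le_div_of_nonneg_right (hN j) hprod.le
  have hbound : ∀ k, (((J + k : ℕ) : ℝ) + 1) * (κ (J + k + 1) / κ (J + k)) ≤
      ((J : ℝ) + 1) * (κ (J + 1) / κ J) := by
    intro k
    induction k with
    | zero => simp
    | succ k ih =>
      have := hmono (J + k) (by omega)
      rw [← add_assoc]
      push_cast at this ih ⊢
      have e : (J : ℝ) + k + 1 + 1 = (J : ℝ) + k + 2 := by ring
      rw [e]
      exact this.trans ih
  obtain ⟨k, hk⟩ := exists_nat_gt (2 * (((J : ℝ) + 1) * (κ (J + 1) / κ J)))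
  have h2 := hbound k
  have h3 := hJ (J + k) (by omega)
  have h4 : (0 : ℝ) ≤ J := Nat.cast_nonneg _
  have h5 : (0 : ℝ) ≤ k := Nat.cast_nonneg _
  push_cast at h2
  have h6 : (k : ℝ) * (1 / 2) ≤ ((J : ℝ) + k + 1) * (κ (J + k + 1) / κ (J + k)) := by
    apply mul_le_mul (by linarith) h3.le (by norm_num) (by positivity)
  linarith

/-- The core statement. -/
theorem core (E O : ℝ[X]) (hO : O ≠ 0)
    (h : ∀ M : ℕ, Hyperbolic ((aeval (R := ℝ) (A := Module.End ℝ ℝ[X]) Lam E) (X ^ M) +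
      (aeval (R := ℝ) (A := Module.End ℝ ℝ[X]) Lam O) (Nop (X ^ M)))) : False := by
  obtain ⟨c, hc, hc2⟩ := exists_comb O.natDegree O hO rfl
  set κ := (aeval (R := ℝ) (A := Module.End ℝ (ℕ → ℝ)) LS O) (w 0) with hκ
  set d := O.natDegree with hd
  have hlim := tendsto_cf E O
  rw [← hκ, tendsto_pi_nhds] at hlim
  apply newton_contradiction (κ := κ)
  · have h1 := tendsto_comb d c
    rw [← hc2] at h1
    have h2 : Tendsto (fun j : ℕ => κ (j + 1) / w d (j + 1)) atTop (𝓝 (c d)) :=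
      h1.comp (tendsto_add_atTop_nat 1)
    have h3 := (h2.mul (tendsto_w_ratio d)).div h1 hc
    rw [mul_one, div_self hc] at h3
    refine h3.congr ?_
    intro j
    have := (w_pos d j).ne'
    have := (w_pos d (j + 1)).ne'
    simp only [Pi.div_apply]
    rw [div_mul_div_cancel₀ (by positivity), div_div_div_cancel_right₀ (by positivity)]
  · intro j
    have l0 := hlim j
    have l1 := hlim (j + 1)
    have l2 := hlim (j + 2)
    apply le_of_tendsto_of_tendsto ((l0.mul l2).const_mul ((j : ℝ) + 2))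
      ((l1.pow 2).const_mul ((j : ℝ) + 1))
    apply Eventually.of_forall
    intro M
    have h1 := (h M).newton' j
    simp only [Pi.smul_apply, cf_apply, smul_eq_mul]
    set p := (aeval (R := ℝ) (A := Module.End ℝ ℝ[X]) Lam E) (X ^ M) +
      (aeval (R := ℝ) (A := Module.End ℝ ℝ[X]) Lam O) (Nop (X ^ M))
    have h2 := mul_le_mul_of_nonneg_left h1 (sq_nonneg (nu M 0)⁻¹)
    calc ((j : ℝ) + 2) * ((nu M 0)⁻¹ * p.coeff j * ((nu M 0)⁻¹ * p.coeff (j + 2))) =
        (nu M 0)⁻¹ ^ 2 * (((j : ℝ) + 2) * (p.coeff j * p.coeff (j + 2))) := by ring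
      _ ≤ (nu M 0)⁻¹ ^ 2 * (((j : ℝ) + 1) * p.coeff (j + 1) ^ 2) := h2
      _ = ((j : ℝ) + 1) * ((nu M 0)⁻¹ * p.coeff (j + 1)) ^ 2 := by ring

end Pool.Agent.Q164.Leg
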