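import Pool.Agent.Q164.Leg2

/-!
Legendre polynomials, and polynomial Legendre multiplier sequences.
-/

namespace Pool.Agent.Q164.Leg

open Polynomial Finset Filter Topology

/-- The Legendre polynomial `P_n`, by Rodrigues' formula. -/
noncomputable def leg (n : ℕ) : ℝ[X] :=
  C (1 / (2 ^ n * (n.factorial : ℝ))) * derivative^[n] ((X ^ 2 - 1) ^ n)

theorem leg_degree (n : ℕ) : (leg n).degree = n := by
  have h1 : ((X ^ 2 - 1 : ℝ[X]) ^ n).natDegree = 2 * n := by
    rw [natDegree_pow, ← C_1, natDegree_X_pow_sub_C, mul_comm]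
  have hm : ((X ^ 2 - 1 : ℝ[X]) ^ n).Monic := by
    apply Monic.pow
    rw [← C_1]
    exact monic_X_pow_sub_C 1 (by norm_num)
  have hc : (derivative^[n] ((X ^ 2 - 1 : ℝ[X]) ^ n)).coeff n ≠ 0 := by
    rw [coeff_iterate_derivative, ← two_mul, ← h1, Monic.coeff_natDegree hm, h1]
    simp
    omega
  have hle : (derivative^[n] ((X ^ 2 - 1 : ℝ[X]) ^ n)).natDegree ≤ n := by
    refine (natDegree_iterate_derivative _ _).trans ?_
    rw [h1]
    omega
  have hd : (derivative^[n] ((X ^ 2 - 1 : ℝ[X]) ^ n)).degree = n := by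
    apply le_antisymm
    · exact degree_le_of_natDegree_le hle
    · exact le_degree_of_ne_zero hc
  rw [leg, degree_C_mul, hd]
  positivity

theorem iterate_lemma (w : ℝ[X]) (k : ℕ) :
    derivative^[k + 1] ((X ^ 2 - 1) * derivative w) =
      (X ^ 2 - 1) * derivative^[k + 2] w + C (2 * ((k : ℝ) + 1)) * (X * derivative^[k + 1] w) +
        C (((k : ℝ) + 1) * k) * derivative^[k] w := by
  induction k with
  | zero =>
    simp [map_ofNat C 2]
    ring
  | succ k ih =>
    rw [Function.iterate_succ_apply', ih]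
    simp only [derivative_add, derivative_mul, derivative_C, derivative_X,
      derivative_sub, derivative_X_pow, derivative_one, ← Function.iterate_succ_apply' derivative]
    simp only [map_mul, map_add, map_one, map_natCast, map_ofNat C 2, Nat.cast_add, Nat.cast_one,
      Nat.cast_ofNat]
    ring

theorem leg_ode (n : ℕ) :
    derivative ((X ^ 2 - 1) * derivative (leg n)) = ((n : ℝ) * (n + 1)) • leg n := by
  set u : ℝ[X] := (X ^ 2 - 1) ^ n with hu
  have h1 : (X ^ 2 - 1) * derivative u = C (2 * (n : ℝ)) * (X * u) := by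
    rw [hu, derivative_pow]
    cases n with
    | zero => simp
    | succ n =>
      simp [map_ofNat C 2]
      ring
  have h2 := iterate_lemma u n
  rw [h1, iterate_derivative_C_mul, mul_comm X u, iterate_derivative_mul_X] at h2
  have h3 : derivative ((X ^ 2 - 1) * derivative (derivative^[n] u)) =
      C ((n : ℝ) * (n + 1)) * derivative^[n] u := by
    rw [derivative_mul, ← Function.iterate_succ_apply' derivative,
      ← Function.iterate_succ_apply' derivative]
    simp only [nsmul_eq_mul, Nat.succ_eq_add_one, Nat.add_sub_cancel] at h2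
    simp only [derivative_sub, derivative_X_pow, derivative_one, map_mul, map_add, map_one,
      map_natCast, map_ofNat C 2, Nat.cast_add, Nat.cast_one, Nat.cast_ofNat] at h2 ⊢
    linear_combination -h2
  rw [leg, derivative_C_mul, mul_left_comm, derivative_C_mul, h3, smul_eq_C_mul]
  ring

/-- The Legendre polynomial in the variable `z = (1 + x) / 2`. -/
noncomputable def sleg (n : ℕ) : ℝ[X] := (leg n).comp (C 2 * X + C (-1))

theorem Lam_comp (p : ℝ[X]) : Lam (p.comp (C 2 * X + C (-1))) =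
    (derivative ((X ^ 2 - 1) * derivative p)).comp (C 2 * X + C (-1)) := by
  have hd : derivative (C 2 * X + C (-1) : ℝ[X]) = C 2 := by simp
  have h2 : (C (1 / 2) : ℝ[X]) * C 2 = 1 := by
    rw [← C_mul]; norm_num
  have h2' : (C (2 : ℝ) : ℝ[X]) = 2 := map_ofNat C 2
  rw [Lam_apply, derivative_comp, hd]
  have e : (X ^ 2 - X : ℝ[X]) * (C 2 * (derivative p).comp (C 2 * X + C (-1)))
      = C (1 / 2) * (((X ^ 2 - 1) * derivative p).comp (C 2 * X + C (-1))) := by
    rw [mul_comp, sub_comp, pow_comp, X_comp, one_comp]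
    generalize (derivative p).comp (C 2 * X + C (-1)) = r
    rw [C_neg, C_1]
    rw [h2'] at h2 ⊢
    linear_combination (-2 * (X ^ 2 - X) * r) * h2
  rw [e, derivative_C_mul, derivative_comp, hd, ← mul_assoc, h2, one_mul]

theorem Lam_sleg (n : ℕ) : Lam (sleg n) = ((n : ℝ) * (n + 1)) • sleg n := by
  rw [sleg, Lam_comp, leg_ode, smul_comp]

theorem sleg_natDegree (n : ℕ) : (sleg n).natDegree ≤ n := by
  rw [sleg]
  refine natDegree_comp_le.trans ?_
  have h1 : (C 2 * X + C (-1) : ℝ[X]).natDegree ≤ 1 := by compute_degree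
  have h2 : (leg n).natDegree = n := natDegree_eq_of_degree_eq_some (leg_degree n)
  rw [h2]
  nlinarith

theorem aeval_eigen {T : Module.End ℝ ℝ[X]} {f : ℝ[X]} {l : ℝ} (h : T f = l • f) (E : ℝ[X]) :
    (aeval (R := ℝ) (A := Module.End ℝ ℝ[X]) T E) f = (E.eval l) • f := by
  induction E using Polynomial.induction_on' with
  | add p q hp hq => rw [map_add, LinearMap.add_apply, hp, hq, eval_add, add_smul]
  | monomial n a =>
    rw [aeval_monomial, eval_monomial]
    simp only [Module.End.mul_apply, Module.algebraMap_end_apply]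
    rw [mul_smul]
    congr 1
    induction n with
    | zero => simp
    | succ n ih =>
      rw [pow_succ, Module.End.mul_apply, h, map_smul, ih, smul_smul, pow_succ, mul_comm]

/-- Every polynomial is `E(X^2+X) + (2X+1) O(X^2+X)`. -/
theorem decomp (Q : ℝ[X]) : ∃ E O : ℝ[X],
    Q = E.comp (X ^ 2 + X) + (2 * X + 1) * O.comp (X ^ 2 + X) := by
  induction Q using Polynomial.induction_on' with
  | add p q hp hq =>
    obtain ⟨E₁, O₁, h₁⟩ := hp
    obtain ⟨E₂, O₂, h₂⟩ := hq
    refine ⟨E₁ + E₂, O₁ + O₂, ?_⟩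
    rw [h₁, h₂, add_comp, add_comp]
    ring
  | monomial n a =>
    induction n with
    | zero =>
      refine ⟨C a, 0, ?_⟩
      simp
    | succ n ih =>
      obtain ⟨E, O, h⟩ := ih
      refine ⟨C (-1 / 2) * E + C (1 / 2) * ((4 * X + 1) * O), C (1 / 2) * E + C (-1 / 2) * O, ?_⟩
      have e : (monomial (n + 1)) a = X * (monomial n a : ℝ[X]) := by
        rw [X_mul_monomial]
      have h2 : (C (1 / 2) : ℝ[X]) * 2 = 1 := by
        rw [← map_ofNat C 2, ← C_mul]; norm_num
      have h3 : (C (-1 / 2) : ℝ[X]) = - C (1 / 2) := by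
        rw [← C_neg]; norm_num
      rw [e, h, h3]
      simp only [add_comp, mul_comp, neg_comp, C_comp, X_comp, one_comp, ofNat_comp]
      linear_combination (- X * (E.comp (X ^ 2 + X) + (2 * X + 1) * O.comp (X ^ 2 + X))) * h2

/-- A polynomial sequence which is a Legendre multiplier sequence is a polynomial in `k (k + 1)`. -/
theorem main (Q : ℝ[X]) (h : IsMS leg fun k => Q.eval (k : ℝ)) :
    ∃ E : ℝ[X], Q = E.comp (X ^ 2 + X) := by
  obtain ⟨E, O, hQ⟩ := decomp Q
  by_cases hO : O = 0
  · exact ⟨E, by rw [hQ, hO]; simp⟩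
  exfalso
  apply core E O hO
  intro M
  -- the operator in the variable `z`
  set T : ℝ[X] →ₗ[ℝ] ℝ[X] := (aeval (R := ℝ) (A := Module.End ℝ ℝ[X]) Lam E) +
    (aeval (R := ℝ) (A := Module.End ℝ ℝ[X]) Lam O) ∘ₗ Nop with hT
  have hTs : ∀ n, T (sleg n) = Q.eval (n : ℝ) • sleg n := by
    intro n
    have h1 := aeval_eigen (Lam_sleg n) E
    have h2 := Nop_eigen (sleg_natDegree n) (Lam_sleg n)
    have h3 := aeval_eigen (Lam_sleg n) O
    rw [hT, LinearMap.add_apply, LinearMap.comp_apply, h1, h2, map_smul, h3, smul_smul, ← add_smul]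
    congr 1
    rw [hQ]
    simp only [eval_add, eval_mul, eval_comp, eval_pow, eval_X, eval_ofNat, eval_one]
    have e : (n : ℝ) * (n + 1) = n ^ 2 + n := by ring
    rw [e]
  -- conjugation to the variable `x`
  let S : ℝ[X] →ₗ[ℝ] ℝ[X] := (aeval (C 2 * X + C (-1) : ℝ[X])).toLinearMap
  let S' : ℝ[X] →ₗ[ℝ] ℝ[X] := (aeval (C (1 / 2) * X + C (1 / 2) : ℝ[X])).toLinearMap
  have hS : ∀ f, S f = f.comp (C 2 * X + C (-1)) := fun f => rfl
  have hS' : ∀ f, S' f = f.comp (C (1 / 2) * X + C (1 / 2)) := fun f => rfl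
  have e1 : ((C 2 * X + C (-1) : ℝ[X])).comp (C (1 / 2) * X + C (1 / 2)) = X := by
    simp only [add_comp, mul_comp, C_comp, X_comp]
    rw [mul_add, ← mul_assoc, ← C_mul, add_assoc, ← C_add]
    norm_num
  have e2 : ((C (1 / 2) * X + C (1 / 2) : ℝ[X])).comp (C 2 * X + C (-1)) = X := by
    simp only [add_comp, mul_comp, C_comp, X_comp]
    rw [mul_add, ← mul_assoc, ← C_mul, ← C_mul, add_assoc, ← C_add]
    norm_num
  have hSS' : ∀ f, S' (S f) = f := by
    intro f
    rw [hS, hS', comp_assoc, e1, comp_X]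
  have hS'S : ∀ f, S (S' f) = f := by
    intro f
    rw [hS, hS', comp_assoc, e2, comp_X]
  have hop : ∀ k, (S' ∘ₗ T ∘ₗ S) (leg k) = Q.eval (k : ℝ) • leg k := by
    intro k
    rw [LinearMap.comp_apply, LinearMap.comp_apply]
    have : S (leg k) = sleg k := rfl
    rw [this, hTs, map_smul, ← this, hSS']
  have hhyp : Hyperbolic (S' (X ^ M)) := by
    rw [hS']
    exact (hyperbolic_X.pow M).comp_affine _ _
  have h2 := isMS_operator leg_degree hop h hhyp
  rw [LinearMap.comp_apply, LinearMap.comp_apply, hS'S, hS'] at h2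
  have h3 := h2.comp_affine 2 (-1)
  rw [comp_assoc, e2, comp_X] at h3
  exact h3

end Pool.Agent.Q164.Leg
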