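import Pool.Agent.Q164.Hyp3
import Mathlib.Algebra.Polynomial.Sequence

/-!
Multiplier sequences for a simple set of polynomials, through diagonal operators; Newton's
inequalities; affine changes of variable.
-/

namespace Pool.Agent.Q164

open Polynomial Finset Filter Topology

theorem Hyperbolic.comp_affine {p : ℝ[X]} (hp : Hyperbolic p) (a b : ℝ) :
    Hyperbolic (p.comp (C a * X + C b)) := by
  apply hyperbolic_of_norm_mono
  intro x y y' hy
  rw [aeval_comp, aeval_comp]
  have e : ∀ t : ℝ, aeval ((x : ℂ) + t * Complex.I) (C a * X + C b : ℝ[X]) =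
      ((a * x + b : ℝ) : ℂ) + ((a * t : ℝ) : ℂ) * Complex.I := by
    intro t
    simp
    ring
  rw [e, e]
  apply hp.norm_mono
  rw [abs_mul, abs_mul]
  exact mul_le_mul_of_nonneg_left hy (abs_nonneg a)

/-- Newton's inequality (without the degree-dependent factor). -/
theorem Hyperbolic.newton' {p : ℝ[X]} (hp : Hyperbolic p) (j : ℕ) :
    ((j : ℝ) + 2) * (p.coeff j * p.coeff (j + 2)) ≤ ((j : ℝ) + 1) * p.coeff (j + 1) ^ 2 := by
  have h := (hp.iterate_deriv j).newton
  rw [coeff_iterate_derivative, coeff_iterate_derivative, coeff_iterate_derivative] at h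
  simp only [nsmul_eq_mul] at h
  have e0 : ((0 + j).descFactorial j : ℝ) = (j.factorial : ℝ) := by
    rw [zero_add, Nat.descFactorial_self]
  have e1 : ((1 + j).descFactorial j : ℝ) = (j + 1) * (j.factorial : ℝ) := by
    have h1 := Nat.factorial_mul_descFactorial (show j ≤ 1 + j by omega)
    rw [show 1 + j - j = 1 by omega, Nat.factorial_one, one_mul] at h1
    rw [h1, add_comm 1 j, Nat.factorial_succ]
    push_cast
    ring
  have e2 : 2 * ((2 + j).descFactorial j : ℝ) = (j + 2) * (j + 1) * (j.factorial : ℝ) := by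
    have h1 := Nat.factorial_mul_descFactorial (show j ≤ 2 + j by omega)
    rw [show 2 + j - j = 2 by omega, Nat.factorial_two] at h1
    have h2 : (2 : ℝ) * ((2 + j).descFactorial j : ℝ) = ((2 + j).factorial : ℝ) := by
      exact_mod_cast h1
    rw [h2, add_comm 2 j, Nat.factorial_succ, Nat.factorial_succ]
    push_cast
    ring
  rw [e0, e1] at h
  have hj : (0 : ℝ) < (j.factorial : ℝ) := by exact_mod_cast Nat.factorial_pos j
  have h3 : ((j : ℝ) + 1) * (j.factorial : ℝ) ^ 2 *
      (((j : ℝ) + 2) * (p.coeff j * p.coeff (j + 2))) ≤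
      ((j : ℝ) + 1) * (j.factorial : ℝ) ^ 2 * (((j : ℝ) + 1) * p.coeff (j + 1) ^ 2) := by
    have e3 : 2 * ((j.factorial : ℝ) * p.coeff (0 + j)) *
        (((2 + j).descFactorial j : ℝ) * p.coeff (2 + j)) =
        ((j : ℝ) + 1) * (j.factorial : ℝ) ^ 2 *
          (((j : ℝ) + 2) * (p.coeff j * p.coeff (j + 2))) := by
      rw [zero_add, add_comm 2 j] at *
      linear_combination ((j.factorial : ℝ) * p.coeff j * p.coeff (j + 2)) * e2
    rw [e3] at h
    refine h.trans_eq ?_
    rw [add_comm 1 j]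
    ring
  exact le_of_mul_le_mul_left h3 (by positivity)

/-- A simple set of polynomials. -/
def Simple (q : ℕ → ℝ[X]) : Prop := ∀ k, (q k).degree = k

/-- `q`-multiplier sequences. -/
def IsMS (q : ℕ → ℝ[X]) (γ : ℕ → ℝ) : Prop :=
  ∀ (n : ℕ) (a : ℕ → ℝ), Hyperbolic (∑ k ∈ range (n + 1), C (a k) * q k) →
    Hyperbolic (∑ k ∈ range (n + 1), C (a k * γ k) * q k)

theorem isMS_operator {q : ℕ → ℝ[X]} (hq : Simple q) {γ : ℕ → ℝ} {T : ℝ[X] →ₗ[ℝ] ℝ[X]}
    (hT : ∀ k, T (q k) = γ k • q k) (h : IsMS q γ) {f : ℝ[X]} (hf : Hyperbolic f) :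
    Hyperbolic (T f) := by
  have key : ∀ (n : ℕ) (a : ℕ → ℝ), T (∑ k ∈ range (n + 1), C (a k) * q k) =
      ∑ k ∈ range (n + 1), C (a k * γ k) * q k := by
    intro n a
    rw [map_sum]
    apply sum_congr rfl
    intro k _
    rw [← smul_eq_C_mul, T.map_smul, hT, smul_smul, smul_eq_C_mul]
  let S : Polynomial.Sequence ℝ := ⟨q, hq⟩
  have hS : ∀ i, IsUnit (S i).leadingCoeff := by
    intro i
    rw [isUnit_iff_ne_zero, Ne, leadingCoeff_eq_zero]
    exact S.ne_zero i
  set b := S.basis hS with hb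
  have hbi : ∀ i, b i = q i := fun i => S.basis_eq_self hS i
  set r := b.repr f with hr
  obtain ⟨n, hn⟩ : ∃ n, r.support ⊆ range (n + 1) := by
    refine ⟨r.support.sup id, ?_⟩
    intro k hk
    rw [mem_range]
    have := le_sup (f := id) hk
    simp only [id_eq] at this
    omega
  have hf' : f = ∑ k ∈ range (n + 1), C (r k) * q k := by
    have h1 := b.linearCombination_repr f
    rw [Finsupp.linearCombination_apply, Finsupp.sum_of_support_subset _ hn] at h1
    · rw [← h1]
      apply sum_congr rfl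
      intro k _
      rw [hbi, smul_eq_C_mul]
    · intro i _
      rw [zero_smul]
  have := h n (fun k => r k) (by rw [← hf']; exact hf)
  rw [← key, ← hf'] at this
  exact this

end Pool.Agent.Q164
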