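import Mathlib.Analysis.Complex.Schwarz
import Mathlib.Analysis.Polynomial.Basic
import Mathlib.Analysis.Calculus.Deriv.Polynomial
import Mathlib.Tactic

/-!
Asymptotics at infinity of the Newton map `z - P/D`, `D = QP + P'`, of `P e^{∫Q}`.
-/

namespace Pool.Agent.Q164.Newt

open Complex Metric Set Filter Topology Polynomial

theorem taylor {f : ℂ → ℂ} {c : ℂ} {r M : ℝ} (hr : 0 < r) (hf : DifferentiableOn ℂ f (ball c r))
    (hM : ∀ z ∈ ball c r, ‖f z‖ ≤ M) :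
    ‖deriv f c‖ ≤ 2 * M / r ∧ ∀ z ∈ ball c r,
      ‖f z - f c - deriv f c * (z - c)‖ ≤ 4 * M / r ^ 2 * ‖z - c‖ ^ 2 := by
  have hc : c ∈ ball c r := mem_ball_self hr
  have hmaps : MapsTo f (ball c r) (closedBall (f c) (2 * M)) := by
    intro z hz
    rw [mem_closedBall, dist_eq_norm]
    calc ‖f z - f c‖ ≤ ‖f z‖ + ‖f c‖ := norm_sub_le _ _
      _ ≤ 2 * M := by linarith [hM z hz, hM c hc]
  refine ⟨norm_deriv_le_div_of_mapsTo_ball hf hmaps hr, fun z hz => ?_⟩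
  set g := dslope f c with hg0
  have hg : DifferentiableOn ℂ g (ball c r) :=
    (differentiableOn_dslope (isOpen_ball.mem_nhds hc)).2 hf
  have hgM : ∀ w ∈ ball c r, ‖g w‖ ≤ 2 * M / r := fun w hw =>
    norm_dslope_le_div_of_mapsTo_ball hf hmaps hw
  have hmaps2 : MapsTo g (ball c r) (closedBall (g c) (2 * (2 * M / r))) := by
    intro w hw
    rw [mem_closedBall, dist_eq_norm]
    calc ‖g w - g c‖ ≤ ‖g w‖ + ‖g c‖ := norm_sub_le _ _
      _ ≤ 2 * (2 * M / r) := by linarith [hgM w hw, hgM c hc]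
  have h1 := dist_le_div_mul_dist_of_mapsTo_ball hg hmaps2 hz
  rw [dist_eq_norm, dist_eq_norm] at h1
  have h2 : f z - f c = (z - c) * g z := by
    have := sub_smul_dslope f c z
    rw [smul_eq_mul] at this
    exact this.symm
  have h3 : deriv f c = g c := (dslope_same f c).symm
  rw [h2, h3]
  have h4 : (z - c) * g z - g c * (z - c) = (z - c) * (g z - g c) := by ring
  rw [h4, norm_mul]
  calc ‖z - c‖ * ‖g z - g c‖ ≤ ‖z - c‖ * (2 * (2 * M / r) / r * ‖z - c‖) :=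
        mul_le_mul_of_nonneg_left h1 (norm_nonneg _)
    _ = 4 * M / r ^ 2 * ‖z - c‖ ^ 2 := by
        field_simp
        ring

theorem growth (p : ℂ[X]) (hp : p ≠ 0) : ∃ c > 0, ∃ C > 0, ∃ R : ℝ, 1 ≤ R ∧ ∀ z : ℂ, R ≤ ‖z‖ →
    c * ‖z‖ ^ p.natDegree ≤ ‖p.eval z‖ ∧ ‖p.eval z‖ ≤ C * ‖z‖ ^ p.natDegree := by
  have h := Polynomial.isEquivalent_cobounded_leading_monomial (R := ℂ) (P := p)
  obtain ⟨C, hC, h1⟩ := h.isBigO.exists_pos
  obtain ⟨c, hc, h2⟩ := h.isBigO_symm.exists_pos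
  rw [Asymptotics.IsBigOWith] at h1 h2
  obtain ⟨R1, -, hR1⟩ := (hasBasis_cobounded_norm.eventually_iff).1 (h1.and h2)
  have hl : 0 < ‖p.leadingCoeff‖ := norm_pos_iff.2 (leadingCoeff_ne_zero.2 hp)
  refine ⟨‖p.leadingCoeff‖ / c, by positivity, C * ‖p.leadingCoeff‖, by positivity, max 1 R1,
    le_max_left _ _, fun z hz => ?_⟩
  obtain ⟨h3, h4⟩ := hR1 (show R1 ≤ ‖z‖ from (le_max_right _ _).trans hz)
  rw [norm_mul, norm_pow] at h3 h4
  constructor
  · rw [div_mul_eq_mul_div, div_le_iff₀ hc, mul_comm _ c]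
    exact h4
  · rw [mul_assoc]
    exact h3

/-- The denominator. -/
noncomputable def D (P Q : ℂ[X]) : ℂ[X] := Q * P + derivative P

/-- The logarithmic derivative of `P e^{∫Q}`. -/
noncomputable def H (P Q : ℂ[X]) (z : ℂ) : ℂ := (D P Q).eval z / P.eval z

/-- The Newton map. -/
noncomputable def N (P Q : ℂ[X]) (z : ℂ) : ℂ := z - P.eval z / (D P Q).eval z

theorem N_eq (P Q : ℂ[X]) (z : ℂ) : N P Q z = z - (H P Q z)⁻¹ := by
  rw [N, H, inv_div]

section
variable {P Q : ℂ[X]} (hP : 1 ≤ P.natDegree) (hQ : Q ≠ 0)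
include hP hQ

theorem D_natDegree : (D P Q).natDegree = Q.natDegree + P.natDegree := by
  have hP0 : P ≠ 0 := by
    rintro rfl
    simp at hP
  have h1 : (Q * P).natDegree = Q.natDegree + P.natDegree := natDegree_mul hQ hP0
  rw [D, natDegree_add_eq_left_of_natDegree_lt, h1]
  rw [h1]
  have := natDegree_derivative_lt (p := P) (by omega)
  omega

theorem D_ne_zero : D P Q ≠ 0 := by
  intro h
  have := D_natDegree hP hQ
  rw [h, natDegree_zero] at this
  omega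

theorem bounds : ∃ c > 0, ∃ C > 0, ∃ R : ℝ, 1 ≤ R ∧ ∀ z : ℂ, R ≤ ‖z‖ →
    P.eval z ≠ 0 ∧ (D P Q).eval z ≠ 0 ∧ c * ‖z‖ ^ Q.natDegree ≤ ‖H P Q z‖ ∧
    ‖H P Q z‖ ≤ C * ‖z‖ ^ Q.natDegree ∧
    ‖(derivative P).eval z / (D P Q).eval z‖ ≤ C / ‖z‖ ^ (Q.natDegree + 1) := by
  have hP0 : P ≠ 0 := by
    rintro rfl
    simp at hP
  have hP' : derivative P ≠ 0 := by
    intro h
    have := derivative_eq_zero.1 h
    omega
  obtain ⟨c1, hc1, C1, hC1, R1, hR1, h1⟩ := growth P hP0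
  obtain ⟨c2, hc2, C2, hC2, R2, hR2, h2⟩ := growth (D P Q) (D_ne_zero hP hQ)
  obtain ⟨c3, hc3, C3, hC3, R3, hR3, h3⟩ := growth (derivative P) hP'
  rw [D_natDegree hP hQ] at h2
  have hd3 : (derivative P).natDegree = P.natDegree - 1 := natDegree_derivative P
  rw [hd3] at h3
  refine ⟨c2 / C1, by positivity, C2 / c1 + C3 / c2, by positivity, max R1 (max R2 R3),
    hR1.trans (le_max_left _ _), fun z hz => ?_⟩
  have hz1 : R1 ≤ ‖z‖ := (le_max_left _ _).trans hz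
  have hz2 : R2 ≤ ‖z‖ := ((le_max_left _ _).trans (le_max_right _ _)).trans hz
  have hz3 : R3 ≤ ‖z‖ := ((le_max_right _ _).trans (le_max_right _ _)).trans hz
  have ht : 0 < ‖z‖ := by linarith
  obtain ⟨a1, a2⟩ := h1 z hz1
  obtain ⟨b1, b2⟩ := h2 z hz2
  obtain ⟨-, d2⟩ := h3 z hz3
  have hPz : 0 < ‖P.eval z‖ := lt_of_lt_of_le (by positivity) a1
  have hDz : 0 < ‖(D P Q).eval z‖ := lt_of_lt_of_le (by positivity) b1
  refine ⟨norm_pos_iff.1 hPz, norm_pos_iff.1 hDz, ?_, ?_, ?_⟩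
  · rw [H, norm_div, le_div_iff₀ hPz]
    calc c2 / C1 * ‖z‖ ^ Q.natDegree * ‖P.eval z‖ ≤
          c2 / C1 * ‖z‖ ^ Q.natDegree * (C1 * ‖z‖ ^ P.natDegree) :=
          mul_le_mul_of_nonneg_left a2 (by positivity)
      _ = c2 * ‖z‖ ^ (Q.natDegree + P.natDegree) := by
          rw [pow_add]
          field_simp
      _ ≤ _ := b1
  · rw [H, norm_div, div_le_iff₀ hPz]
    calc ‖(D P Q).eval z‖ ≤ C2 * ‖z‖ ^ (Q.natDegree + P.natDegree) := b2
      _ = C2 / c1 * ‖z‖ ^ Q.natDegree * (c1 * ‖z‖ ^ P.natDegree) := by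
          rw [pow_add]
          field_simp
      _ ≤ C2 / c1 * ‖z‖ ^ Q.natDegree * ‖P.eval z‖ :=
          mul_le_mul_of_nonneg_left a1 (by positivity)
      _ ≤ (C2 / c1 + C3 / c2) * ‖z‖ ^ Q.natDegree * ‖P.eval z‖ := by
          have : 0 ≤ C3 / c2 * (‖z‖ ^ Q.natDegree * ‖P.eval z‖) := by positivity
          linarith
  · rw [norm_div, div_le_div_iff₀ hDz (by positivity)]
    calc ‖(derivative P).eval z‖ * ‖z‖ ^ (Q.natDegree + 1) ≤
          C3 * ‖z‖ ^ (P.natDegree - 1) * ‖z‖ ^ (Q.natDegree + 1) :=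
          mul_le_mul_of_nonneg_right d2 (by positivity)
      _ = C3 / c2 * (c2 * ‖z‖ ^ (Q.natDegree + P.natDegree)) := by
          have : Q.natDegree + P.natDegree = (P.natDegree - 1) + (Q.natDegree + 1) := by omega
          rw [this, pow_add ‖z‖ (P.natDegree - 1)]
          field_simp
      _ ≤ C3 / c2 * ‖(D P Q).eval z‖ := mul_le_mul_of_nonneg_left b1 (by positivity)
      _ ≤ (C2 / c1 + C3 / c2) * ‖(D P Q).eval z‖ := by
          have : 0 ≤ C2 / c1 * ‖(D P Q).eval z‖ := by positivity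
          linarith

end

theorem H_hasDerivAt {P Q : ℂ[X]} {z : ℂ} (hz : P.eval z ≠ 0) :
    HasDerivAt (H P Q) (deriv (H P Q) z) z := by
  have : DifferentiableAt ℂ (H P Q) z :=
    ((D P Q).hasDerivAt z).differentiableAt.div (P.hasDerivAt z).differentiableAt hz
  exact this.hasDerivAt

theorem N_hasDerivAt {P Q : ℂ[X]} {z : ℂ} (hz : P.eval z ≠ 0) (hD : (D P Q).eval z ≠ 0) :
    HasDerivAt (N P Q) (1 + deriv (H P Q) z * (H P Q z)⁻¹ ^ 2) z := by
  have hH : H P Q z ≠ 0 := div_ne_zero hD hz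
  have h1 := (hasDerivAt_id z).sub ((H_hasDerivAt hz).inv hH)
  have e : N P Q = fun z => id z - (H P Q z)⁻¹ := by
    funext w
    exact N_eq P Q w
  rw [e]
  have e2 : 1 + deriv (H P Q) z * (H P Q z)⁻¹ ^ 2 = 1 - (-deriv (H P Q) z / H P Q z ^ 2) := by
    rw [inv_pow]
    ring
  rw [e2]
  exact h1

section
variable {P Q : ℂ[X]} (hP : 1 ≤ P.natDegree) (hQ : Q ≠ 0)
include hP hQ

/-- The distortion factor. -/
theorem factor : ∃ K > 0, ∃ R : ℝ, 1 ≤ R ∧ ∀ z : ℂ, R ≤ ‖z‖ →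
    ‖H P Q (N P Q z) * deriv (N P Q) z * (H P Q z)⁻¹ - 1‖ ≤ K / (‖z‖ ^ (Q.natDegree + 1)) ^ 2 := by
  obtain ⟨c, hc, C, hC, R, hR, hb⟩ := bounds hP hQ
  set q := Q.natDegree
  set K0 : ℝ := C * (3 / 2) ^ q with hK0
  have hK0pos : 0 < K0 := by positivity
  set K1 : ℝ := 4 * K0 / c ^ 2 with hK1
  set K2 : ℝ := 16 * K0 / c ^ 3 with hK2
  have hK1pos : 0 < K1 := by positivity
  have hK2pos : 0 < K2 := by positivity
  refine ⟨K1 ^ 2 + K2 * (1 + K1), by positivity, max (2 * R) (4 / c),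
    by linarith [le_max_left (2 * R) (4 / c)], fun z hz => ?_⟩
  have hz1 : 2 * R ≤ ‖z‖ := (le_max_left _ _).trans hz
  have hz2 : 4 / c ≤ ‖z‖ := (le_max_right _ _).trans hz
  set t := ‖z‖ with ht
  have ht1 : 1 ≤ t := by linarith
  have htpos : 0 < t := by linarith
  have hA : 1 ≤ t ^ q := one_le_pow₀ ht1
  have hApos : 0 < t ^ q := by linarith
  set A := t ^ q with hAdef
  obtain ⟨hPz, hDz, g1, g2, -⟩ := hb z (by linarith)
  have hH : H P Q z ≠ 0 := div_ne_zero hDz hPz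
  set δ := (H P Q z)⁻¹ with hδ
  have hδn : ‖δ‖ ≤ 1 / (c * A) := by
    rw [hδ, norm_inv, ← one_div]
    exact one_div_le_one_div_of_le (by positivity) g1
  have hδ1 : ‖δ‖ ≤ 1 / c := hδn.trans (one_div_le_one_div_of_le hc (by nlinarith))
  have hr : (0 : ℝ) < t / 2 := by linarith
  have hball : ∀ w ∈ ball z (t / 2), R ≤ ‖w‖ ∧ ‖w‖ ≤ 3 / 2 * t := by
    intro w hw
    rw [mem_ball, dist_eq_norm] at hw
    have h1 : ‖z‖ ≤ ‖w‖ + ‖w - z‖ := by
      have := norm_sub_le w (w - z)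
      rwa [sub_sub_cancel] at this
    have h2 : ‖w‖ ≤ ‖z‖ + ‖w - z‖ := by
      have := norm_add_le z (w - z)
      rwa [add_sub_cancel] at this
    constructor <;> linarith
  have hdiff : DifferentiableOn ℂ (H P Q) (ball z (t / 2)) := fun w hw =>
    (H_hasDerivAt (hb w (hball w hw).1).1).differentiableAt.differentiableWithinAt
  have hM : ∀ w ∈ ball z (t / 2), ‖H P Q w‖ ≤ K0 * A := by
    intro w hw
    obtain ⟨h1, h2⟩ := hball w hw
    refine (hb w h1).2.2.2.1.trans ?_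
    have h3 : ‖w‖ ^ q ≤ (3 / 2 * t) ^ q := pow_le_pow_left₀ (norm_nonneg _) h2 q
    rw [mul_pow] at h3
    calc C * ‖w‖ ^ q ≤ C * ((3 / 2) ^ q * t ^ q) := mul_le_mul_of_nonneg_left h3 hC.le
      _ = K0 * A := by rw [hK0, hAdef]; ring
  obtain ⟨t1, t2⟩ := taylor hr hdiff hM
  have hNz : N P Q z = z - δ := N_eq P Q z
  have hmem : z - δ ∈ ball z (t / 2) := by
    rw [mem_ball, dist_eq_norm]
    have : z - δ - z = -δ := by ring
    rw [this, norm_neg]
    have h1 : 1 / c < t / 2 := by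
      have h2 : 4 / c = 4 * (1 / c) := by ring
      have h3 : 0 < 1 / c := by positivity
      linarith
    linarith
  have t3 := t2 (z - δ) hmem
  have e0 : z - δ - z = -δ := by ring
  rw [e0, norm_neg] at t3
  set h' := deriv (H P Q) z with hh'
  set E := H P Q (z - δ) - H P Q z - h' * -δ with hE
  have hderiv : deriv (N P Q) z = 1 + h' * δ ^ 2 := (N_hasDerivAt hPz hDz).deriv
  have hHδ : H P Q z * δ = 1 := mul_inv_cancel₀ hH
  have hT : H P Q (N P Q z) * deriv (N P Q) z * δ - 1 =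
      -(h' * δ ^ 2) ^ 2 + E * δ * (1 + h' * δ ^ 2) := by
    rw [hderiv, hNz]
    have e1 : H P Q (z - δ) = H P Q z - h' * δ + E := by rw [hE]; ring
    rw [e1]
    linear_combination (1 + h' * δ ^ 2) * hHδ
  rw [hT]
  have htA : t ^ (q + 1) = t * A := by rw [pow_succ, mul_comm]
  rw [htA]
  -- bounds
  have b1 : ‖h' * δ ^ 2‖ ≤ K1 / (t * A) := by
    rw [norm_mul, norm_pow]
    calc ‖h'‖ * ‖δ‖ ^ 2 ≤ (2 * (K0 * A) / (t / 2)) * (1 / (c * A)) ^ 2 :=
          mul_le_mul t1 (pow_le_pow_left₀ (norm_nonneg _) hδn 2) (by positivity) (by positivity)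
      _ = K1 / (t * A) := by
          rw [hK1]
          field_simp
          ring
  have b2 : ‖E * δ‖ ≤ K2 / (t * A) ^ 2 := by
    rw [norm_mul]
    calc ‖E‖ * ‖δ‖ ≤ (4 * (K0 * A) / (t / 2) ^ 2 * ‖δ‖ ^ 2) * ‖δ‖ :=
          mul_le_mul_of_nonneg_right t3 (norm_nonneg _)
      _ = 4 * (K0 * A) / (t / 2) ^ 2 * ‖δ‖ ^ 3 := by ring
      _ ≤ 4 * (K0 * A) / (t / 2) ^ 2 * (1 / (c * A)) ^ 3 :=
          mul_le_mul_of_nonneg_left (pow_le_pow_left₀ (norm_nonneg _) hδn 3) (by positivity)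
      _ = K2 / (t * A) ^ 2 := by
          rw [hK2]
          field_simp
          ring
  have htA1 : 1 ≤ t * A := by nlinarith
  have b3 : ‖1 + h' * δ ^ 2‖ ≤ 1 + K1 := by
    refine (norm_add_le _ _).trans ?_
    rw [norm_one]
    have : K1 / (t * A) ≤ K1 := div_le_self hK1pos.le htA1
    linarith
  calc ‖-(h' * δ ^ 2) ^ 2 + E * δ * (1 + h' * δ ^ 2)‖ ≤
        ‖-(h' * δ ^ 2) ^ 2‖ + ‖E * δ * (1 + h' * δ ^ 2)‖ := norm_add_le _ _
    _ = ‖h' * δ ^ 2‖ ^ 2 + ‖E * δ‖ * ‖1 + h' * δ ^ 2‖ := by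
        rw [norm_neg, norm_pow, norm_mul (E * δ)]
    _ ≤ (K1 / (t * A)) ^ 2 + K2 / (t * A) ^ 2 * (1 + K1) := by
        apply add_le_add
        · exact pow_le_pow_left₀ (norm_nonneg _) b1 2
        · exact mul_le_mul b2 b3 (norm_nonneg _) (by positivity)
    _ = (K1 ^ 2 + K2 * (1 + K1)) / (t * A) ^ 2 := by
        rw [div_pow]
        ring

/-- One step of the Newton map decreases `G = ∫ Q` by almost one. -/
theorem step {G : ℂ[X]} (hG : derivative G = Q) : ∃ R : ℝ, 1 ≤ R ∧ ∀ z : ℂ, R ≤ ‖z‖ →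
    ‖G.eval (N P Q z) - G.eval z + 1‖ ≤ 1 / 2 := by
  obtain ⟨c, hc, C, hC, R, hR, hb⟩ := bounds hP hQ
  have hG0 : G ≠ 0 := by
    rintro rfl
    rw [derivative_zero] at hG
    exact hQ hG.symm
  have hGd : G.natDegree = Q.natDegree + 1 := by
    have h1 : G.natDegree ≠ 0 := by
      intro h
      obtain ⟨a, ha⟩ := natDegree_eq_zero.1 h
      rw [← ha, derivative_C] at hG
      exact hQ hG.symm
    have h2 := natDegree_derivative G
    rw [hG] at h2
    omega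
  obtain ⟨c2, hc2, C2, hC2, R2, hR2, hg⟩ := growth G hG0
  rw [hGd] at hg
  set q := Q.natDegree
  set K0 : ℝ := C2 * (3 / 2) ^ (q + 1) with hK0
  have hK0pos : 0 < K0 := by positivity
  set K : ℝ := 16 * K0 / c ^ 2 + C with hK
  have hKpos : 0 < K := by positivity
  refine ⟨max (max (2 * R) (2 * R2)) (max (4 / c) (2 * K)), ?_, fun z hz => ?_⟩
  · have := le_max_left (max (2 * R) (2 * R2)) (max (4 / c) (2 * K))
    have := le_max_left (2 * R) (2 * R2)
    linarith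
  have hz1 : 2 * R ≤ ‖z‖ := ((le_max_left _ _).trans (le_max_left _ _)).trans hz
  have hz1' : 2 * R2 ≤ ‖z‖ := ((le_max_right _ _).trans (le_max_left _ _)).trans hz
  have hz2 : 4 / c ≤ ‖z‖ := ((le_max_left _ _).trans (le_max_right _ _)).trans hz
  have hz3 : 2 * K ≤ ‖z‖ := ((le_max_right _ _).trans (le_max_right _ _)).trans hz
  set t := ‖z‖ with ht
  have ht1 : 1 ≤ t := by linarith
  have htpos : 0 < t := by linarith
  have hA : 1 ≤ t ^ q := one_le_pow₀ ht1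
  have hApos : 0 < t ^ q := by linarith
  set A := t ^ q with hAdef
  obtain ⟨hPz, hDz, g1, g2, g3⟩ := hb z (by linarith)
  have hH : H P Q z ≠ 0 := div_ne_zero hDz hPz
  set δ := (H P Q z)⁻¹ with hδ
  have hδn : ‖δ‖ ≤ 1 / (c * A) := by
    rw [hδ, norm_inv, ← one_div]
    exact one_div_le_one_div_of_le (by positivity) g1
  have hδ1 : ‖δ‖ ≤ 1 / c := hδn.trans (one_div_le_one_div_of_le hc (by nlinarith))
  have hr : (0 : ℝ) < t / 2 := by linarith
  have hball : ∀ w ∈ ball z (t / 2), R2 ≤ ‖w‖ ∧ ‖w‖ ≤ 3 / 2 * t := by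
    intro w hw
    rw [mem_ball, dist_eq_norm] at hw
    have h1 : ‖z‖ ≤ ‖w‖ + ‖w - z‖ := by
      have := norm_sub_le w (w - z)
      rwa [sub_sub_cancel] at this
    have h2 : ‖w‖ ≤ ‖z‖ + ‖w - z‖ := by
      have := norm_add_le z (w - z)
      rwa [add_sub_cancel] at this
    constructor <;> linarith
  have hdiff : DifferentiableOn ℂ (fun w => G.eval w) (ball z (t / 2)) :=
    G.differentiable.differentiableOn
  have hM : ∀ w ∈ ball z (t / 2), ‖G.eval w‖ ≤ K0 * (t * A) := by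
    intro w hw
    obtain ⟨h1, h2⟩ := hball w hw
    refine (hg w h1).2.trans ?_
    have h3 : ‖w‖ ^ (q + 1) ≤ (3 / 2 * t) ^ (q + 1) := pow_le_pow_left₀ (norm_nonneg _) h2 _
    rw [mul_pow] at h3
    calc C2 * ‖w‖ ^ (q + 1) ≤ C2 * ((3 / 2) ^ (q + 1) * t ^ (q + 1)) :=
          mul_le_mul_of_nonneg_left h3 hC2.le
      _ = K0 * (t * A) := by rw [hK0, hAdef, pow_succ t q]; ring
  obtain ⟨-, t2⟩ := taylor hr hdiff hM
  have hNz : N P Q z = z - δ := N_eq P Q z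
  have hmem : z - δ ∈ ball z (t / 2) := by
    rw [mem_ball, dist_eq_norm]
    have : z - δ - z = -δ := by ring
    rw [this, norm_neg]
    have h1 : 1 / c < t / 2 := by
      have h2 : 4 / c = 4 * (1 / c) := by ring
      have h3 : 0 < 1 / c := by positivity
      linarith
    linarith
  have t3 := t2 (z - δ) hmem
  have e0 : z - δ - z = -δ := by ring
  rw [e0, norm_neg] at t3
  have hGder : deriv (fun w => G.eval w) z = Q.eval z := by
    rw [(G.hasDerivAt z).deriv, hG]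
  rw [hGder] at t3
  have hQδ : 1 - Q.eval z * δ = (derivative P).eval z / (D P Q).eval z := by
    rw [hδ, H, inv_div]
    have : (D P Q).eval z = Q.eval z * P.eval z + (derivative P).eval z := by
      rw [D, eval_add, eval_mul]
    field_simp
    rw [this]
    ring
  have e1 : G.eval (N P Q z) - G.eval z + 1 =
      (G.eval (z - δ) - G.eval z - Q.eval z * -δ) + (1 - Q.eval z * δ) := by
    rw [hNz]
    ring
  rw [e1, hQδ]
  refine (norm_add_le _ _).trans ?_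
  have b1 : 4 * (K0 * (t * A)) / (t / 2) ^ 2 * ‖δ‖ ^ 2 ≤ 16 * K0 / c ^ 2 / t := by
    calc 4 * (K0 * (t * A)) / (t / 2) ^ 2 * ‖δ‖ ^ 2 ≤
          4 * (K0 * (t * A)) / (t / 2) ^ 2 * (1 / (c * A)) ^ 2 :=
          mul_le_mul_of_nonneg_left (pow_le_pow_left₀ (norm_nonneg _) hδn 2) (by positivity)
      _ = 16 * K0 / c ^ 2 / t / A := by
          field_simp
          ring
      _ ≤ 16 * K0 / c ^ 2 / t := div_le_self (by positivity) hA
  have b2 : C / t ^ (q + 1) ≤ C / t := by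
    apply div_le_div_of_nonneg_left hC.le htpos
    rw [pow_succ]
    nlinarith
  have b3 : 16 * K0 / c ^ 2 / t + C / t = K / t := by
    rw [hK]
    ring
  have b4 : K / t ≤ 1 / 2 := by
    rw [div_le_iff₀ htpos]
    linarith
  calc ‖G.eval (z - δ) - G.eval z - Q.eval z * -δ‖ + ‖(derivative P).eval z / (D P Q).eval z‖ ≤
        16 * K0 / c ^ 2 / t + C / t := add_le_add (t3.trans b1) (g3.trans b2)
    _ ≤ 1 / 2 := by rw [b3]; exact b4

end

end Pool.Agent.Q164.Newt
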