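import Pool.Agent.Q164.Newt1
import Mathlib.Topology.Covering.Basic
import Mathlib.Topology.Homotopy.Lifting
import Mathlib.Topology.Maps.Proper.CompactlyGenerated
import Mathlib.Analysis.Convex.Contractible
import Mathlib.AlgebraicTopology.FundamentalGroupoid.SimplyConnected
import Mathlib.Analysis.Calculus.InverseFunctionTheorem.Deriv
import Mathlib.Analysis.Calculus.Deriv.Inverse
import Mathlib.Analysis.Complex.CoveringMap

/-!
The Newton map `z - P/D` as a covering over the complement of the zeros of `P`, and inverse branches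
of its iterates on discs.
-/

namespace Pool.Agent.Q164.Newt

open Complex Metric Set Filter Topology Polynomial

/-- The complement of the poles. -/
def E (P Q : ℂ[X]) : Set ℂ := {z | (D P Q).eval z ≠ 0}

/-- The Newton map on the complement of its poles. -/
noncomputable def NE (P Q : ℂ[X]) (z : E P Q) : ℂ := N P Q z.1

theorem E_open (P Q : ℂ[X]) : IsOpen (E P Q) :=
  isOpen_ne_fun (D P Q).continuous continuous_const

theorem N_hasStrictDerivAt {P Q : ℂ[X]} {z : ℂ} (hD : (D P Q).eval z ≠ 0) :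
    HasStrictDerivAt (N P Q) (P.eval z * (Q * D P Q + derivative (D P Q)).eval z /
      (D P Q).eval z ^ 2) z := by
  have h1 := (hasStrictDerivAt_id z).sub ((P.hasStrictDerivAt z).div ((D P Q).hasStrictDerivAt z) hD)
  have e2 : P.eval z * (Q * D P Q + derivative (D P Q)).eval z / (D P Q).eval z ^ 2 =
      1 - ((derivative P).eval z * (D P Q).eval z - P.eval z * (derivative (D P Q)).eval z) /
        (D P Q).eval z ^ 2 := by
    rw [eval_add, eval_mul, eq_sub_iff_add_eq, ← add_div, div_eq_one_iff_eq (pow_ne_zero 2 hD)]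
    have : (D P Q).eval z = Q.eval z * P.eval z + (derivative P).eval z := by
      rw [D, eval_add, eval_mul]
    linear_combination (-(eval z (D P Q))) * this
  rw [e2]
  exact h1

theorem N_fix {P Q : ℂ[X]} {z : ℂ} (hz : P.eval z = 0) : N P Q z = z := by
  rw [N, hz, zero_div, sub_zero]

section
variable {P Q : ℂ[X]} (hP : 1 ≤ P.natDegree) (hs : ∀ z, P.eval z = 0 → (derivative P).eval z ≠ 0)
  (hQ : Q ≠ 0)
  (hZ : ∀ z, (Q * D P Q + derivative (D P Q)).eval z = 0 → P.eval z = 0 ∨ (D P Q).eval z = 0)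

include hs in
theorem D_ne_of_root {z : ℂ} (hz : P.eval z = 0) : (D P Q).eval z ≠ 0 := by
  rw [D, eval_add, eval_mul, hz, mul_zero, zero_add]
  exact hs z hz

include hZ in
theorem N_deriv_ne {z : ℂ} (hD : z ∈ E P Q) (hN : P.eval (N P Q z) ≠ 0) :
    P.eval z * (Q * D P Q + derivative (D P Q)).eval z / (D P Q).eval z ^ 2 ≠ 0 := by
  have hPz : P.eval z ≠ 0 := by
    intro h
    rw [N_fix h] at hN
    exact hN h
  apply div_ne_zero
  · apply mul_ne_zero hPz
    intro h
    rcases hZ z h with h1 | h1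
    · exact hPz h1
    · exact hD h1
  · exact pow_ne_zero 2 hD

include hZ in
theorem localHomeo : IsLocalHomeomorphOn (NE P Q) (NE P Q ⁻¹' {w | P.eval w ≠ 0}) := by
  have h1 : IsLocalHomeomorphOn (N P Q) {z | z ∈ E P Q ∧ P.eval (N P Q z) ≠ 0} := by
    rintro z ⟨hz1, hz2⟩
    exact ⟨_, ((N_hasStrictDerivAt hz1).hasStrictFDerivAt_equiv
      (N_deriv_ne hZ hz1 hz2)).mem_toOpenPartialHomeomorph_source, by simp⟩
  have h2 : IsLocalHomeomorph (Subtype.val : E P Q → ℂ) :=
    (E_open P Q).isOpenEmbedding_subtypeVal.isLocalHomeomorph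
  exact h1.comp (h2.isLocalHomeomorphOn (s := NE P Q ⁻¹' {w | P.eval w ≠ 0}))
    fun z hz => ⟨z.2, hz⟩

theorem NE_continuous : Continuous (NE P Q) := by
  rw [continuous_iff_continuousAt]
  intro z
  exact (N_hasStrictDerivAt z.2).hasDerivAt.continuousAt.comp continuous_subtype_val.continuousAt

include hP hs hQ in
theorem NE_proper : IsProperMap (NE P Q) := by
  rw [isProperMap_iff_isCompact_preimage]
  refine ⟨NE_continuous, fun K hK => ?_⟩
  obtain ⟨c, hc, C, hC, R, hR, hb⟩ := bounds hP hQ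
  obtain ⟨B, hB⟩ := hK.isBounded.exists_norm_le
  have h1 : IsCompact (NE P Q ⁻¹' closedBall 0 B) := by
    rw [Topology.IsEmbedding.subtypeVal.isCompact_iff]
    have e : Subtype.val '' (NE P Q ⁻¹' closedBall 0 B) =
        {z : ℂ | ‖z * (D P Q).eval z - P.eval z‖ ≤ B * ‖(D P Q).eval z‖} := by
      ext z
      constructor
      · rintro ⟨⟨w, hw⟩, hw2, rfl⟩
        rw [mem_preimage, mem_closedBall_zero_iff] at hw2
        show ‖w * (D P Q).eval w - P.eval w‖ ≤ B * ‖(D P Q).eval w‖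
        have hw' : (D P Q).eval w ≠ 0 := hw
        have e1 : w * (D P Q).eval w - P.eval w = N P Q w * (D P Q).eval w := by
          rw [N]
          field_simp
        rw [e1, norm_mul]
        exact mul_le_mul_of_nonneg_right hw2 (norm_nonneg _)
      · intro hz
        have hz' : ‖z * (D P Q).eval z - P.eval z‖ ≤ B * ‖(D P Q).eval z‖ := hz
        have hD : (D P Q).eval z ≠ 0 := by
          intro h
          rw [h, mul_zero, zero_sub, norm_neg, norm_zero, mul_zero] at hz'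
          have := norm_le_zero_iff.1 hz'
          exact D_ne_of_root hs this h
        refine ⟨⟨z, hD⟩, ?_, rfl⟩
        rw [mem_preimage, mem_closedBall_zero_iff]
        show ‖N P Q z‖ ≤ B
        have e1 : z * (D P Q).eval z - P.eval z = N P Q z * (D P Q).eval z := by
          rw [N]
          field_simp
        rw [e1, norm_mul] at hz'
        exact le_of_mul_le_mul_right hz' (norm_pos_iff.2 hD)
    rw [e]
    apply Metric.isCompact_of_isClosed_isBounded
    · apply isClosed_le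
      · exact ((continuous_id.mul (D P Q).continuous).sub P.continuous).norm
      · exact continuous_const.mul (D P Q).continuous.norm
    · rw [isBounded_iff_forall_norm_le]
      refine ⟨max R (B + 1 / c), fun z hz => ?_⟩
      by_contra hcon
      push Not at hcon
      have hzR : R ≤ ‖z‖ := ((le_max_left _ _).trans_lt hcon).le
      have hzB : B + 1 / c < ‖z‖ := (le_max_right _ _).trans_lt hcon
      obtain ⟨hPz, hDz, g1, -, -⟩ := hb z hzR
      have hz' : ‖z * (D P Q).eval z - P.eval z‖ ≤ B * ‖(D P Q).eval z‖ := hz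
      have e1 : z * (D P Q).eval z - P.eval z = N P Q z * (D P Q).eval z := by
        rw [N]
        field_simp
      rw [e1, norm_mul] at hz'
      have h3 : ‖N P Q z‖ ≤ B := le_of_mul_le_mul_right hz' (norm_pos_iff.2 hDz)
      have h4 : ‖(H P Q z)⁻¹‖ ≤ 1 / c := by
        rw [norm_inv, ← one_div]
        apply one_div_le_one_div_of_le hc
        have : 1 ≤ ‖z‖ ^ Q.natDegree := one_le_pow₀ (hR.trans hzR)
        nlinarith
      have h5 : z = N P Q z + (H P Q z)⁻¹ := by
        rw [N_eq]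
        ring
      have h6 := norm_add_le (N P Q z) (H P Q z)⁻¹
      rw [← h5] at h6
      linarith
  refine h1.of_isClosed_subset (hK.isClosed.preimage NE_continuous) ?_
  intro z hz
  rw [mem_preimage, mem_closedBall_zero_iff]
  exact hB _ hz

include hP hs hQ hZ in
theorem covering : IsCoveringMapOn (NE P Q) {w | P.eval w ≠ 0} := by
  apply (NE_proper hP hs hQ).isClosedMap.isCoveringMapOn_of_isLocalHomeomorphOn _ (localHomeo hZ)
  intro w _
  -- finite fibres
  set p : ℂ[X] := (X - C w) * D P Q - P with hp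
  have hp0 : p ≠ 0 := by
    intro h
    have h1 : (X - C w) * D P Q = P := by
      rw [hp] at h
      linear_combination h
    have h2 := congrArg natDegree h1
    rw [natDegree_mul (X_sub_C_ne_zero w) (D_ne_zero hP hQ), natDegree_X_sub_C,
      D_natDegree hP hQ] at h2
    omega
  have hfin : {z : ℂ | p.IsRoot z}.Finite := by
    have : {z : ℂ | p.IsRoot z} ⊆ p.roots.toFinset := by
      intro z hz
      rw [Finset.mem_coe, Multiset.mem_toFinset, mem_roots hp0]
      exact hz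
    exact p.roots.toFinset.finite_toSet.subset this
  refine (hfin.preimage (f := (Subtype.val : E P Q → ℂ)) Subtype.val_injective.injOn).subset ?_
  rintro ⟨z, hz⟩ hzw
  have hz' : (D P Q).eval z ≠ 0 := hz
  have h1 : N P Q z = w := hzw
  show p.eval z = 0
  rw [hp, eval_sub, eval_mul, eval_sub, eval_X, eval_C, ← h1, N]
  field_simp
  ring

include hP hs hQ hZ in
/-- One lifting step on a disc. -/
theorem lift_step {w₀ : ℂ} {ρ : ℝ} (hρ : 0 < ρ) {f : ℂ → ℂ} (hf : ContinuousOn f (ball w₀ ρ))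
    (hfP : ∀ w ∈ ball w₀ ρ, P.eval (f w) ≠ 0) {e₀ : ℂ} (he : e₀ ∈ E P Q) (he2 : N P Q e₀ = f w₀) :
    ∃ F : ℂ → ℂ, ContinuousOn F (ball w₀ ρ) ∧ F w₀ = e₀ ∧
      ∀ w ∈ ball w₀ ρ, F w ∈ E P Q ∧ N P Q (F w) = f w := by
  classical
  have hw₀ : w₀ ∈ ball w₀ ρ := mem_ball_self hρ
  have : ContractibleSpace (ball w₀ ρ) := (convex_ball w₀ ρ).contractibleSpace ⟨w₀, hw₀⟩
  have : SimplyConnectedSpace (ball w₀ ρ) := inferInstance
  have : LocallyPathConnectedSpace (ball w₀ ρ) := isOpen_ball.locallyPathConnectedSpace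
  let f' : C(ball w₀ ρ, ℂ) := ⟨fun a => f a.1, hf.domRestrict⟩
  obtain ⟨F, ⟨hF0, hF⟩, -⟩ := (covering hP hs hQ hZ).existsUnique_continuousMap_lifts f'
    (a₀ := ⟨w₀, hw₀⟩) (e₀ := ⟨e₀, he⟩) he2 (fun a => hfP a.1 a.2)
  refine ⟨fun w => if h : w ∈ ball w₀ ρ then (F ⟨w, h⟩).1 else 0, ?_, ?_, ?_⟩
  · rw [continuousOn_iff_continuous_domRestrict]
    have : (ball w₀ ρ).domRestrict (fun w => if h : w ∈ ball w₀ ρ then (F ⟨w, h⟩).1 else 0) =
        fun w => (F w).1 := by
      funext w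
      rw [domRestrict_apply, dif_pos w.2]
    rw [this]
    exact continuous_subtype_val.comp F.continuous
  · simp only [dif_pos hw₀, hF0]
  · intro w hw
    simp only [dif_pos hw]
    refine ⟨(F ⟨w, hw⟩).2, ?_⟩
    have := congrFun hF ⟨w, hw⟩
    exact this

include hP hs hQ hZ in
/-- Inverse branches of the iterates. -/
theorem branch (k : ℕ) : ∀ z₀ : ℂ, (∀ j < k, (N P Q)^[j] z₀ ∈ E P Q) → ∀ ρ : ℝ, 0 < ρ →
    (∀ w ∈ ball ((N P Q)^[k] z₀) ρ, P.eval w ≠ 0) →
    ∃ M : ℂ → ℂ, ContinuousOn M (ball ((N P Q)^[k] z₀) ρ) ∧ M ((N P Q)^[k] z₀) = z₀ ∧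
      ∀ w ∈ ball ((N P Q)^[k] z₀) ρ, P.eval (M w) ≠ 0 ∧ (∀ j < k, (N P Q)^[j] (M w) ∈ E P Q) ∧
        (N P Q)^[k] (M w) = w := by
  induction k with
  | zero =>
    intro z₀ _ ρ hρ hP'
    exact ⟨fun w => w, continuousOn_id, rfl, fun w hw => ⟨hP' w hw, fun j hj => by omega, rfl⟩⟩
  | succ k ih =>
    intro z₀ hz₀ ρ hρ hP'
    obtain ⟨M₁, hM₁c, hM₁0, hM₁⟩ := ih (N P Q z₀) (fun j hj => hz₀ (j + 1) (by omega)) ρ hρ hP'
    obtain ⟨M, hMc, hM0, hM⟩ := lift_step hP hs hQ hZ hρ hM₁c (fun w hw => (hM₁ w hw).1)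
      (hz₀ 0 (by omega)) hM₁0.symm
    refine ⟨M, hMc, hM0, fun w hw => ?_⟩
    obtain ⟨h1, h2⟩ := hM w hw
    obtain ⟨g1, g2, g3⟩ := hM₁ w hw
    refine ⟨?_, ?_, ?_⟩
    · intro h
      rw [N_fix h] at h2
      rw [← h2] at g1
      exact g1 h
    · intro j hj
      rcases j with _ | j
      · exact h1
      · rw [Function.iterate_succ_apply, h2]
        exact g2 j (by omega)
    · rw [Function.iterate_succ_apply, h2]
      exact g3

theorem iterate_fix {z : ℂ} (hz : P.eval z = 0) (k : ℕ) : (N P Q)^[k] z = z := by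
  induction k with
  | zero => rfl
  | succ k ih => rw [Function.iterate_succ_apply, N_fix hz, ih]

/-- The derivative of an iterate. -/
theorem iterate_deriv {z : ℂ} (k : ℕ) (hz : ∀ j < k, (N P Q)^[j] z ∈ E P Q) :
    HasDerivAt ((N P Q)^[k]) (∏ j ∈ Finset.range k, deriv (N P Q) ((N P Q)^[j] z)) z := by
  induction k with
  | zero =>
    rw [Finset.range_zero, Finset.prod_empty]
    exact hasDerivAt_id z
  | succ k ih =>
    have h1 := ih fun j hj => hz j (by omega)
    have h2 : HasDerivAt (N P Q) (deriv (N P Q) ((N P Q)^[k] z)) ((N P Q)^[k] z) :=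
      (N_hasStrictDerivAt (hz k (by omega))).hasDerivAt.differentiableAt.hasDerivAt
    rw [Finset.prod_range_succ, Function.iterate_succ', mul_comm]
    exact h2.comp z h1

include hZ in
theorem iterate_deriv_ne {z : ℂ} (k : ℕ) (hz : ∀ j < k, (N P Q)^[j] z ∈ E P Q)
    (hk : P.eval ((N P Q)^[k] z) ≠ 0) :
    ∏ j ∈ Finset.range k, deriv (N P Q) ((N P Q)^[j] z) ≠ 0 := by
  have hroot : ∀ j ≤ k, P.eval ((N P Q)^[j] z) ≠ 0 := by
    intro j hj h
    apply hk
    have : (N P Q)^[k] z = (N P Q)^[k - j] ((N P Q)^[j] z) := by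
      rw [← Function.iterate_add_apply]
      congr 2
      omega
    rw [this, iterate_fix h]
    exact h
  rw [Finset.prod_ne_zero_iff]
  intro j hj
  rw [Finset.mem_range] at hj
  have h1 := hroot (j + 1) (by omega)
  rw [Function.iterate_succ_apply'] at h1
  rw [(N_hasStrictDerivAt (hz j hj)).hasDerivAt.deriv]
  exact N_deriv_ne hZ (hz j hj) h1

include hP hs hQ hZ in
/-- Inverse branches are holomorphic, with the expected derivative at the centre. -/
theorem branch_deriv (k : ℕ) (z₀ : ℂ) (hz₀ : ∀ j < k, (N P Q)^[j] z₀ ∈ E P Q) (ρ : ℝ)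
    (hρ : 0 < ρ) (hPb : ∀ w ∈ ball ((N P Q)^[k] z₀) ρ, P.eval w ≠ 0) :
    ∃ M : ℂ → ℂ, DifferentiableOn ℂ M (ball ((N P Q)^[k] z₀) ρ) ∧ M ((N P Q)^[k] z₀) = z₀ ∧
      (∀ w ∈ ball ((N P Q)^[k] z₀) ρ, P.eval (M w) ≠ 0 ∧ (1 ≤ k → M w ∈ E P Q)) ∧
      deriv M ((N P Q)^[k] z₀) = (∏ j ∈ Finset.range k, deriv (N P Q) ((N P Q)^[j] z₀))⁻¹ := by
  obtain ⟨M, hMc, hM0, hM⟩ := branch hP hs hQ hZ k z₀ hz₀ ρ hρ hPb
  have hder : ∀ w ∈ ball ((N P Q)^[k] z₀) ρ,
      HasDerivAt M (∏ j ∈ Finset.range k, deriv (N P Q) ((N P Q)^[j] (M w)))⁻¹ w := by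
    intro w hw
    obtain ⟨h1, h2, h3⟩ := hM w hw
    apply HasDerivAt.of_local_left_inverse (f := (N P Q)^[k])
    · exact hMc.continuousAt (isOpen_ball.mem_nhds hw)
    · exact iterate_deriv k h2
    · apply iterate_deriv_ne hZ k h2
      rw [h3]
      exact hPb w hw
    · filter_upwards [isOpen_ball.mem_nhds hw] with v hv
      exact (hM v hv).2.2
  refine ⟨M, fun w hw => (hder w hw).differentiableAt.differentiableWithinAt, hM0,
    fun w hw => ⟨(hM w hw).1, fun hk => (hM w hw).2.1 0 hk⟩, ?_⟩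
  rw [(hder _ (mem_ball_self hρ)).deriv, hM0]

end

end Pool.Agent.Q164.Newt
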