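import Pool.Agent.Q164.Newt2
import Pool.Agent.Lev.J_schottky

/-!
The Newton map of `P e^{∫Q}` (`P` with simple zeros, nonconstant, `Q ≠ 0`) cannot have all its
critical points among the zeros of `P` and the poles: the parabolic point at infinity needs one.
-/

namespace Pool.Agent.Q164.Newt

open Complex Metric Set Filter Topology Polynomial

/-- A primitive of a polynomial. -/
noncomputable def prim (Q : ℂ[X]) : ℂ[X] :=
  ∑ i ∈ Finset.range (Q.natDegree + 1), C (Q.coeff i / ((i : ℂ) + 1)) * X ^ (i + 1)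

theorem derivative_prim (Q : ℂ[X]) : derivative (prim Q) = Q := by
  rw [prim, derivative_sum]
  conv_rhs => rw [Q.as_sum_range_C_mul_X_pow]
  apply Finset.sum_congr rfl
  intro i _
  rw [derivative_C_mul, derivative_X_pow, ← mul_assoc, Nat.add_sub_cancel, ← C_mul]
  congr 2
  have : ((i : ℂ) + 1) ≠ 0 := by exact_mod_cast Nat.succ_ne_zero i
  push_cast
  field_simp

theorem core {P Q : ℂ[X]} (hP : 1 ≤ P.natDegree)
    (hs : ∀ z, P.eval z = 0 → (derivative P).eval z ≠ 0) (hQ : Q ≠ 0)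
    (hZ : ∀ z, (Q * D P Q + derivative (D P Q)).eval z = 0 → P.eval z = 0 ∨ (D P Q).eval z = 0) :
    False := by
  set G := prim Q with hG
  have hGQ : derivative G = Q := derivative_prim Q
  have hG0 : G ≠ 0 := by
    intro h
    rw [h, derivative_zero] at hGQ
    exact hQ hGQ.symm
  have hGd : G.natDegree = Q.natDegree + 1 := by
    have h1 : G.natDegree ≠ 0 := by
      intro h
      obtain ⟨a, ha⟩ := natDegree_eq_zero.1 h
      rw [← ha, derivative_C] at hGQ
      exact hQ hGQ.symm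
    have h2 := natDegree_derivative G
    rw [hGQ] at h2
    omega
  obtain ⟨R1, hR1, hstep⟩ := step hP hQ hGQ
  obtain ⟨K, hK, R2, hR2, hfac⟩ := factor hP hQ
  obtain ⟨c, hc, C, hC, R3, hR3, hb⟩ := bounds hP hQ
  obtain ⟨c4, hc4, C4, hC4, R4, hR4, hg⟩ := growth G hG0
  rw [hGd] at hg
  set q := Q.natDegree
  set R : ℝ := R1 + R2 + 2 * R3 + R4 with hR
  -- G is bounded on the ball of radius R
  obtain ⟨B0, hB0⟩ := (isCompact_closedBall (0 : ℂ) R).exists_bound_of_continuousOn
    (f := fun z => G.eval z) G.continuous.continuousOn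
  have hB0' : 0 ≤ B0 := (norm_nonneg _).trans (hB0 0 (by
    rw [mem_closedBall_zero_iff, norm_zero]; linarith))
  obtain ⟨z₀, hz₀⟩ : ∃ z₀ : ℂ, G.eval z₀ = -(((B0 + 1 : ℝ)) : ℂ) := by
    obtain ⟨z₀, hz₀⟩ := IsAlgClosed.exists_root (G + Polynomial.C (((B0 + 1 : ℝ)) : ℂ)) (by
      rw [degree_add_C]
      · exact (natDegree_pos_iff_degree_pos.1 (by omega)).ne'
      · exact natDegree_pos_iff_degree_pos.1 (by omega))
    refine ⟨z₀, ?_⟩
    rw [IsRoot.def, eval_add, eval_C] at hz₀
    exact eq_neg_of_add_eq_zero_left hz₀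
  set z : ℕ → ℂ := fun k => (N P Q)^[k] z₀ with hz
  have hbig : ∀ w : ℂ, (G.eval w).re ≤ -(B0 + 1) → R < ‖w‖ := by
    intro w hw
    by_contra hcon
    push Not at hcon
    have h1 := hB0 w (mem_closedBall_zero_iff.2 hcon)
    have h2 := (abs_le.1 ((Complex.abs_re_le_norm (G.eval w)).trans h1)).1
    linarith
  have horb : ∀ k, (G.eval (z k)).re ≤ -(B0 + 1) - (k : ℝ) / 2 := by
    intro k
    induction k with
    | zero =>
      show (G.eval z₀).re ≤ _
      rw [hz₀, neg_re, ofReal_re]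
      simp
    | succ k ih =>
      have h1 : R < ‖z k‖ := hbig _ (ih.trans (by
        have : (0 : ℝ) ≤ (k : ℝ) / 2 := by positivity
        linarith))
      have h2 := hstep (z k) (by linarith)
      have h3 : z (k + 1) = N P Q (z k) := Function.iterate_succ_apply' _ _ _
      rw [← h3] at h2
      have h4 := (abs_le.1 ((Complex.abs_re_le_norm _).trans h2)).2
      rw [add_re, sub_re, one_re] at h4
      push_cast
      linarith
  have hzR : ∀ k, R < ‖z k‖ := fun k => hbig _ ((horb k).trans (by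
    have : (0 : ℝ) ≤ (k : ℝ) / 2 := by positivity
    linarith))
  have hzE : ∀ k, z k ∈ E P Q := fun k => (hb (z k) (by linarith [hzR k])).2.1
  have hzP : ∀ k, P.eval (z k) ≠ 0 := fun k => (hb (z k) (by linarith [hzR k])).1
  have hgrow : ∀ k : ℕ, ((k : ℝ) + 1) / (2 * C4) ≤ ‖z k‖ ^ (q + 1) := by
    intro k
    have h1 := (hg (z k) (by linarith [hzR k])).2
    have h2 : ((k : ℝ) + 1) / 2 ≤ ‖G.eval (z k)‖ := by
      have h3 := Complex.abs_re_le_norm (G.eval (z k))
      have h4 := neg_abs_le (G.eval (z k)).re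
      have h5 := horb k
      linarith
    rw [div_le_iff₀ (by positivity)]
    linarith
  -- the derivative of the iterates
  set d : ℕ → ℂ := fun k => ∏ j ∈ Finset.range k, deriv (N P Q) (z j) with hd
  set τ : ℕ → ℂ := fun k => H P Q (z (k + 1)) * deriv (N P Q) (z k) * (H P Q (z k))⁻¹ - 1 with hτ
  have hHne : ∀ k, H P Q (z k) ≠ 0 := fun k => div_ne_zero (hzE k) (hzP k)
  have hprod : ∀ k, H P Q (z k) * d k = H P Q z₀ * ∏ j ∈ Finset.range k, (1 + τ j) := by
    intro k
    induction k with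
    | zero => simp [hd, hz]
    | succ k ih =>
      have h1 : d (k + 1) = d k * deriv (N P Q) (z k) := Finset.prod_range_succ _ _
      rw [Finset.prod_range_succ, ← mul_assoc, ← ih, h1]
      have h2 : 1 + τ k = H P Q (z (k + 1)) * deriv (N P Q) (z k) * (H P Q (z k))⁻¹ := by
        rw [hτ]; ring
      rw [h2]
      have h3 := mul_inv_cancel₀ (hHne k)
      linear_combination (-(H P Q (z (k + 1)) * d k * deriv (N P Q) (z k))) * h3
  have hτb : ∀ j : ℕ, ‖τ j‖ ≤ 4 * K * C4 ^ 2 * (1 / ((j : ℝ) + 1) ^ 2) := by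
    intro j
    have h1 := hfac (z j) (by linarith [hzR j])
    have h3 : z (j + 1) = N P Q (z j) := Function.iterate_succ_apply' _ _ _
    rw [← h3] at h1
    refine h1.trans ?_
    have h2 := hgrow j
    have h4 : 0 < ((j : ℝ) + 1) / (2 * C4) := by positivity
    calc K / (‖z j‖ ^ (q + 1)) ^ 2 ≤ K / (((j : ℝ) + 1) / (2 * C4)) ^ 2 := by
          apply div_le_div_of_nonneg_left hK.le (by positivity)
          exact pow_le_pow_left₀ h4.le h2 2
      _ = 4 * K * C4 ^ 2 * (1 / ((j : ℝ) + 1) ^ 2) := by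
          field_simp
          ring
  have hsum : Summable fun n : ℕ => 4 * K * C4 ^ 2 * (1 / ((n : ℝ) + 1) ^ 2) := by
    have h := (summable_nat_add_iff 1).2 (Real.summable_one_div_nat_pow.2 (one_lt_two))
    apply Summable.mul_left
    simpa using h
  set B : ℝ := Real.exp (∑' n : ℕ, 4 * K * C4 ^ 2 * (1 / ((n : ℝ) + 1) ^ 2)) with hB
  have hBpos : 0 < B := Real.exp_pos _
  have hprodb : ∀ k, ‖∏ j ∈ Finset.range k, (1 + τ j)‖ ≤ B := by
    intro k
    rw [norm_prod]
    calc ∏ j ∈ Finset.range k, ‖1 + τ j‖ ≤ ∏ j ∈ Finset.range k, (1 + ‖τ j‖) := by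
          apply Finset.prod_le_prod
          · intro j _
            exact norm_nonneg _
          · intro j _
            refine (norm_add_le _ _).trans ?_
            rw [norm_one]
      _ ≤ Real.exp (∑ j ∈ Finset.range k, ‖τ j‖) :=
          Real.prod_one_add_le_exp_sum _ (fun j => norm_nonneg _)
      _ ≤ B := by
          apply Real.exp_le_exp.2
          calc ∑ j ∈ Finset.range k, ‖τ j‖ ≤
                ∑ j ∈ Finset.range k, 4 * K * C4 ^ 2 * (1 / ((j : ℝ) + 1) ^ 2) :=
                Finset.sum_le_sum fun j _ => hτb j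
            _ ≤ _ := hsum.sum_le_tsum _ (fun j _ => by positivity)
  set H0 : ℝ := ‖H P Q z₀‖ with hH0
  have hH0pos : 0 < H0 := norm_pos_iff.2 (hHne 0)
  have hdb : ∀ k, c * ‖z k‖ ^ q * ‖d k‖ ≤ H0 * B := by
    intro k
    have h1 := congrArg norm (hprod k)
    rw [norm_mul, norm_mul] at h1
    have h2 := (hb (z k) (by linarith [hzR k])).2.2.1
    calc c * ‖z k‖ ^ q * ‖d k‖ ≤ ‖H P Q (z k)‖ * ‖d k‖ :=
          mul_le_mul_of_nonneg_right h2 (norm_nonneg _)
      _ = H0 * ‖∏ j ∈ Finset.range k, (1 + τ j)‖ := h1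
      _ ≤ H0 * B := mul_le_mul_of_nonneg_left (hprodb k) hH0pos.le
  -- the omitted values
  obtain ⟨a, ha⟩ := IsAlgClosed.exists_root P
    (natDegree_pos_iff_degree_pos.1 (by omega : 0 < P.natDegree)).ne'
  obtain ⟨b, hb'⟩ := IsAlgClosed.exists_root (D P Q) (natDegree_pos_iff_degree_pos.1 (by
    rw [D_natDegree hP hQ]; omega)).ne'
  rw [IsRoot.def] at ha hb'
  have hab : b - a ≠ 0 := by
    intro h
    have : b = a := sub_eq_zero.1 h
    rw [this] at hb'
    exact D_ne_of_root hs ha hb'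
  obtain ⟨Cs, hCs⟩ := Pool.Agent.Lev.J_schottky.main ‖(z₀ - a) / (b - a)‖
  have hCs0 : ∀ k : ℕ, 1 ≤ k → ‖z k‖ ^ (q + 1) ≤ 8 * (Cs * ‖b - a‖) * (H0 * B) / c := by
    intro k hk
    have hzk : 0 < ‖z k‖ := by linarith [hzR k]
    set ρ : ℝ := ‖z k‖ / 2 with hρ
    have hρpos : 0 < ρ := by positivity
    obtain ⟨M, hMd, hM0, hM, hMder⟩ := branch_deriv hP hs hQ hZ k z₀ (fun j _ => hzE j) ρ hρpos (by
      intro w hw
      rw [mem_ball, dist_eq_norm] at hw
      have h1 : ‖z k‖ ≤ ‖w‖ + ‖w - z k‖ := by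
        have := norm_sub_le w (w - z k)
        rwa [sub_sub_cancel] at this
      have h2 : ‖w - z k‖ < ‖z k‖ / 2 := hw
      exact (hb w (by linarith [hzR k])).1)
    have hMd' : DifferentiableOn ℂ M (ball (z k) ρ) := hMd
    have hM0' : M (z k) = z₀ := hM0
    set h : ℂ → ℂ := fun w => (M w - a) / (b - a) with hh
    have hhd : DifferentiableOn ℂ h (ball (z k) ρ) := (hMd'.sub_const a).div_const _
    have h01 : ∀ w ∈ ball (z k) ρ, h w ≠ 0 ∧ h w ≠ 1 := by
      intro w hw
      obtain ⟨g1, g2⟩ := hM w hw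
      constructor
      · intro h0
        rw [hh] at h0
        simp only [div_eq_zero_iff, hab, or_false] at h0
        rw [sub_eq_zero.1 h0] at g1
        exact g1 ha
      · intro h1
        rw [hh] at h1
        simp only at h1
        rw [div_eq_one_iff_eq hab] at h1
        have : M w = b := by linear_combination h1
        have g3 := g2 hk
        rw [this] at g3
        exact g3 hb'
    have hsch := hCs h (z k) ρ hρpos hhd h01 (by rw [hh]; simp only; rw [hM0'])
    have hρ2 : 0 < ρ / 2 := by positivity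
    obtain ⟨t1, -⟩ := taylor hρ2 (hhd.mono (ball_subset_ball (by linarith))) hsch
    have hder : deriv h (z k) = deriv M (z k) / (b - a) := by
      have hMat : DifferentiableAt ℂ M (z k) :=
        hMd'.differentiableAt (isOpen_ball.mem_nhds (mem_ball_self hρpos))
      exact ((hMat.hasDerivAt.sub_const a).div_const (b - a)).deriv
    have hMder' : deriv M (z k) = (d k)⁻¹ := hMder
    rw [hder, hMder', norm_div, norm_inv] at t1
    have hdk : 0 < ‖d k‖ := by
      rw [norm_pos_iff]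
      intro h0
      have h1 := hprod k
      have h2 := iterate_deriv_ne hZ (z := z₀) k (fun j _ => hzE j) (hzP k)
      exact h2 h0
    have hbapos : 0 < ‖b - a‖ := norm_pos_iff.2 hab
    have h3 := hdb k
    have h4 : 2 * Cs / (ρ / 2) = 8 * Cs / ‖z k‖ := by
      rw [hρ]
      field_simp
      ring
    rw [h4, div_le_div_iff₀ hbapos hzk] at t1
    -- ‖d‖⁻¹ * ‖z‖ ≤ 8 Cs ‖b-a‖
    have h5 : ‖z k‖ ≤ 8 * (Cs * ‖b - a‖) * ‖d k‖ := by
      have := mul_le_mul_of_nonneg_right t1 hdk.le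
      rw [mul_comm (‖d k‖⁻¹), mul_assoc, inv_mul_cancel₀ hdk.ne', mul_one] at this
      linarith
    have h6 : 0 < 8 * (Cs * ‖b - a‖) := by
      by_contra hcon
      push Not at hcon
      have : 8 * (Cs * ‖b - a‖) * ‖d k‖ ≤ 0 := mul_nonpos_of_nonpos_of_nonneg hcon hdk.le
      linarith
    rw [le_div_iff₀ hc, pow_succ]
    calc ‖z k‖ ^ q * ‖z k‖ * c = (c * ‖z k‖ ^ q) * ‖z k‖ := by ring
      _ ≤ (c * ‖z k‖ ^ q) * (8 * (Cs * ‖b - a‖) * ‖d k‖) :=
          mul_le_mul_of_nonneg_left h5 (by positivity)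
      _ = 8 * (Cs * ‖b - a‖) * (c * ‖z k‖ ^ q * ‖d k‖) := by ring
      _ ≤ 8 * (Cs * ‖b - a‖) * (H0 * B) := mul_le_mul_of_nonneg_left h3 h6.le
  -- contradiction
  obtain ⟨k, hk⟩ := exists_nat_gt (2 * C4 * (8 * (Cs * ‖b - a‖) * (H0 * B) / c))
  have h1 := hCs0 (k + 1) (by omega)
  have h2 := (hgrow (k + 1)).trans h1
  rw [div_le_iff₀ (by positivity)] at h2
  push_cast at h2
  linarith

end Pool.Agent.Q164.Newt
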