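import Pool.Agent.Q164.CosD

/-!
Every linear operator on `ℝ[X]` is a series `∑ Q_k D^k`.
-/

namespace Pool.Agent.Q164

open Polynomial Finset

/-- The coefficient sequence of a linear operator. -/
noncomputable def repQ (T : ℝ[X] →ₗ[ℝ] ℝ[X]) : ℕ → ℝ[X]
  | n => C ((n.factorial : ℝ)⁻¹) *
      (T (X ^ n) - ∑ k : Fin n, repQ T k * derivative^[(k : ℕ)] (X ^ n))
termination_by n => n
decreasing_by exact k.2

theorem iterate_derivative_X_pow_self' (n : ℕ) :
    derivative^[n] (X ^ n : ℝ[X]) = C (n.factorial : ℝ) := by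
  rw [iterate_derivative_X_pow_eq_smul]
  rw [Nat.descFactorial_self, Nat.sub_self, pow_zero, smul_eq_C_mul, mul_one]

theorem repQ_spec (T : ℝ[X] →ₗ[ℝ] ℝ[X]) (n : ℕ) :
    ∑ k ∈ range (n + 1), repQ T k * derivative^[k] (X ^ n) = T (X ^ n) := by
  rw [sum_range_succ]
  have h1 : ∑ k ∈ range n, repQ T k * derivative^[k] (X ^ n : ℝ[X]) =
      ∑ k : Fin n, repQ T k * derivative^[(k : ℕ)] (X ^ n) :=
    (Fin.sum_univ_eq_sum_range (fun k => repQ T k * derivative^[k] (X ^ n : ℝ[X])) n).symm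
  rw [h1, iterate_derivative_X_pow_self']
  conv_lhs =>
    rw [repQ.eq_def T n]
  have hn : (n.factorial : ℝ) ≠ 0 := by exact_mod_cast n.factorial_ne_zero
  have h2 : (C ((n.factorial : ℝ)⁻¹) : ℝ[X]) * C (n.factorial : ℝ) = 1 := by
    rw [← C_mul, inv_mul_cancel₀ hn, C_1]
  linear_combination (T (X ^ n) - ∑ k : Fin n, repQ T k * derivative^[(k : ℕ)] (X ^ n)) * h2

theorem diffOp_repQ (T : ℝ[X] →ₗ[ℝ] ℝ[X]) : diffOp (repQ T) = T := by
  apply Polynomial.lhom_ext'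
  intro n
  apply LinearMap.ext_ring
  rw [LinearMap.comp_apply, LinearMap.comp_apply, ← X_pow_eq_monomial, diffOp_apply,
    natDegree_X_pow, repQ_spec]

theorem repQ_rep (T : ℝ[X] →ₗ[ℝ] ℝ[X]) (p : ℝ[X]) :
    T p = ∑ k ∈ range (p.natDegree + 1), repQ T k * derivative^[k] p := by
  conv_lhs => rw [← diffOp_repQ T]
  rfl

end Pool.Agent.Q164
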