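import Pool.Agent.Q164.Hyp2
import Mathlib.Analysis.Calculus.Deriv.Polynomial
import Mathlib.Analysis.Calculus.Deriv.Slope
import Mathlib.Topology.Order.IntermediateValue

/-!
Laguerre's inequality and stability of simple real roots under small constant perturbations.
-/

namespace Pool.Agent.Q164

open Polynomial Filter Topology

/-- Laguerre's inequality. -/
theorem Hyperbolic.laguerre {p : ℝ[X]} (hp : Hyperbolic p) (x : ℝ) :
    0 ≤ (derivative p).eval x ^ 2 - p.eval x * (derivative (derivative p)).eval x := by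
  induction hn : p.natDegree generalizing p with
  | zero =>
    rw [eq_C_of_natDegree_eq_zero hn]
    simp
  | succ n ih =>
    obtain ⟨r, q, rfl, hq, hd⟩ := hp.exists_factor (by omega)
    have := ih hq (by omega)
    simp only [derivative_mul, derivative_sub, derivative_X, derivative_C, derivative_add,
      eval_add, eval_mul, eval_sub, eval_X, eval_C, sub_zero, derivative_one, zero_mul, zero_add,
      one_mul, eval_one]
    nlinarith [mul_nonneg (sq_nonneg (x - r)) this, sq_nonneg (q.eval x)]

theorem sign_change {G : ℝ[X]} {r : ℝ} (h0 : G.eval r = 0) (h1 : (derivative G).eval r ≠ 0) :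
    ∀ᶠ ε in 𝓝[>] (0 : ℝ), G.eval (r - ε) * G.eval (r + ε) < 0 := by
  have hd := (G.hasDerivAt r).tendsto_slope
  set d := (derivative G).eval r with hd'
  have hpos : ∀ᶠ x in 𝓝[≠] r, 0 < slope (fun x => G.eval x) r x * d := by
    have : Tendsto (fun x => slope (fun x => G.eval x) r x * d) (𝓝[≠] r) (𝓝 (d * d)) :=
      hd.mul_const d
    exact this.eventually (lt_mem_nhds (mul_self_pos.2 h1))
  have hp : Tendsto (fun ε : ℝ => r + ε) (𝓝[>] 0) (𝓝[≠] r) := by
    apply tendsto_nhdsWithin_of_tendsto_nhds_of_eventually_within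
    · have : Tendsto (fun ε : ℝ => r + ε) (𝓝 0) (𝓝 (r + 0)) :=
        (continuous_const.add continuous_id).tendsto 0
      rw [add_zero] at this
      exact this.mono_left nhdsWithin_le_nhds
    · filter_upwards [self_mem_nhdsWithin] with ε hε
      simp only [Set.mem_compl_iff, Set.mem_singleton_iff, add_eq_left]
      exact (ne_of_gt hε)
  have hm : Tendsto (fun ε : ℝ => r - ε) (𝓝[>] 0) (𝓝[≠] r) := by
    apply tendsto_nhdsWithin_of_tendsto_nhds_of_eventually_within
    · have : Tendsto (fun ε : ℝ => r - ε) (𝓝 0) (𝓝 (r - 0)) :=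
        (continuous_const.sub continuous_id).tendsto 0
      rw [sub_zero] at this
      exact this.mono_left nhdsWithin_le_nhds
    · filter_upwards [self_mem_nhdsWithin] with ε hε
      simp only [Set.mem_compl_iff, Set.mem_singleton_iff, sub_eq_self]
      exact (ne_of_gt hε)
  filter_upwards [hp.eventually hpos, hm.eventually hpos, self_mem_nhdsWithin] with ε e1 e2 e3
  have e3' : (0 : ℝ) < ε := e3
  rw [slope_def_field, h0, sub_zero, add_sub_cancel_left] at e1
  rw [slope_def_field, h0, sub_zero, sub_sub_cancel_left] at e2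
  have := mul_pos e1 e2
  have e4 : G.eval (r + ε) / ε * d * (G.eval (r - ε) / -ε * d) =
      -(G.eval (r - ε) * G.eval (r + ε)) * (d ^ 2 / ε ^ 2) := by
    field_simp
  rw [e4] at this
  have h5 : 0 < d ^ 2 / ε ^ 2 := by positivity
  have := (mul_pos_iff_of_pos_right h5).1 this
  linarith

/-- If `F` consists of at least `deg G` roots of `G ≠ 0`, they are all simple. -/
theorem simple_of_card {G : ℝ[X]} (hG : G ≠ 0) {F : Finset ℝ} (hF : ∀ r ∈ F, G.eval r = 0)
    (hcard : G.natDegree ≤ F.card) : ∀ r ∈ F, (derivative G).eval r ≠ 0 := by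
  intro r hr h
  have h1 : 1 < G.rootMultiplicity r := (one_lt_rootMultiplicity_iff_isRoot hG).2 ⟨hF r hr, h⟩
  have h2 : r ::ₘ F.val ≤ G.roots := by
    rw [Multiset.le_iff_count]
    intro a
    by_cases ha : a = r
    · subst ha
      rw [Multiset.count_cons_self, Multiset.count_eq_one_of_mem F.nodup hr, count_roots]
      omega
    · rw [Multiset.count_cons_of_ne ha]
      by_cases haF : a ∈ F.val
      · rw [Multiset.count_eq_one_of_mem F.nodup haF, Nat.one_le_iff_ne_zero,
          Multiset.count_ne_zero, mem_roots hG]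
        exact hF a haF
      · rw [Multiset.count_eq_zero_of_notMem haF]
        exact Nat.zero_le _
  have h3 := Multiset.card_le_card h2
  rw [Multiset.card_cons] at h3
  have h4 := card_roots' G
  have : Multiset.card F.val = F.card := rfl
  omega

/-- Simple real roots in an open interval are stable under small constant perturbations. -/
theorem stable_roots {G : ℝ[X]} {m : ℕ} {F : Finset ℝ} {a b : ℝ} (hm : 0 < m)
    (hF : ∀ r ∈ F, G.eval r = 0 ∧ a < r ∧ r < b ∧ (derivative G).eval r ≠ 0)
    (hcard : F.card = m) (hG : G.natDegree ≤ m) :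
    ∀ᶠ δ in 𝓝 (0 : ℝ), ∀ z : ℂ, aeval z (G + C δ) = 0 → ∃ x : ℝ, a < x ∧ x < b ∧ z = x := by
  classical
  have key : ∀ᶠ ε in 𝓝[>] (0 : ℝ), (∀ r ∈ F, G.eval (r - ε) * G.eval (r + ε) < 0 ∧ a < r - ε ∧
      r + ε < b) ∧ (∀ r ∈ F, ∀ s ∈ F, r ≠ s → 2 * ε < |r - s|) ∧ 0 < ε := by
    refine Eventually.and ?_ (Eventually.and ?_ self_mem_nhdsWithin)
    · rw [Filter.eventually_all_finset]
      intro r hr
      obtain ⟨h1, h2, h3, h4⟩ := hF r hr
      refine (sign_change h1 h4).and (Eventually.and ?_ ?_)
      · have : ∀ᶠ ε in 𝓝 (0 : ℝ), ε < r - a := gt_mem_nhds (by linarith)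
        filter_upwards [this.filter_mono nhdsWithin_le_nhds] with ε hε
        linarith
      · have : ∀ᶠ ε in 𝓝 (0 : ℝ), ε < b - r := gt_mem_nhds (by linarith)
        filter_upwards [this.filter_mono nhdsWithin_le_nhds] with ε hε
        linarith
    · rw [Filter.eventually_all_finset]
      intro r hr
      rw [Filter.eventually_all_finset]
      intro s hs
      by_cases hrs : r = s
      · exact Eventually.of_forall fun ε h => absurd hrs h
      · have hpos : 0 < |r - s| := abs_pos.2 (sub_ne_zero.2 hrs)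
        have : ∀ᶠ ε in 𝓝 (0 : ℝ), ε < |r - s| / 2 := gt_mem_nhds (by linarith)
        filter_upwards [this.filter_mono nhdsWithin_le_nhds] with ε hε _
        linarith
  obtain ⟨ε, k1, k2, k3⟩ := key.exists
  have hδ : ∀ᶠ δ in 𝓝 (0 : ℝ), ∀ r ∈ F, (G.eval (r - ε) + δ) * (G.eval (r + ε) + δ) < 0 := by
    rw [Filter.eventually_all_finset]
    intro r hr
    have hc : Continuous fun δ : ℝ => (G.eval (r - ε) + δ) * (G.eval (r + ε) + δ) := by fun_prop
    have h0 : (G.eval (r - ε) + 0) * (G.eval (r + ε) + 0) < 0 := by simpa using (k1 r hr).1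
    exact (hc.tendsto 0).eventually (gt_mem_nhds h0)
  filter_upwards [hδ] with δ hδ z hz
  set H := G + C δ with hH
  have hroot : ∀ r ∈ F, ∃ x, r - ε < x ∧ x < r + ε ∧ H.eval x = 0 := by
    intro r hr
    have h1 := hδ r hr
    have e1 : ∀ x, H.eval x = G.eval x + δ := by intro x; rw [hH, eval_add, eval_C]
    rw [← e1, ← e1] at h1
    have hcont : ContinuousOn (fun x => H.eval x) (Set.Icc (r - ε) (r + ε)) :=
      H.continuous.continuousOn
    have hle : r - ε ≤ r + ε := by linarith
    rcases mul_neg_iff.1 h1 with ⟨h2, h3⟩ | ⟨h2, h3⟩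
    · obtain ⟨x, hx, hx0⟩ := intermediate_value_Ioo' hle hcont ⟨h3, h2⟩
      exact ⟨x, hx.1, hx.2, hx0⟩
    · obtain ⟨x, hx, hx0⟩ := intermediate_value_Ioo hle hcont ⟨h2, h3⟩
      exact ⟨x, hx.1, hx.2, hx0⟩
  choose! ρ hρ using hroot
  have hinj : Set.InjOn ρ F := by
    intro r hr s hs hrs
    by_contra hne
    have h1 := k2 r hr s hs hne
    obtain ⟨a1, a2, -⟩ := hρ r hr
    obtain ⟨b1, b2, -⟩ := hρ s hs
    rw [hrs] at a1 a2
    have : |r - s| < 2 * ε := by
      rw [abs_lt]
      constructor <;> linarith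
    linarith
  have hF0 : F.Nonempty := by
    rw [← Finset.card_pos, hcard]
    exact hm
  have hH0 : H ≠ 0 := by
    intro h0
    obtain ⟨r, hr⟩ := hF0
    have h1 := hδ r hr
    have e1 : ∀ x, H.eval x = G.eval x + δ := by intro x; rw [hH, eval_add, eval_C]
    rw [← e1, ← e1, h0] at h1
    simp at h1
  have hHd : H.natDegree ≤ m := by
    rw [hH]
    refine (natDegree_add_le _ _).trans ?_
    rw [natDegree_C]
    omega
  set P := H.map (algebraMap ℝ ℂ) with hP
  have hP0 : P ≠ 0 := Polynomial.map_ne_zero hH0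
  have hPd : P.natDegree ≤ m := by
    rw [hP, natDegree_map]
    exact hHd
  set E : Finset ℂ := F.image fun r => ((ρ r : ℝ) : ℂ) with hE
  have hEcard : E.card = m := by
    rw [hE, Finset.card_image_of_injOn, hcard]
    intro r hr s hs hrs
    have hrs' : ((ρ r : ℝ) : ℂ) = ((ρ s : ℝ) : ℂ) := hrs
    exact hinj hr hs (by exact_mod_cast hrs')
  have hEroot : ∀ w ∈ E, w ∈ P.roots := by
    intro w hw
    rw [hE, Finset.mem_image] at hw
    obtain ⟨r, hr, rfl⟩ := hw
    rw [mem_roots hP0, IsRoot.def, hP, ← aeval_eq_eval_map]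
    have := (hρ r hr).2.2
    have h2 := Polynomial.aeval_algebraMap_apply ℂ (ρ r) H
    simp only [Complex.coe_algebraMap] at h2
    rw [h2, coe_aeval_eq_eval, this]
    simp
  have hzroot : z ∈ P.roots := by
    rw [mem_roots hP0, IsRoot.def, hP, ← aeval_eq_eval_map]
    exact hz
  have hzE : z ∈ E := by
    by_contra hzE
    have h1 : insert z E ⊆ P.roots.toFinset := by
      intro w hw
      rw [Finset.mem_insert] at hw
      rw [Multiset.mem_toFinset]
      rcases hw with rfl | hw
      · exact hzroot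
      · exact hEroot w hw
    have h2 := Finset.card_le_card h1
    rw [Finset.card_insert_of_notMem hzE, hEcard] at h2
    have h3 := P.roots.toFinset_card_le
    have h4 := card_roots' P
    omega
  rw [hE, Finset.mem_image] at hzE
  obtain ⟨r, hr, rfl⟩ := hzE
  obtain ⟨h1, h2, h3⟩ := k1 r hr
  obtain ⟨a1, a2, -⟩ := hρ r hr
  exact ⟨ρ r, by linarith, by linarith, rfl⟩

end Pool.Agent.Q164
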