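import Mathlib.Analysis.SpecialFunctions.Log.Summable
import Mathlib.Analysis.SpecificLimits.Normed
import Mathlib.Analysis.Normed.Group.Tannery
import Mathlib.Tactic

/-!
Jacobi's identity `∑ (-1)^j (2j+1) q^{j(j+1)/2} = ∏ (1 - q^m)^3` for `0 < q < 1`.
-/

namespace Pool.Agent.Q164.Theta1

open Finset Polynomial Filter Topology

/-- Triangular numbers. -/
def T (j : ℕ) : ℕ := (j + 1).choose 2

theorem T_zero : T 0 = 0 := rfl

theorem T_succ (j : ℕ) : T (j + 1) = T j + (j + 1) := by
  unfold T
  rw [Nat.choose_succ_succ' (j + 1) 1, Nat.choose_one_right]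
  ring

theorem ch (n : ℕ) : 2 * n.choose 2 + n = n * n := by
  induction n with
  | zero => rfl
  | succ n ih =>
    rw [Nat.choose_succ_succ' n 1, Nat.choose_one_right]
    nlinarith

theorem two_T (j : ℕ) : 2 * T j = j * (j + 1) := by
  have := ch (j + 1)
  unfold T
  nlinarith

theorem le_T (j : ℕ) : j ≤ T j := by
  have := two_T j
  rcases Nat.eq_zero_or_pos j with h | h
  · rw [h]; exact Nat.zero_le _
  · nlinarith

/-- `∏_{i=1}^m (1 - q^i)`. -/
noncomputable def P (q : ℝ) (m : ℕ) : ℝ := ∏ i ∈ range m, (1 - q ^ (i + 1))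

theorem P_zero (q : ℝ) : P q 0 = 1 := by simp [P]

theorem P_succ (q : ℝ) (m : ℕ) : P q (m + 1) = P q m * (1 - q ^ (m + 1)) := by
  rw [P, prod_range_succ, P]

section
variable {q : ℝ} (h0 : 0 < q) (h1 : q < 1)
include h0 h1

theorem fac_pos (i : ℕ) : 0 < 1 - q ^ (i + 1) := by
  have := pow_lt_one₀ h0.le h1 (Nat.succ_ne_zero i)
  simpa using this

theorem P_pos (m : ℕ) : 0 < P q m := prod_pos fun i _ => fac_pos h0 h1 i

theorem P_anti : Antitone (P q) := by
  apply antitone_nat_of_succ_le
  intro m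
  rw [P_succ]
  have h2 := P_pos h0 h1 m
  have h3 : 0 < q ^ (m + 1) := pow_pos h0 _
  nlinarith

theorem P_le_one (m : ℕ) : P q m ≤ 1 := by
  have := P_anti h0 h1 (Nat.zero_le m)
  rwa [P_zero] at this

/-! ### the q-binomial theorem -/

omit h0 h1 in
/-- `∏_{k<M} (1 - q^k X)`. -/
noncomputable def R (q : ℝ) (M : ℕ) : ℝ[X] := ∏ k ∈ range M, (1 - C (q ^ k) * X)

omit h0 h1 in
theorem R_succ (M : ℕ) : R q (M + 1) = R q M - C (q ^ M) * (R q M * X) := by
  rw [R, prod_range_succ, R]
  ring

omit h0 h1 in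
theorem R_coeff_big (M : ℕ) : ∀ i, M < i → (R q M).coeff i = 0 := by
  induction M with
  | zero =>
    intro i hi
    rw [R, range_zero, prod_empty, coeff_one, if_neg (by omega)]
  | succ M ih =>
    intro i hi
    obtain ⟨k, rfl⟩ : ∃ k, i = k + 1 := ⟨i - 1, by omega⟩
    rw [R_succ, coeff_sub, coeff_C_mul, coeff_mul_X, ih _ (by omega), ih _ (by omega)]
    ring

theorem R_coeff (M : ℕ) : ∀ a b, a + b = M →
    (R q M).coeff a = (-1) ^ a * q ^ (a.choose 2) * (P q M / (P q a * P q b)) := by
  induction M with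
  | zero =>
    intro a b hab
    obtain ⟨rfl, rfl⟩ : a = 0 ∧ b = 0 := by omega
    simp [R, P_zero]
  | succ M ih =>
    intro a b hab
    rcases a with _ | a
    · obtain rfl : b = M + 1 := by omega
      have h2 := ih 0 M (by omega)
      have hM := (P_pos h0 h1 M).ne'
      have hM1 := (P_pos h0 h1 (M + 1)).ne'
      rw [R_succ, coeff_sub, coeff_C_mul, coeff_mul_X_zero, mul_zero, sub_zero, h2, P_zero,
        one_mul, one_mul, div_self hM, div_self hM1]
    · rcases b with _ | b
      · obtain rfl : a = M := by omega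
        have h2 := ih a 0 (by omega)
        have hM := (P_pos h0 h1 a).ne'
        have hM1 := (P_pos h0 h1 (a + 1)).ne'
        rw [R_succ, coeff_sub, coeff_C_mul, coeff_mul_X, R_coeff_big a (a + 1) (by omega), h2,
          P_zero, mul_one, mul_one, div_self hM, div_self hM1, Nat.choose_succ_succ' a 1,
          Nat.choose_one_right, pow_add q a, pow_succ (-1 : ℝ) a]
        ring
      · obtain rfl : M = a + b + 1 := by omega
        have h2 := ih (a + 1) b (by omega)
        have h3 := ih a (b + 1) (by omega)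
        rw [R_succ, coeff_sub, coeff_C_mul, coeff_mul_X, h2, h3, P_succ q (a + b + 1), P_succ q a,
          P_succ q b, Nat.choose_succ_succ' a 1, Nat.choose_one_right, pow_add q a,
          pow_succ (-1 : ℝ) a]
        have hab := (P_pos h0 h1 (a + b + 1)).ne'
        have ha := (P_pos h0 h1 a).ne'
        have hb := (P_pos h0 h1 b).ne'
        have ha1 := (fac_pos h0 h1 a).ne'
        have hb1 := (fac_pos h0 h1 b).ne'
        field_simp
        ring

theorem finite_identity (N : ℕ) :
    ∑ j ∈ range (N + 1), (-1) ^ j * (2 * (j : ℝ) + 1) * q ^ T j *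
      (P q (2 * N + 1) / (P q (N - j) * P q (N + 1 + j))) = P q N ^ 2 := by
  set M := 2 * N + 1 with hM
  set x : ℝ := (q ^ N)⁻¹ with hx
  have hqN : q ^ N ≠ 0 := (pow_pos h0 N).ne'
  have hxq : q ^ N * x = 1 := mul_inv_cancel₀ hqN
  set W : ℕ → ℝ := fun j => P q M / (P q (N - j) * P q (N + 1 + j)) with hW
  -- the factorisation
  set H : ℝ[X] := (∏ k ∈ range N, (1 - C (q ^ k) * X)) *
    ∏ k ∈ range N, (1 - C (q ^ (N + 1 + k)) * X) with hH
  have hfac : R q M = H * (1 - C (q ^ N) * X) := by
    rw [R, hM, show 2 * N + 1 = (N + 1) + N by ring, prod_range_add, prod_range_succ, hH]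
    ring
  have heval0 : (R q M).eval x = 0 := by
    rw [hfac, eval_mul]
    have : eval x (1 - C (q ^ N) * X) = 0 := by
      simp [hxq]
    rw [this, mul_zero]
  have hderiv : x * (derivative (R q M)).eval x = -H.eval x := by
    rw [hfac, derivative_mul, eval_add, eval_mul, eval_mul]
    have e1 : eval x (1 - C (q ^ N) * X) = 0 := by
      simp [hxq]
    have e2 : eval x (derivative (1 - C (q ^ N) * X)) = -q ^ N := by
      rw [derivative_sub, derivative_one, derivative_C_mul, derivative_X, mul_one, zero_sub,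
        eval_neg, eval_C]
    rw [e1, e2]
    linear_combination (-(eval x H)) * hxq
  have hHx : H.eval x * q ^ T N = (-1) ^ N * P q N ^ 2 := by
    have e1 : ∀ n : ℕ, (∏ j ∈ range n, (1 - (q ^ (j + 1))⁻¹)) * q ^ T n = (-1) ^ n * P q n := by
      intro n
      induction n with
      | zero => simp [T_zero, P_zero]
      | succ n ih =>
        have hqn : q ^ (n + 1) ≠ 0 := (pow_pos h0 _).ne'
        rw [prod_range_succ, T_succ, pow_add q (T n), P_succ, pow_succ (-1 : ℝ) n]
        calc (∏ j ∈ range n, (1 - (q ^ (j + 1))⁻¹)) * (1 - (q ^ (n + 1))⁻¹) *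
              (q ^ T n * q ^ (n + 1)) =
              ((∏ j ∈ range n, (1 - (q ^ (j + 1))⁻¹)) * q ^ T n) *
                (q ^ (n + 1) - (q ^ (n + 1))⁻¹ * q ^ (n + 1)) := by ring
          _ = _ := by
              rw [ih, inv_mul_cancel₀ hqn]
              ring
    have e2 : eval x (∏ k ∈ range N, (1 - C (q ^ k) * X)) =
        ∏ j ∈ range N, (1 - (q ^ (j + 1))⁻¹) := by
      rw [eval_prod, ← prod_range_reflect]
      apply prod_congr rfl
      intro j hj
      rw [mem_range] at hj
      simp only [eval_sub, eval_one, eval_mul, eval_C, eval_X]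
      congr 1
      rw [hx]
      have : q ^ N = q ^ (N - 1 - j) * q ^ (j + 1) := by
        rw [← pow_add]
        congr 1
        omega
      rw [this, mul_inv, ← mul_assoc, mul_inv_cancel₀ (pow_pos h0 _).ne', one_mul]
    have e3 : eval x (∏ k ∈ range N, (1 - C (q ^ (N + 1 + k)) * X)) = P q N := by
      rw [eval_prod, P]
      apply prod_congr rfl
      intro j _
      simp only [eval_sub, eval_one, eval_mul, eval_C, eval_X]
      congr 1
      rw [show N + 1 + j = N + (j + 1) by ring, pow_add]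
      linear_combination q ^ (j + 1) * hxq
    rw [hH, eval_mul, e2, e3]
    linear_combination P q N * e1 N
  -- sums
  have hdeg : (R q M).natDegree < M + 1 := by
    apply Nat.lt_succ_of_le
    rw [natDegree_le_iff_coeff_eq_zero]
    exact fun i hi => R_coeff_big M i hi
  have hs0 : ∑ i ∈ range (M + 1), (R q M).coeff i * x ^ i = 0 := by
    rw [← eval_eq_sum_range' hdeg, heval0]
  have hs1 : ∑ i ∈ range (M + 1), (i : ℝ) * ((R q M).coeff i * x ^ i) = -H.eval x := by
    rw [← hderiv]
    have hd : (X * derivative (R q M)).natDegree < M + 1 := by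
      apply Nat.lt_succ_of_le
      rw [natDegree_le_iff_coeff_eq_zero]
      intro i hi
      obtain ⟨k, rfl⟩ : ∃ k, i = k + 1 := ⟨i - 1, by omega⟩
      rw [coeff_X_mul, coeff_derivative, R_coeff_big M (k + 1) hi, zero_mul]
    have e : x * (derivative (R q M)).eval x = (X * derivative (R q M)).eval x := by
      rw [eval_mul, eval_X]
    rw [e, eval_eq_sum_range' hd]
    apply sum_congr rfl
    intro i _
    rcases i with _ | i
    · simp
    · rw [coeff_X_mul, coeff_derivative]
      push_cast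
      ring
  set u : ℕ → ℝ := fun i => (2 * (i : ℝ) - M) * ((R q M).coeff i * x ^ i) with hu
  have hs2 : ∑ i ∈ range (M + 1), u i = -2 * H.eval x := by
    have : ∀ i ∈ range (M + 1), u i = 2 * ((i : ℝ) * ((R q M).coeff i * x ^ i)) -
        M * ((R q M).coeff i * x ^ i) := by
      intro i _
      rw [hu]
      ring
    rw [sum_congr rfl this, sum_sub_distrib, ← mul_sum, ← mul_sum, hs0, hs1]
    ring
  have hx1 : ∀ (n m k : ℕ), n + T N = m + N * k → q ^ n * x ^ k * q ^ T N = q ^ m := by
    intro n m k h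
    have e1 : q ^ n * q ^ T N = q ^ m * (q ^ N) ^ k := by
      rw [← pow_add, h, pow_add, pow_mul]
    have e2 : (q ^ N) ^ k * x ^ k = 1 := by
      rw [← mul_pow, hxq, one_pow]
    calc q ^ n * x ^ k * q ^ T N = (q ^ n * q ^ T N) * x ^ k := by ring
      _ = q ^ m * ((q ^ N) ^ k * x ^ k) := by rw [e1]; ring
      _ = q ^ m := by rw [e2, mul_one]
  have hu1 : ∀ j, j ≤ N → u (N + 1 + j) * q ^ T N =
      (-1) ^ (N + 1) * ((-1) ^ j * (2 * (j : ℝ) + 1) * q ^ T j * W j) := by
    intro j hj
    have hc := R_coeff h0 h1 M (N + 1 + j) (N - j) (by omega)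
    have he := hx1 ((N + 1 + j).choose 2) (T j) (N + 1 + j) (by
      have a1 := ch (N + 1 + j)
      have a2 := two_T N
      have a3 := two_T j
      nlinarith)
    rw [hu, hW]
    simp only
    rw [hc, mul_comm (P q (N + 1 + j)) (P q (N - j))]
    have : (2 * ((N + 1 + j : ℕ) : ℝ) - (M : ℝ)) = 2 * (j : ℝ) + 1 := by
      rw [hM]
      push_cast
      ring
    rw [this, pow_add (-1 : ℝ) (N + 1) j]
    linear_combination (2 * (j : ℝ) + 1) * (-1) ^ (N + 1) * (-1) ^ j *
      (P q M / (P q (N - j) * P q (N + 1 + j))) * he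
  have hu2 : ∀ j, j ≤ N → u (N - j) * q ^ T N =
      (-1) ^ (N + 1) * ((-1) ^ j * (2 * (j : ℝ) + 1) * q ^ T j * W j) := by
    intro j hj
    obtain ⟨d, hd⟩ := Nat.exists_eq_add_of_le hj
    have hd' : N - j = d := by omega
    have hc := R_coeff h0 h1 M (N - j) (N + 1 + j) (by omega)
    have he := hx1 ((N - j).choose 2) (T j) (N - j) (by
      have a1 := ch (N - j)
      have a2 := two_T N
      have a3 := two_T j
      rw [hd'] at a1 ⊢
      rw [hd] at a2 ⊢
      nlinarith)
    rw [hu, hW]
    simp only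
    rw [hc]
    have h3 : (2 * ((N - j : ℕ) : ℝ) - (M : ℝ)) = -(2 * (j : ℝ) + 1) := by
      rw [hM, Nat.cast_sub hj]
      push_cast
      ring
    have h4 : (-1 : ℝ) ^ (N + 1) * (-1) ^ j = -(-1) ^ (N - j) := by
      have : N + 1 + j = (N - j) + (2 * j + 1) := by omega
      rw [← pow_add, this, pow_add, pow_add, pow_mul]
      norm_num
    rw [h3]
    linear_combination (-(2 * (j : ℝ) + 1)) * (-1) ^ (N - j) *
      (P q M / (P q (N - j) * P q (N + 1 + j))) * he -
      (2 * (j : ℝ) + 1) * q ^ T j * (P q M / (P q (N - j) * P q (N + 1 + j))) * h4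
  have hs3 : ∑ i ∈ range (M + 1), u i * q ^ T N =
      2 * ((-1) ^ (N + 1) * ∑ j ∈ range (N + 1), (-1) ^ j * (2 * (j : ℝ) + 1) * q ^ T j * W j) := by
    rw [hM, show 2 * N + 1 + 1 = (N + 1) + (N + 1) by ring, sum_range_add,
      ← sum_range_reflect, two_mul]
    congr 1
    · rw [mul_sum]
      apply sum_congr rfl
      intro j hj
      rw [mem_range] at hj
      rw [← hu2 j (by omega)]
      congr 2
    · rw [mul_sum]
      apply sum_congr rfl
      intro j hj
      rw [mem_range] at hj
      exact hu1 j (by omega)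
  rw [← sum_mul, hs2] at hs3
  have h5 : (-1 : ℝ) ^ (N + 1) * (-1) ^ (N + 1) = 1 := by
    rw [← mul_pow]
    norm_num
  have h6 : (-1 : ℝ) ^ (N + 1) = -(-1) ^ N := by rw [pow_succ]; ring
  have h7 : (-1 : ℝ) ^ N * (-1) ^ N = 1 := by
    rw [← mul_pow]
    norm_num
  show ∑ j ∈ range (N + 1), (-1) ^ j * (2 * (j : ℝ) + 1) * q ^ T j * W j = P q N ^ 2
  set S := ∑ j ∈ range (N + 1), (-1) ^ j * (2 * (j : ℝ) + 1) * q ^ T j * W j
  rw [h6] at hs3
  linear_combination (-S) * h7 + (P q N ^ 2) * h7 + (-1) ^ N * hHx + 1 / 2 * (-1) ^ N * hs3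

end

/-! ### The limit -/

/-- `∏_{i ≥ 1} (1 - q^i)`. -/
noncomputable def L (q : ℝ) : ℝ := ∏' i : ℕ, (1 - q ^ (i + 1))

/-- `∑ (-1)^j (2j+1) q^{T j}`. -/
noncomputable def Ainf (q : ℝ) : ℝ := ∑' j : ℕ, (-1) ^ j * (2 * (j : ℝ) + 1) * q ^ T j

section
variable {q : ℝ} (h0 : 0 < q) (h1 : q < 1)
include h0 h1

theorem summable_aux : Summable fun i : ℕ => ‖-q ^ (i + 1)‖ := by
  have h2 : Summable fun i : ℕ => q ^ (i + 1) := by
    have := (summable_geometric_of_lt_one h0.le h1)
    exact (summable_nat_add_iff 1).2 this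
  refine h2.congr fun i => ?_
  rw [norm_neg, Real.norm_eq_abs, abs_of_pos (pow_pos h0 _)]

theorem P_tendsto : Tendsto (P q) atTop (𝓝 (L q)) := by
  have h2 := (multipliable_one_add_of_summable (summable_aux h0 h1)).hasProd.tendsto_prod_nat
  simp only [← sub_eq_add_neg] at h2
  exact h2

theorem L_le_P (m : ℕ) : L q ≤ P q m := (P_anti h0 h1).le_of_tendsto (P_tendsto h0 h1) m

theorem L_pos : 0 < L q := by
  have h2 : 0 ≤ L q := ge_of_tendsto' (P_tendsto h0 h1) fun m => (P_pos h0 h1 m).le
  have h3 := tprod_one_add_ne_zero_of_summable (f := fun i : ℕ => -q ^ (i + 1)) (by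
    intro i
    rw [← sub_eq_add_neg]
    exact (fac_pos h0 h1 i).ne') (summable_aux h0 h1)
  simp only [← sub_eq_add_neg] at h3
  exact lt_of_le_of_ne h2 (Ne.symm h3)

theorem summable_dom : Summable fun j : ℕ => (2 * (j : ℝ) + 1) * q ^ T j := by
  have hn : ‖q‖ < 1 := by
    rw [Real.norm_eq_abs, abs_of_pos h0]
    exact h1
  have h5 : Summable fun j : ℕ => (j : ℝ) ^ 1 * q ^ j :=
    summable_pow_mul_geometric_of_norm_lt_one 1 hn
  have h6 : Summable fun j : ℕ => q ^ j := summable_geometric_of_lt_one h0.le h1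
  have h2 : Summable fun j : ℕ => 2 * ((j : ℝ) ^ 1 * q ^ j) + q ^ j := (h5.mul_left 2).add h6
  apply Summable.of_nonneg_of_le _ _ h2
  · intro j
    positivity
  · intro j
    have h3 : q ^ T j ≤ q ^ j := pow_le_pow_of_le_one h0.le h1.le (le_T j)
    have h4 : (0 : ℝ) ≤ j := Nat.cast_nonneg j
    nlinarith [pow_pos h0 j]

theorem summable_alt : Summable fun j : ℕ => (-1 : ℝ) ^ j * (2 * (j : ℝ) + 1) * q ^ T j := by
  apply Summable.of_norm
  refine (summable_dom h0 h1).congr fun j => ?_
  rw [norm_mul, norm_mul, norm_pow, norm_neg, norm_one, one_pow, one_mul, Real.norm_eq_abs,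
    Real.norm_eq_abs, abs_of_nonneg (by positivity), abs_of_pos (pow_pos h0 _)]

/-- **Jacobi's identity**. -/
theorem jacobi : Ainf q = L q ^ 3 := by
  have hL := L_pos h0 h1
  set F : ℕ → ℕ → ℝ := fun N j => if j ≤ N then (-1) ^ j * (2 * (j : ℝ) + 1) * q ^ T j *
      (P q (2 * N + 1) / (P q (N - j) * P q (N + 1 + j))) else 0 with hF
  have hlim : Tendsto (fun N => ∑' j, F N j) atTop
      (𝓝 (∑' j : ℕ, (-1) ^ j * (2 * (j : ℝ) + 1) * q ^ T j * (L q / (L q * L q)))) := by
    apply tendsto_tsum_of_dominated_convergence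
      (bound := fun j : ℕ => (2 * (j : ℝ) + 1) * q ^ T j * (1 / (L q * L q)))
    · exact (summable_dom h0 h1).mul_right _
    · intro j
      have h2 : Tendsto (fun N : ℕ => (-1) ^ j * (2 * (j : ℝ) + 1) * q ^ T j *
          (P q (2 * N + 1) / (P q (N - j) * P q (N + 1 + j)))) atTop
          (𝓝 ((-1) ^ j * (2 * (j : ℝ) + 1) * q ^ T j * (L q / (L q * L q)))) := by
        apply Tendsto.const_mul
        apply Tendsto.div
        · apply (P_tendsto h0 h1).comp
          apply tendsto_atTop_mono (fun n => ?_) tendsto_id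
          show n ≤ 2 * n + 1
          omega
        · apply Tendsto.mul
          · exact (P_tendsto h0 h1).comp (tendsto_sub_atTop_nat j)
          · apply (P_tendsto h0 h1).comp
            apply tendsto_atTop_mono (fun n => ?_) tendsto_id
            show n ≤ n + 1 + j
            omega
        · positivity
      apply h2.congr'
      filter_upwards [eventually_ge_atTop j] with N hN
      rw [hF]
      simp only [if_pos hN]
    · apply Eventually.of_forall
      intro N j
      rw [hF]
      simp only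
      split_ifs with h
      · rw [norm_mul, norm_mul, norm_mul, norm_pow, norm_neg, norm_one, one_pow, one_mul,
          Real.norm_eq_abs, Real.norm_eq_abs, Real.norm_eq_abs, abs_of_nonneg (by positivity),
          abs_of_pos (pow_pos h0 _)]
        apply mul_le_mul_of_nonneg_left _ (by positivity)
        have p1 := P_pos h0 h1 (2 * N + 1)
        have p2 := P_pos h0 h1 (N - j)
        have p3 := P_pos h0 h1 (N + 1 + j)
        rw [abs_of_pos (by positivity)]
        apply div_le_div₀ zero_le_one (P_le_one h0 h1 _) (by positivity)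
        exact mul_le_mul (L_le_P h0 h1 _) (L_le_P h0 h1 _) hL.le p2.le
      · rw [norm_zero]
        positivity
  have hsum : ∀ N, ∑' j, F N j = P q N ^ 2 := by
    intro N
    rw [← finite_identity h0 h1 N, tsum_eq_sum (s := range (N + 1))]
    · apply sum_congr rfl
      intro j hj
      rw [mem_range] at hj
      rw [hF]
      simp only [if_pos (show j ≤ N by omega)]
    · intro j hj
      rw [mem_range] at hj
      rw [hF]
      simp only [if_neg (show ¬ j ≤ N by omega)]
  simp only [hsum] at hlim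
  have h2 := tendsto_nhds_unique hlim ((P_tendsto h0 h1).pow 2)
  rw [tsum_mul_right] at h2
  have h3 : Ainf q * (L q / (L q * L q)) = L q ^ 2 := h2
  have h4 : L q / (L q * L q) * L q = 1 := by field_simp
  calc Ainf q = Ainf q * (L q / (L q * L q) * L q) := by rw [h4, mul_one]
    _ = (Ainf q * (L q / (L q * L q))) * L q := by ring
    _ = L q ^ 3 := by rw [h3]; ring

end

theorem L_anti {q r : ℝ} (h0 : 0 < q) (hqr : q ≤ r) (h1 : r < 1) : L r ≤ L q := by
  apply le_of_tendsto_of_tendsto' (P_tendsto (h0.trans_le hqr) h1)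
    (P_tendsto h0 (hqr.trans_lt h1))
  intro m
  apply Finset.prod_le_prod
  · intro i _
    exact (fac_pos (h0.trans_le hqr) h1 i).le
  · intro i _
    have := pow_le_pow_left₀ h0.le hqr (i + 1)
    linarith

end Pool.Agent.Q164.Theta1
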