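import Pool.Agent.Q164.Theta1
import Mathlib.Analysis.Calculus.Deriv.MeanValue
import Mathlib.Analysis.Calculus.Deriv.Slope
import Mathlib.Analysis.Calculus.Deriv.Polynomial
import Mathlib.Analysis.Complex.ExponentialBounds
import Mathlib.Algebra.Polynomial.FieldDivision

/-!
Positive zeros of the partial sums `A_n(y) = ∑_{j ≤ n} (-1)^j (2j+1) y^{j(j+1)/2}`.
-/

namespace Pool.Agent.Q164.Theta2

open Finset Filter Topology Polynomial Pool.Agent.Q164.Theta1

/-- The terms. -/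
noncomputable def t (j : ℕ) (y : ℝ) : ℝ := (2 * (j : ℝ) + 1) * y ^ T j

/-- The partial sums. -/
noncomputable def A (n : ℕ) (y : ℝ) : ℝ := ∑ j ∈ range (n + 1), (-1) ^ j * t j y

theorem A_succ (n : ℕ) (y : ℝ) : A (n + 1) y = A n y + (-1) ^ (n + 1) * t (n + 1) y := by
  rw [A, sum_range_succ, A]

theorem A_zero (y : ℝ) : A 0 y = 1 := by
  simp [A, t, T_zero]

theorem t_zero (y : ℝ) : t 0 y = 1 := by simp [t, T_zero]

theorem t_succ (j : ℕ) (y : ℝ) : t (j + 1) y = (2 * (j : ℝ) + 3) * y ^ (j + 1) * y ^ T j := by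
  rw [t, T_succ, pow_add]
  push_cast
  ring

theorem A_even_step {n : ℕ} (hn : Even n) (y : ℝ) :
    A (n + 2) y = A n y - t (n + 1) y + t (n + 2) y := by
  rw [A_succ (n + 1), A_succ n, Odd.neg_one_pow (by exact hn.add_one),
    Even.neg_one_pow (by exact hn.add_one.add_one)]
  ring

theorem A_odd_step {n : ℕ} (hn : Odd n) (y : ℝ) :
    A (n + 2) y = A n y + (t (n + 1) y - t (n + 2) y) := by
  rw [A_succ (n + 1), A_succ n, Even.neg_one_pow (by exact hn.add_one),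
    Odd.neg_one_pow (by exact hn.add_one.add_one)]
  ring

theorem t_le_succ {j : ℕ} {y : ℝ} (hy : 0 < y)
    (h : 2 * (j : ℝ) + 1 ≤ (2 * (j : ℝ) + 3) * y ^ (j + 1)) : t j y ≤ t (j + 1) y := by
  rw [t_succ, t]
  exact mul_le_mul_of_nonneg_right h (pow_pos hy _).le

theorem succ_le_t {j : ℕ} {y : ℝ} (hy : 0 < y)
    (h : (2 * (j : ℝ) + 3) * y ^ (j + 1) ≤ 2 * (j : ℝ) + 1) : t (j + 1) y ≤ t j y := by
  rw [t_succ, t]
  exact mul_le_mul_of_nonneg_right h (pow_pos hy _).le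

theorem inc_of {m j : ℕ} {y : ℝ} (hy : 0 < y) (hjm : j ≤ m)
    (h : 2 * (m : ℝ) + 1 ≤ (2 * (m : ℝ) + 3) * y ^ (m + 1)) :
    2 * (j : ℝ) + 1 ≤ (2 * (j : ℝ) + 3) * y ^ (j + 1) := by
  have hj : (j : ℝ) ≤ m := by exact_mod_cast hjm
  have hj0 : (0 : ℝ) ≤ j := Nat.cast_nonneg j
  rcases le_total y 1 with h1 | h1
  · have h2 : y ^ (m + 1) ≤ y ^ (j + 1) := pow_le_pow_of_le_one hy.le h1 (by omega)
    have h3 : 2 * (m : ℝ) + 1 ≤ (2 * (m : ℝ) + 3) * y ^ (j + 1) :=
      h.trans (mul_le_mul_of_nonneg_left h2 (by positivity))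
    have h4 : y ^ (j + 1) ≤ 1 := pow_le_one₀ hy.le h1
    by_contra hcon
    push Not at hcon
    nlinarith [mul_nonneg (sub_nonneg.2 hj) (sub_nonneg.2 h4)]
  · have h2 : 1 ≤ y ^ (j + 1) := one_le_pow₀ h1
    nlinarith

theorem dec_of {m j : ℕ} {y : ℝ} (hy : 0 < y) (h1 : y ≤ 1) (hjm : m ≤ j)
    (h : (2 * (m : ℝ) + 3) * y ^ (m + 1) ≤ 2 * (m : ℝ) + 1) :
    (2 * (j : ℝ) + 3) * y ^ (j + 1) ≤ 2 * (j : ℝ) + 1 := by
  have hj : (m : ℝ) ≤ j := by exact_mod_cast hjm
  have hm0 : (0 : ℝ) ≤ m := Nat.cast_nonneg m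
  have h2 : y ^ (j + 1) ≤ y ^ (m + 1) := pow_le_pow_of_le_one hy.le h1 (by omega)
  have h3 : (2 * (m : ℝ) + 3) * y ^ (j + 1) ≤ 2 * (m : ℝ) + 1 :=
    (mul_le_mul_of_nonneg_left h2 (by positivity)).trans h
  have h4 : y ^ (j + 1) ≤ 1 := pow_le_one₀ hy.le h1
  nlinarith [mul_nonneg (sub_nonneg.2 hj) (sub_nonneg.2 h4)]

/-- Increasing terms, even number of steps. -/
theorem even_inc {y : ℝ} (hy : 0 < y) (k : ℕ)
    (h : ∀ j < 2 * k, 2 * (j : ℝ) + 1 ≤ (2 * (j : ℝ) + 3) * y ^ (j + 1)) : 1 ≤ A (2 * k) y := by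
  induction k with
  | zero => rw [mul_zero, A_zero]
  | succ k ih =>
    have h1 := ih fun j hj => h j (by omega)
    have h2 := t_le_succ hy (h (2 * k + 1) (by omega))
    rw [show 2 * (k + 1) = 2 * k + 2 by ring, A_even_step (even_two_mul k)]
    linarith

/-- Increasing terms, odd number of steps. -/
theorem odd_inc {y : ℝ} (hy : 1 < 3 * y) (k : ℕ)
    (h : ∀ j < 2 * k + 1, 2 * (j : ℝ) + 1 ≤ (2 * (j : ℝ) + 3) * y ^ (j + 1)) :
    A (2 * k + 1) y < 0 := by
  have hy0 : 0 < y := by linarith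
  induction k with
  | zero =>
    rw [mul_zero, A_succ, A_zero, t_succ, T_zero]
    norm_num
    linarith
  | succ k ih =>
    have h1 := ih fun j hj => h j (by omega)
    have h2 := t_le_succ hy0 (h (2 * k + 1 + 1) (by omega))
    rw [show 2 * (k + 1) + 1 = 2 * k + 1 + 2 by ring, A_odd_step (odd_two_mul_add_one k)]
    linarith

theorem A_tendsto {y : ℝ} (h0 : 0 < y) (h1 : y < 1) :
    Tendsto (fun n => A n y) atTop (𝓝 (Ainf y)) := by
  have h2 := (summable_alt h0 h1).hasSum.tendsto_sum_nat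
  have h3 := h2.comp (tendsto_add_atTop_nat 1)
  refine h3.congr fun n => ?_
  show ∑ j ∈ range (n + 1), (-1 : ℝ) ^ j * (2 * (j : ℝ) + 1) * y ^ T j = A n y
  rw [A]
  apply sum_congr rfl
  intro j _
  rw [t]
  ring

theorem A_tendsto_two {y : ℝ} (h0 : 0 < y) (h1 : y < 1) (n : ℕ) :
    Tendsto (fun k => A (n + 2 * k) y) atTop (𝓝 (Ainf y)) := by
  apply (A_tendsto h0 h1).comp
  apply tendsto_atTop_mono (fun k => ?_) tendsto_id
  show k ≤ n + 2 * k
  omega

theorem Ainf_pos {y : ℝ} (h0 : 0 < y) (h1 : y < 1) : 0 < Ainf y := by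
  rw [jacobi h0 h1]
  exact pow_pos (L_pos h0 h1) 3

theorem Ainf_anti {x y : ℝ} (h0 : 0 < x) (hxy : x ≤ y) (h1 : y < 1) : Ainf y ≤ Ainf x := by
  rw [jacobi h0 (hxy.trans_lt h1), jacobi (h0.trans_le hxy) h1]
  exact pow_le_pow_left₀ (L_pos (h0.trans_le hxy) h1).le (L_anti h0 hxy h1) 3

theorem Ainf_le {y : ℝ} (h0 : 0 < y) (h1 : y < 1) : Ainf y ≤ (1 - y) ^ 3 := by
  rw [jacobi h0 h1]
  apply pow_le_pow_left₀ (L_pos h0 h1).le
  have := L_le_P h0 h1 1
  rwa [P_succ, P_zero, zero_add, pow_one, one_mul] at this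

/-- Even partial sums have no positive zero. -/
theorem even_pos {n : ℕ} (hn : Even n) {y : ℝ} (hy : 0 < y) : 0 < A n y := by
  by_cases h : 2 * ((n + 1 : ℕ) : ℝ) + 1 ≤ (2 * ((n + 1 : ℕ) : ℝ) + 3) * y ^ (n + 1 + 1)
  · obtain ⟨k, rfl⟩ := hn
    rw [← two_mul] at *
    have := even_inc hy k fun j hj => inc_of hy (by omega) h
    linarith
  · push Not at h
    have hy1 : y < 1 := by
      by_contra hcon
      push Not at hcon
      have h2 : 1 ≤ y ^ (n + 1 + 1) := one_le_pow₀ hcon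
      have h3 : (0 : ℝ) ≤ ((n + 1 : ℕ) : ℝ) := Nat.cast_nonneg _
      nlinarith
    have hmono : ∀ k, A (n + 2 * k) y ≤ A n y := by
      intro k
      induction k with
      | zero => rfl
      | succ k ih =>
        have he : Even (n + 2 * k) := hn.add (even_two_mul k)
        have h2 := succ_le_t hy (dec_of (j := n + 2 * k + 1) hy hy1.le (by omega) h.le)
        rw [show n + 2 * (k + 1) = n + 2 * k + 2 by ring, A_even_step he]
        linarith
    have h4 := le_of_tendsto' (A_tendsto_two hy hy1 n) hmono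
    exact (Ainf_pos hy hy1).trans_le h4

/-! ### Odd partial sums: negativity near one -/

theorem odd_neg_mid {n : ℕ} (hn : Odd n) (hn3 : 3 ≤ n) {y : ℝ} (hy : 0 < y) (hy1 : y < 1)
    (hdec : (2 * (n : ℝ) + 5) * y ^ (n + 2) ≤ 2 * (n : ℝ) + 3)
    (hρ : (2 * (n : ℝ) + 3) * (n + 1) ≤ (2 * (n : ℝ) + 5) * (n + 3) * y ^ (n + 2)) :
    A n y < 0 := by
  have hnr : (3 : ℝ) ≤ n := by exact_mod_cast hn3
  -- decreasing tails
  have hdec' : (2 * ((n + 1 : ℕ) : ℝ) + 3) * y ^ (n + 1 + 1) ≤ 2 * ((n + 1 : ℕ) : ℝ) + 1 := by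
    push_cast
    linarith
  have hd : ∀ j, n + 1 ≤ j → t (j + 1) y ≤ t j y := fun j hj =>
    succ_le_t hy (dec_of hy hy1.le hj hdec')
  have hmono : ∀ k, A (n + 4) y ≤ A (n + 4 + 2 * k) y := by
    intro k
    induction k with
    | zero => rfl
    | succ k ih =>
      have he : Odd (n + 4 + 2 * k) := by
        rw [add_assoc]
        exact hn.add_even (by exact ⟨2 + k, by ring⟩)
      have h2 := hd (n + 4 + 2 * k + 1) (by omega)
      rw [show n + 4 + 2 * (k + 1) = n + 4 + 2 * k + 2 by ring, A_odd_step he]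
      linarith
  have h1 : A (n + 4) y ≤ Ainf y := ge_of_tendsto' (A_tendsto_two hy hy1 (n + 4)) hmono
  have h2 : A (n + 4) y = A n y + (t (n + 1) y - t (n + 2) y) + (t (n + 3) y - t (n + 4) y) := by
    rw [show n + 4 = n + 2 + 2 by ring, A_odd_step (by exact hn.add_even even_two), A_odd_step hn]
  have h3 := hd (n + 1) le_rfl
  have h4 := Ainf_le hy hy1
  -- lower bound of the second pair
  have h5 : 8 / (2 * (n : ℝ) + 5) * y ^ T (n + 3) ≤ t (n + 3) y - t (n + 4) y := by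
    rw [t_succ (n + 3), t, ← sub_mul]
    apply mul_le_mul_of_nonneg_right _ (pow_pos hy _).le
    have e1 : y ^ (n + 3 + 1) ≤ y ^ (n + 2) := pow_le_pow_of_le_one hy.le hy1.le (by omega)
    rw [div_le_iff₀ (by positivity)]
    push_cast
    have e2 : (2 * (n : ℝ) + 5) * y ^ (n + 3 + 1) ≤ 2 * (n : ℝ) + 3 :=
      (mul_le_mul_of_nonneg_left e1 (by positivity)).trans hdec
    nlinarith
  -- the distance to one
  set δ : ℝ := 6 / ((2 * (n : ℝ) + 3) * (n + 1)) with hδ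
  have hδpos : 0 < δ := by positivity
  have h6 : 1 / y - 1 ≤ δ := by
    have e1 := one_add_mul_le_pow (show (-2 : ℝ) ≤ 1 / y - 1 by
      have : 0 < 1 / y := by positivity
      linarith) (n + 2)
    rw [add_sub_cancel] at e1
    have e2 : (1 / y) ^ (n + 2) ≤ (2 * (n : ℝ) + 5) * (n + 3) / ((2 * (n : ℝ) + 3) * (n + 1)) := by
      rw [one_div_pow, div_le_div_iff₀ (pow_pos hy _) (by positivity), one_mul]
      exact hρ
    have e3 : (2 * (n : ℝ) + 5) * (n + 3) / ((2 * (n : ℝ) + 3) * (n + 1)) =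
        1 + ((n : ℝ) + 2) * δ := by
      rw [hδ]
      field_simp
      ring
    rw [e3] at e2
    push_cast at e1
    have e4 : ((n : ℝ) + 2) * (1 / y - 1) ≤ (n + 2) * δ := by linarith
    exact le_of_mul_le_mul_left e4 (by positivity)
  have h7 : 1 - y ≤ δ := by
    refine le_trans ?_ h6
    have : 1 / y - 1 - (1 - y) = (1 - y) ^ 2 / y := by field_simp
    have : 0 ≤ (1 - y) ^ 2 / y := by positivity
    linarith
  -- lower bound of the power
  have h8 : Real.exp (-4) ≤ y ^ T (n + 3) := by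
    have e1 : Real.log (1 / y) ≤ 1 / y - 1 := Real.log_le_sub_one_of_pos (by positivity)
    rw [one_div, Real.log_inv, ← one_div] at e1
    have e2 : y ^ T (n + 3) = Real.exp (T (n + 3) * Real.log y) := by
      rw [Real.exp_nat_mul, Real.exp_log hy]
    rw [e2]
    apply Real.exp_le_exp.2
    have e3 : (2 : ℝ) * T (n + 3) = (n + 3) * (n + 4) := by
      have := two_T (n + 3)
      have h' : ((2 * T (n + 3) : ℕ) : ℝ) = (((n + 3) * (n + 3 + 1) : ℕ) : ℝ) := by rw [this]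
      push_cast at h'
      linarith
    have e4 : (T (n + 3) : ℝ) * δ ≤ 4 := by
      have : (T (n + 3) : ℝ) * δ = 3 * ((n + 3) * (n + 4)) / ((2 * (n : ℝ) + 3) * (n + 1)) := by
        rw [hδ, ← e3]
        field_simp
        ring
      rw [this, div_le_iff₀ (by positivity)]
      nlinarith
    have e5 : (T (n + 3) : ℝ) * (-Real.log y) ≤ T (n + 3) * δ :=
      mul_le_mul_of_nonneg_left (e1.trans h6) (Nat.cast_nonneg _)
    linarith
  have h9 : (1 : ℝ) / 55 ≤ Real.exp (-4) := by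
    rw [Real.exp_neg, ← one_div]
    apply one_div_le_one_div_of_le (Real.exp_pos _)
    have e1 := Real.exp_one_lt_d9
    have e2 : Real.exp 4 = Real.exp 1 ^ 4 := by
      rw [← Real.exp_nat_mul]
      norm_num
    rw [e2]
    calc Real.exp 1 ^ 4 ≤ (2.7182818286 : ℝ) ^ 4 :=
          pow_le_pow_left₀ (Real.exp_pos _).le e1.le 4
      _ ≤ 55 := by norm_num
  have h10 : (1 - y) ^ 3 ≤ δ ^ 3 := pow_le_pow_left₀ (by linarith) h7 3
  have h11 : δ ^ 3 < 8 / (2 * (n : ℝ) + 5) * (1 / 55) := by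
    rw [hδ, div_pow, mul_one_div, div_div, div_lt_div_iff₀ (by positivity) (by positivity)]
    have e1 : (36 : ℝ) ≤ (2 * (n : ℝ) + 3) * (n + 1) := by nlinarith
    set M : ℝ := (2 * (n : ℝ) + 3) * (n + 1) with hM
    have e2 : 2 * (n : ℝ) + 5 ≤ M := by rw [hM]; nlinarith
    have e3 : (36 : ℝ) * 36 ≤ M * M := mul_le_mul e1 e1 (by norm_num) (by linarith)
    have e4 : M ^ 3 = M * (M * M) := by ring
    rw [e4]
    nlinarith
  have h12 : 8 / (2 * (n : ℝ) + 5) * (1 / 55) ≤ 8 / (2 * (n : ℝ) + 5) * y ^ T (n + 3) :=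
    mul_le_mul_of_nonneg_left (h9.trans h8) (by positivity)
  linarith

/-- Odd partial sums are negative beyond the threshold. -/
theorem odd_neg {n : ℕ} (hn : Odd n) (hn3 : 3 ≤ n) {y : ℝ} (hy : 0 < y)
    (hρ : (2 * (n : ℝ) + 3) * (n + 1) ≤ (2 * (n : ℝ) + 5) * (n + 3) * y ^ (n + 2)) :
    A n y < 0 := by
  by_cases h : 2 * ((n + 1 : ℕ) : ℝ) + 1 ≤ (2 * ((n + 1 : ℕ) : ℝ) + 3) * y ^ (n + 1 + 1)
  · obtain ⟨k, rfl⟩ := hn
    have h3 := inc_of hy (Nat.zero_le (2 * k + 1 + 1)) h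
    apply odd_inc _ k
    · intro j hj
      exact inc_of hy (by omega) h
    · -- y > 1/3
      rcases le_total y 1 with h1 | h1
      · have h2 : y ^ (2 * k + 1 + 1 + 1) ≤ y ^ 1 := pow_le_pow_of_le_one hy.le h1 (by omega)
        rw [pow_one] at h2
        have h4 : (0 : ℝ) ≤ ((2 * k + 1 + 1 : ℕ) : ℝ) := Nat.cast_nonneg _
        have h5 : (3 : ℝ) ≤ ((2 * k + 1 + 1 : ℕ) : ℝ) := by
          have : 3 ≤ 2 * k + 1 + 1 := by omega
          exact_mod_cast this
        by_contra hcon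
        push Not at hcon
        nlinarith
      · linarith
  · push Not at h
    have hy1 : y < 1 := by
      by_contra hcon
      push Not at hcon
      have h2 : 1 ≤ y ^ (n + 1 + 1) := one_le_pow₀ hcon
      have h3 : (0 : ℝ) ≤ ((n + 1 : ℕ) : ℝ) := Nat.cast_nonneg _
      nlinarith
    apply odd_neg_mid hn hn3 hy hy1 _ hρ
    push_cast at h
    linarith

/-! ### Odd partial sums: monotonicity below the threshold -/

/-- The region where the pair `t j - t (j+1)` increases. -/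
def Reg (j : ℕ) (y : ℝ) : Prop :=
  (2 * (j : ℝ) + 3) * (j + 2) * y ^ (j + 1) ≤ (2 * (j : ℝ) + 1) * j

theorem Reg.succ {j : ℕ} {y : ℝ} (hy : 0 < y) (hy1 : y ≤ 1) (h : Reg j y) : Reg (j + 1) y := by
  unfold Reg at *
  have hj : (0 : ℝ) ≤ j := Nat.cast_nonneg j
  have h1 : y ^ (j + 1 + 1) ≤ y ^ (j + 1) := pow_le_pow_of_le_one hy.le hy1 (by omega)
  push_cast
  set p := y ^ (j + 1)
  set p' := y ^ (j + 1 + 1)
  have h2 : (2 * (j : ℝ) + 3) * (j + 2) * p' ≤ (2 * (j : ℝ) + 1) * j :=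
    (mul_le_mul_of_nonneg_left h1 (by positivity)).trans h
  have h3 : ((2 * (j : ℝ) + 3) * (j + 2)) * ((2 * ((j : ℝ) + 1) + 3) * (j + 1 + 2) * p') ≤
      ((2 * (j : ℝ) + 3) * (j + 2)) * ((2 * ((j : ℝ) + 1) + 1) * (j + 1)) := by
    calc ((2 * (j : ℝ) + 3) * (j + 2)) * ((2 * ((j : ℝ) + 1) + 3) * (j + 1 + 2) * p') =
          ((2 * ((j : ℝ) + 1) + 3) * (j + 1 + 2)) * ((2 * (j : ℝ) + 3) * (j + 2) * p') := by ring
      _ ≤ ((2 * ((j : ℝ) + 1) + 3) * (j + 1 + 2)) * ((2 * (j : ℝ) + 1) * j) :=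
          mul_le_mul_of_nonneg_left h2 (by positivity)
      _ ≤ _ := by nlinarith [mul_nonneg hj hj, mul_nonneg (mul_nonneg hj hj) hj]
  exact le_of_mul_le_mul_left h3 (by positivity)

theorem Reg.add {j : ℕ} {y : ℝ} (hy : 0 < y) (hy1 : y ≤ 1) (h : Reg j y) (k : ℕ) :
    Reg (j + k) y := by
  induction k with
  | zero => exact h
  | succ k ih => exact ih.succ hy hy1

theorem Reg.mono {j : ℕ} {x y : ℝ} (hx : 0 ≤ x) (hxy : x ≤ y) (h : Reg j y) : Reg j x := by
  unfold Reg at *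
  have h1 : x ^ (j + 1) ≤ y ^ (j + 1) := pow_le_pow_left₀ hx hxy _
  exact (mul_le_mul_of_nonneg_left h1 (by positivity)).trans h

/-- The derivative of the pair. -/
theorem pair_deriv (j : ℕ) (hj : 1 ≤ j) (x : ℝ) :
    HasDerivAt (fun x => t j x - t (j + 1) x)
      ((j + 1) / 2 * x ^ (T j - 1) *
        ((2 * (j : ℝ) + 1) * j - (2 * (j : ℝ) + 3) * (j + 2) * x ^ (j + 1))) x := by
  have hT : 1 ≤ T j := hj.trans (le_T j)
  have h1 : HasDerivAt (fun x : ℝ => t j x) ((2 * (j : ℝ) + 1) * (T j * x ^ (T j - 1))) x :=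
    (hasDerivAt_pow (T j) x).const_mul _
  have h2 : HasDerivAt (fun x : ℝ => t (j + 1) x)
      ((2 * ((j + 1 : ℕ) : ℝ) + 1) * (T (j + 1) * x ^ (T (j + 1) - 1))) x :=
    (hasDerivAt_pow (T (j + 1)) x).const_mul _
  convert! h1.sub h2 using 1
  have e1 : (2 : ℝ) * T j = j * (j + 1) := by
    have := two_T j
    exact_mod_cast this
  have e2 : (2 : ℝ) * T (j + 1) = (j + 1) * (j + 2) := by
    have := two_T (j + 1)
    have h' : ((2 * T (j + 1) : ℕ) : ℝ) = (((j + 1) * (j + 1 + 1) : ℕ) : ℝ) := by rw [this]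
    push_cast at h'
    linarith
  have e3 : T (j + 1) - 1 = (T j - 1) + (j + 1) := by
    rw [T_succ]
    omega
  rw [e3, pow_add]
  push_cast
  linear_combination (-(1 / 2) * (2 * (j : ℝ) + 1) * x ^ (T j - 1)) * e1 +
    (1 / 2 * (2 * (j : ℝ) + 3) * x ^ (T j - 1) * x ^ (j + 1)) * e2

theorem pair_mono {j : ℕ} (hj : 1 ≤ j) {x y : ℝ} (hx : 0 ≤ x) (hxy : x ≤ y) (h : Reg j y) :
    t j x - t (j + 1) x ≤ t j y - t (j + 1) y := by
  have hm : MonotoneOn (fun x => t j x - t (j + 1) x) (Set.Icc x y) := by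
    apply monotoneOn_of_deriv_nonneg (convex_Icc x y)
    · exact fun z _ => (pair_deriv j hj z).continuousAt.continuousWithinAt
    · exact fun z _ => (pair_deriv j hj z).differentiableAt.differentiableWithinAt
    · intro z hz
      rw [interior_Icc] at hz
      rw [(pair_deriv j hj z).deriv]
      have hz0 : 0 < z := hx.trans_lt hz.1
      have h1 := h.mono hz0.le hz.2.le
      unfold Reg at h1
      apply mul_nonneg (by positivity)
      linarith
  exact hm ⟨le_rfl, hxy⟩ ⟨hxy, le_rfl⟩ hxy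

/-- `A n` is antitone below the threshold, for odd `n`. -/
theorem A_anti {n : ℕ} (hn : Odd n) {x y : ℝ} (hx : 0 < x) (hxy : x ≤ y) (hy1 : y < 1)
    (h : Reg (n + 1) y) : A n y ≤ A n x := by
  have hD : ∀ k, A (n + 2 * k) x - A n x ≤ A (n + 2 * k) y - A n y := by
    intro k
    induction k with
    | zero => simp
    | succ k ih =>
      have ho : Odd (n + 2 * k) := hn.add_even (even_two_mul k)
      have h1 : Reg (n + 2 * k + 1) y := by
        have := h.add (hx.trans_le hxy) hy1.le (2 * k)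
        rwa [show n + 1 + 2 * k = n + 2 * k + 1 by ring] at this
      have h2 := pair_mono (by omega) hx.le hxy h1
      rw [show n + 2 * (k + 1) = n + 2 * k + 2 by ring, A_odd_step ho, A_odd_step ho]
      linarith
  have h1 := le_of_tendsto_of_tendsto' ((A_tendsto_two hx (hxy.trans_lt hy1) n).sub_const (A n x))
    ((A_tendsto_two (hx.trans_le hxy) hy1 n).sub_const (A n y)) hD
  have h2 := Ainf_anti hx hxy hy1
  linarith

/-- `A n` as a polynomial. -/
noncomputable def Ap (n : ℕ) : ℝ[X] := ∑ j ∈ range (n + 1), C ((-1) ^ j * (2 * (j : ℝ) + 1)) * X ^ T j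

theorem eval_Ap (n : ℕ) (y : ℝ) : (Ap n).eval y = A n y := by
  rw [Ap, eval_finsetSum, A]
  apply sum_congr rfl
  intro j _
  rw [eval_mul, eval_C, eval_pow, eval_X, t]
  ring

theorem A_hasDerivAt (n : ℕ) (y : ℝ) : HasDerivAt (A n) ((derivative (Ap n)).eval y) y := by
  have h := (Ap n).hasDerivAt y
  have e : (fun x => (Ap n).eval x) = A n := funext (eval_Ap n)
  rwa [e] at h

/-- The derivative is negative below the threshold. -/
theorem deriv_neg {n : ℕ} (hn : Odd n) {y : ℝ} (hy : 0 < y) (hy1 : y < 1)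
    (h : (2 * (n : ℝ) + 5) * (n + 3) * y ^ (n + 2) < (2 * (n : ℝ) + 3) * (n + 1)) :
    (derivative (Ap n)).eval y < 0 := by
  have hReg : Reg (n + 1) y := by
    unfold Reg
    push_cast
    linarith
  -- `A (n+2)` is antitone on `(0, y]`
  have hanti : AntitoneOn (A (n + 2)) (Set.Icc (y / 2) y) := by
    intro a ha b hb hab
    have ha0 : 0 < a := lt_of_lt_of_le (by positivity) ha.1
    apply A_anti (by exact hn.add_even even_two) ha0 hab (hb.2.trans_lt hy1)
    have h1 := (hReg.mono (ha0.le.trans hab) hb.2).add (ha0.trans_le hab) (hb.2.trans hy1.le) 2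
    rwa [show n + 1 + 2 = n + 2 + 1 by ring] at h1
  have h1 := hanti.derivWithin_nonpos (x := y)
  have h2 : derivWithin (A (n + 2)) (Set.Icc (y / 2) y) y = (derivative (Ap (n + 2))).eval y :=
    (A_hasDerivAt (n + 2) y).hasDerivWithinAt.derivWithin
      (uniqueDiffOn_Icc (by linarith) y ⟨by linarith, le_rfl⟩)
  rw [h2] at h1
  have h3 : HasDerivAt (A (n + 2)) ((derivative (Ap n)).eval y +
      ((((n + 1 : ℕ) : ℝ) + 1) / 2 * y ^ (T (n + 1) - 1) *
        ((2 * ((n + 1 : ℕ) : ℝ) + 1) * ((n + 1 : ℕ) : ℝ) -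
          (2 * ((n + 1 : ℕ) : ℝ) + 3) * (((n + 1 : ℕ) : ℝ) + 2) * y ^ (n + 1 + 1)))) y := by
    have e : A (n + 2) = fun x => A n x + (t (n + 1) x - t (n + 1 + 1) x) := by
      funext x
      exact A_odd_step hn x
    rw [e]
    exact (A_hasDerivAt n y).add (pair_deriv (n + 1) (by omega) y)
  have h4 := h3.unique (A_hasDerivAt (n + 2) y)
  have h5 : 0 < (((n + 1 : ℕ) : ℝ) + 1) / 2 * y ^ (T (n + 1) - 1) *
        ((2 * ((n + 1 : ℕ) : ℝ) + 1) * ((n + 1 : ℕ) : ℝ) -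
          (2 * ((n + 1 : ℕ) : ℝ) + 3) * (((n + 1 : ℕ) : ℝ) + 2) * y ^ (n + 1 + 1)) := by
    apply mul_pos (by positivity)
    push_cast
    linarith
  linarith

/-- For odd `n ≥ 3` there is exactly one positive zero, and it is simple. -/
theorem odd_unique {n : ℕ} (hn : Odd n) (hn3 : 3 ≤ n) :
    ∃ y₀ : ℝ, 0 < y₀ ∧ A n y₀ = 0 ∧ (derivative (Ap n)).eval y₀ ≠ 0 ∧
      ∀ y, 0 < y → A n y = 0 → y = y₀ := by
  have hreg : ∀ y, 0 < y → A n y = 0 → y < 1 ∧
      (2 * (n : ℝ) + 5) * (n + 3) * y ^ (n + 2) < (2 * (n : ℝ) + 3) * (n + 1) := by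
    intro y hy h0
    have h1 : (2 * (n : ℝ) + 5) * (n + 3) * y ^ (n + 2) < (2 * (n : ℝ) + 3) * (n + 1) := by
      by_contra hcon
      push Not at hcon
      exact (odd_neg hn hn3 hy hcon).ne h0
    refine ⟨?_, h1⟩
    by_contra hcon
    push Not at hcon
    have h2 : 1 ≤ y ^ (n + 2) := one_le_pow₀ hcon
    have h3 : (0 : ℝ) ≤ n := Nat.cast_nonneg _
    nlinarith [mul_le_mul_of_nonneg_left h2
      (show (0 : ℝ) ≤ (2 * (n : ℝ) + 5) * (n + 3) by positivity)]
  -- existence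
  have hcont : Continuous (A n) := by
    have e : A n = fun x => (Ap n).eval x := (funext (eval_Ap n)).symm
    rw [e]
    exact (Ap n).continuous
  have h0 : A n 0 = 1 := by
    obtain ⟨k, rfl⟩ := hn
    have : ∀ m, A m 0 = 1 := by
      intro m
      induction m with
      | zero => exact A_zero 0
      | succ m ih =>
        rw [A_succ, ih, t_succ, zero_pow (Nat.succ_ne_zero m)]
        ring
    exact this _
  have h1 : A n 1 < 0 := by
    apply odd_neg hn hn3 one_pos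
    rw [one_pow]
    nlinarith [(Nat.cast_nonneg n : (0 : ℝ) ≤ n)]
  obtain ⟨y₀, hy₀, hA⟩ : (0 : ℝ) ∈ A n '' Set.Icc 0 1 :=
    intermediate_value_Icc' zero_le_one hcont.continuousOn ⟨h1.le, by rw [h0]; exact zero_le_one⟩
  have hpos : 0 < y₀ := by
    rcases eq_or_lt_of_le hy₀.1 with h | h
    · rw [← h, h0] at hA
      exact absurd hA one_ne_zero
    · exact h
  obtain ⟨g1, g2⟩ := hreg y₀ hpos hA
  refine ⟨y₀, hpos, hA, (deriv_neg hn hpos g1 g2).ne, ?_⟩
  -- uniqueness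
  have key : ∀ a b : ℝ, 0 < a → a < b → A n a = 0 → A n b = 0 → False := by
    intro a b ha hab hAa hAb
    obtain ⟨k1, k2⟩ := hreg b (ha.trans hab) hAb
    have hs : StrictAntiOn (A n) (Set.Icc a b) := by
      apply strictAntiOn_of_deriv_neg (convex_Icc a b) hcont.continuousOn
      intro x hx
      rw [interior_Icc] at hx
      rw [(A_hasDerivAt n x).deriv]
      have hx0 : 0 < x := ha.trans hx.1
      apply deriv_neg hn hx0 (hx.2.trans k1)
      refine lt_of_le_of_lt ?_ k2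
      apply mul_le_mul_of_nonneg_left _ (by positivity)
      exact pow_le_pow_left₀ hx0.le hx.2.le _
    have := hs ⟨le_rfl, hab.le⟩ ⟨hab.le, le_rfl⟩ hab
    linarith
  intro y hy hAy
  rcases lt_trichotomy y y₀ with h | h | h
  · exact (key y y₀ hy h hAy hA).elim
  · exact h
  · exact (key y₀ y hpos h hA hAy).elim

end Pool.Agent.Q164.Theta2
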